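import Pool.Agent.H918.A.PD
import Pool.Graph.R_pool_sql_team_seeded_63374d34.N155.B.Pd

/-! The local structure of the union of the curves of a class. -/

set_option autoImplicit false

open Filter Topology Metric Set

namespace Pool.Agent.H918.SD

open Pool.Agent.Y190.OP Pool.Agent.N155
open Pool.Agent.N155.BB (lip_chart an_chart deriv_chart_ne)

variable {N : ℕ} {T : Set (Mat N)} {c0 : ℝ} {𝒞 : (ℂ → Mat N) → Prop} {r c1 : ℝ}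

/-- the data of a class of curves -/
structure CD (T : Set (Mat N)) (c0 : ℝ) (𝒞 : (ℂ → Mat N) → Prop) (r c1 : ℝ) : Prop where
  cls : Cls T c0 𝒞
  inj : Inj r c1 𝒞
  rpos : 0 < r
  cpos : 0 < c1
  sep : ∀ P Q : ℕ → ℂ → Mat N, (∀ m, 𝒞 (P m)) → (∀ m, 𝒞 (Q m)) → ∀ H : ℂ → Mat N,
    CConv (hyperfilter ℕ : Filter ℕ) univ P H → CConv (hyperfilter ℕ : Filter ℕ) univ Q H →
    ∀ᶠ m in (hyperfilter ℕ : Filter ℕ), ∃ α β : ℂ, ‖β‖ ≤ r / 8 ∧ ∀ z, P m z = Q m (α * z + β)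
  tra : ∃ η : ℝ, 0 < η ∧ ∀ P Q, 𝒞 P → 𝒞 Q → ∀ (R : ℝ) (g : ℂ → ℂ), 0 < R →
    Trs η r 0 R P Q g →
      ∃ α β : ℂ, (∀ z, P z = Q (α * z + β)) ∧ ∀ z ∈ ball (0 : ℂ) R, g z = α * z + β

theorem CD.of {Z : Set (Mat N)} {κ : Type} {ω : κ → (Fin N → ℂ) → (Fin N → ℂ) → (Fin N → ℂ) → ℂ}
    (hG : BB.GW T Z ω) (hZ : ∀ φ, 𝒞 φ → ∃ z, φ z ∉ Z) (h : Cls T c0 𝒞) :
    ∃ r c1, CD T c0 𝒞 r c1 := by
  obtain ⟨r, c1, hr, -, hc1, hi, hsp⟩ := BB.sep_class hG hZ h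
  refine ⟨r, c1, h, hi, hr, hc1, hsp, ?_⟩
  obtain ⟨η0, hη0, hule⟩ := h.ule hr
  set η : ℝ := min (η0 / 2) (c1 * (r / 16)) with hη
  have hη0' : 0 < η := by positivity
  have e1 : η ≤ η0 / 2 := min_le_left _ _
  have e2 : η ≤ c1 * (r / 16) := min_le_right _ _
  refine ⟨η, hη0', fun P Q hP hQ R g hR ht => ?_⟩
  exact ht.affine h hi hr hc1 hη0' (by linarith) (by linarith) hule hP hQ hR

/-- the curves have the same image, and the origins are close -/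
def SL (ρ : ℝ) (φ ψ : ℂ → Mat N) : Prop := ∃ α β : ℂ, ‖β‖ ≤ ρ ∧ ∀ z, φ z = ψ (α * z + β)

variable {φ ψ χ : ℂ → Mat N} {ρ ρ' : ℝ}

theorem SL.refl (hρ : 0 ≤ ρ) (φ : ℂ → Mat N) : SL ρ φ φ :=
  ⟨1, 0, by rwa [norm_zero], fun z => by rw [one_mul, add_zero]⟩

theorem SL.mono (h : SL ρ φ ψ) (hρ : ρ ≤ ρ') : SL ρ' φ ψ := by
  obtain ⟨α, β, hβ, hz⟩ := h
  exact ⟨α, β, hβ.trans hρ, hz⟩

theorem CD.alpha_ne (h : CD T c0 𝒞 r c1) (hφ : 𝒞 φ) (hψ : 𝒞 ψ) {α β : ℂ}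
    (heq : ∀ z, φ z = ψ (α * z + β)) : α ≠ 0 := by
  obtain ⟨h1, -⟩ := h.cls.alpha hφ hψ heq
  intro h0
  rw [h0, norm_zero] at h1
  linarith [h.cls.pos]

theorem CD.inv_le (h : CD T c0 𝒞 r c1) (hφ : 𝒞 φ) (hψ : 𝒞 ψ) {α β : ℂ}
    (heq : ∀ z, φ z = ψ (α * z + β)) : ‖α‖⁻¹ ≤ 2 / c0 := by
  obtain ⟨h1, -⟩ := h.cls.alpha hφ hψ heq
  have h2 := h.cls.pos
  rw [show 2 / c0 = (c0 / 2)⁻¹ by rw [inv_div]]
  exact inv_anti₀ (by positivity) h1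

theorem CD.symm (h : CD T c0 𝒞 r c1) (hφ : 𝒞 φ) (hψ : 𝒞 ψ) (hs : SL ρ φ ψ) :
    SL (2 / c0 * ρ) ψ φ := by
  obtain ⟨α, β, hβ, hz⟩ := hs
  have h1 := h.alpha_ne hφ hψ hz
  have h2 := h.inv_le hφ hψ hz
  have h3 := h.cls.pos
  refine ⟨α⁻¹, -(α⁻¹ * β), ?_, fun w => ?_⟩
  · rw [norm_neg, norm_mul, norm_inv]
    exact mul_le_mul h2 hβ (norm_nonneg _) (by positivity)
  · rw [hz]
    congr 1
    field_simp
    ring

theorem CD.trans (h : CD T c0 𝒞 r c1) (hψ : 𝒞 ψ) (hχ : 𝒞 χ) (h1 : SL ρ φ ψ)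
    (h2 : SL ρ' ψ χ) : SL (2 / c0 * ρ + ρ') φ χ := by
  obtain ⟨α, β, hβ, hz⟩ := h1
  obtain ⟨α', β', hβ', hz'⟩ := h2
  have h4 := (h.cls.alpha hψ hχ hz').2
  have h3 := h.cls.pos
  refine ⟨α' * α, α' * β + β', ?_, fun w => ?_⟩
  · refine (norm_add_le _ _).trans (add_le_add ?_ hβ')
    rw [norm_mul]
    exact mul_le_mul h4 hβ (norm_nonneg _) (by positivity)
  · rw [hz, hz']
    congr 1
    ring

theorem CD.near (h : CD T c0 𝒞 r c1) (hψ : 𝒞 ψ) (hs : SL ρ φ ψ) (hρ : ρ ≤ 2 * r) {δ : ℝ}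
    (hδ : ‖φ 0 - ψ 0‖ ≤ c1 * δ) : SL δ φ ψ := by
  obtain ⟨α, β, hβ, hz⟩ := hs
  refine ⟨α, β, ?_, hz⟩
  have h1 := h.inj ψ hψ 0 β (hβ.trans hρ)
  rw [zero_add] at h1
  have h2 := hz 0
  rw [mul_zero, zero_add] at h2
  rw [← h2] at h1
  exact le_of_mul_le_mul_left (h1.trans hδ) h.cpos

theorem CD.shift_left (b : ℂ → Mat N) {β : ℂ} (hβ : ‖β‖ ≤ ρ) : SL ρ (fun w => b (β + w)) b :=
  ⟨1, β, hβ, fun z => by
    rw [one_mul, add_comm]⟩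

theorem CD.shift_right (b : ℂ → Mat N) {β : ℂ} (hβ : ‖β‖ ≤ ρ) : SL ρ b (fun w => b (β + w)) :=
  ⟨1, -β, by rwa [norm_neg], fun z => by
    change b z = b (β + (1 * z + -β))
    congr 1
    ring⟩

/-- there are no sequences of separated curves -/
theorem CD.noseq (h : CD T c0 𝒞 r c1) {P : ℕ → ℂ → Mat N} (hP : ∀ m, 𝒞 (P m)) (hρ : 0 < ρ) :
    ∃ m n, m < n ∧ SL ρ (P n) (P m) := by
  have hc0 := h.cls.pos
  obtain ⟨χ, hχ, hlim⟩ := h.cls.lim (hyperfilter ℕ) P hP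
  have hQlim : CConv (hyperfilter ℕ : Filter ℕ) univ (fun _ => χ) χ := by
    intro z _
    have h1 : ContinuousAt χ z := (h.cls.hol χ hχ).continuousAt (mem_univ z)
    exact h1.tendsto.comp tendsto_snd
  have hsep := h.sep _ _ hP (fun _ => hχ) _ hlim hQlim
  set δ : ℝ := ρ * c0 / 4 with hδ
  have hδ0 : 0 < δ := by positivity
  have hclose : ∀ᶠ m in (hyperfilter ℕ : Filter ℕ), ‖P m 0 - χ 0‖ < c1 * δ := by
    have h1 := ((hlim.pointwise (mem_univ 0)).sub_const (χ 0)).norm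
    rw [sub_self, norm_zero] at h1
    exact h1.eventually_lt_const (mul_pos h.cpos hδ0)
  have hev : ∀ᶠ m in (hyperfilter ℕ : Filter ℕ), ∃ α β : ℂ, ‖β‖ ≤ δ ∧ ∀ z, P m z =
      χ (α * z + β) := by
    filter_upwards [hsep, hclose] with m hm1 hm2
    exact h.near hχ (ρ := r / 8) hm1 (by linarith [h.rpos]) hm2.le
  obtain ⟨m, α, β, hβ, hm⟩ := hev.exists
  obtain ⟨m', ⟨α', β', hβ', hm'⟩, hmm⟩ := (hev.and (hyp_ge ((m : ℝ) + 1))).exists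
  have hlt : m < m' := by
    have : (m : ℝ) < m' := by linarith
    exact_mod_cast this
  have hα := h.alpha_ne (hP m) hχ hm
  have hαi := h.inv_le (hP m) hχ hm
  refine ⟨m, m', hlt, α' / α, (β' - β) / α, ?_, fun z => ?_⟩
  · rw [norm_div, div_eq_mul_inv]
    calc ‖β' - β‖ * ‖α‖⁻¹ ≤ (δ + δ) * (2 / c0) :=
          mul_le_mul ((norm_sub_le _ _).trans (add_le_add hβ' hβ)) hαi
            (inv_nonneg.2 (norm_nonneg _)) (by positivity)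
      _ = ρ := by
          rw [hδ]
          field_simp
          norm_num
  · rw [hm' z, hm]
    congr 1
    field_simp
    ring

/-! ### the constants -/

/-- the radius of the discs -/
noncomputable def rr (r c0 : ℝ) : ℝ := r / (4 * (1 + 2 / c0))

/-- the size of the neighbourhoods -/
noncomputable def ee (r c0 c1 : ℝ) : ℝ := min (c1 * (rr r c0 / (4 * (1 + 2 / c0))) / 4) 1

theorem CD.rr_pos (h : CD T c0 𝒞 r c1) : 0 < rr r c0 := by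
  have := h.cls.pos
  have := h.rpos
  unfold rr
  positivity

theorem CD.ee_pos (h : CD T c0 𝒞 r c1) : 0 < ee r c0 c1 := by
  have := h.cls.pos
  have := h.rr_pos
  have := h.cpos
  unfold ee
  positivity

theorem CD.rr_mul (h : CD T c0 𝒞 r c1) : (1 + 2 / c0) * rr r c0 = r / 4 := by
  have := h.cls.pos
  unfold rr
  field_simp

theorem CD.rr_le (h : CD T c0 𝒞 r c1) : rr r c0 ≤ r / 4 := by
  rw [← h.rr_mul]
  have h1 := h.cls.pos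
  have h2 := h.rr_pos
  have : 0 < 2 / c0 * rr r c0 := by positivity
  linarith

theorem CD.ee_le (h : CD T c0 𝒞 r c1) :
    4 * ee r c0 c1 ≤ c1 * (rr r c0 / (4 * (1 + 2 / c0))) := by
  have : ee r c0 c1 ≤ c1 * (rr r c0 / (4 * (1 + 2 / c0))) / 4 := min_le_left _ _
  linarith

/-- a finite system of representatives of the curves near a point -/
structure NB (𝒞 : (ℂ → Mat N) → Prop) (r c0 c1 : ℝ) (x0 : Mat N) (B : Finset (ℂ → Mat N)) :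
    Prop where
  mem : ∀ b ∈ B, 𝒞 b
  near : ∀ b ∈ B, ‖x0 - b 0‖ ≤ 2 * ee r c0 c1
  sepr : ∀ b ∈ B, ∀ b' ∈ B, b ≠ b' → ¬ SL r b b'
  cov : ∀ φ, 𝒞 φ → ‖x0 - φ 0‖ ≤ 2 * ee r c0 c1 → ∃ b ∈ B, SL (rr r c0 / 4) φ b

theorem two_near {x0 : Mat N} {ε : ℝ} (h1 : ‖x0 - φ 0‖ ≤ 2 * ε) (h2 : ‖x0 - ψ 0‖ ≤ 2 * ε) :
    ‖φ 0 - ψ 0‖ ≤ 4 * ε := by
  have := norm_sub_le (x0 - ψ 0) (x0 - φ 0)
  rw [sub_sub_sub_cancel_left] at this
  linarith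

/-- the relation improves near a point -/
theorem CD.near' (h : CD T c0 𝒞 r c1) (hψ : 𝒞 ψ) {x0 : Mat N}
    (h1 : ‖x0 - φ 0‖ ≤ 2 * ee r c0 c1) (h2 : ‖x0 - ψ 0‖ ≤ 2 * ee r c0 c1) (hs : SL ρ φ ψ)
    (hρ : ρ ≤ 2 * r) : SL (rr r c0 / (4 * (1 + 2 / c0))) φ ψ :=
  h.near hψ hs hρ ((two_near h1 h2).trans h.ee_le)

theorem CD.const1 (h : CD T c0 𝒞 r c1) :
    2 / c0 * (rr r c0 / (4 * (1 + 2 / c0))) + rr r c0 / (4 * (1 + 2 / c0)) = rr r c0 / 4 := by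
  have := h.cls.pos
  have : 0 < 1 + 2 / c0 := by positivity
  field_simp
  ring

/-- transitivity near a point -/
theorem CD.trans' (h : CD T c0 𝒞 r c1) (hψ : 𝒞 ψ) (hχ : 𝒞 χ) {x0 : Mat N}
    (h1 : ‖x0 - φ 0‖ ≤ 2 * ee r c0 c1) (h2 : ‖x0 - ψ 0‖ ≤ 2 * ee r c0 c1)
    (h3 : ‖x0 - χ 0‖ ≤ 2 * ee r c0 c1) (hs : SL ρ φ ψ) (hρ : ρ ≤ 2 * r) (hs' : SL ρ' ψ χ)
    (hρ' : ρ' ≤ 2 * r) : SL (rr r c0 / 4) φ χ := by
  have k1 := h.trans hψ hχ (h.near' hψ h1 h2 hs hρ) (h.near' hχ h2 h3 hs' hρ')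
  rwa [h.const1] at k1

/-- symmetry near a point -/
theorem CD.symm' (h : CD T c0 𝒞 r c1) (hφ : 𝒞 φ) (hψ : 𝒞 ψ) {x0 : Mat N}
    (h1 : ‖x0 - φ 0‖ ≤ 2 * ee r c0 c1) (h2 : ‖x0 - ψ 0‖ ≤ 2 * ee r c0 c1) (hs : SL ρ φ ψ)
    (hρ : ρ ≤ 2 * r) : SL (rr r c0 / 4) ψ φ := by
  refine (h.symm hφ hψ (h.near' hψ h1 h2 hs hρ)).mono ?_
  rw [← h.const1]
  have := h.cls.pos
  have := h.rr_pos
  have : 0 < rr r c0 / (4 * (1 + 2 / c0)) := by positivity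
  linarith

theorem CD.exists_nb (h : CD T c0 𝒞 r c1) (x0 : Mat N) : ∃ B, NB 𝒞 r c0 c1 x0 B := by
  classical
  have hrp := h.rpos
  have hrr := h.rr_pos
  have hrl := h.rr_le
  -- a covering set
  have hcov : ∃ S : Finset (ℂ → Mat N), (∀ b ∈ S, 𝒞 b ∧ ‖x0 - b 0‖ ≤ 2 * ee r c0 c1) ∧
      ∀ φ, 𝒞 φ → ‖x0 - φ 0‖ ≤ 2 * ee r c0 c1 → ∃ b ∈ S, SL r φ b := by
    by_contra hcon
    push Not at hcon
    obtain ⟨P, hP, hPP⟩ := exists_seq_of_forall_finset_exists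
      (P := fun φ : ℂ → Mat N => 𝒞 φ ∧ ‖x0 - φ 0‖ ≤ 2 * ee r c0 c1)
      (r := fun g f => ¬ SL r f g) fun S hS => by
        obtain ⟨f, hf, hf2, hf3⟩ := hcon S hS
        exact ⟨f, ⟨hf, hf2⟩, hf3⟩
    obtain ⟨m, n, hmn, hs⟩ := h.noseq (fun m => (hP m).1) hrp
    exact hPP m n hmn hs
  -- a minimal one
  have hex : ∃ k : ℕ, ∃ S : Finset (ℂ → Mat N), S.card = k ∧
      (∀ b ∈ S, 𝒞 b ∧ ‖x0 - b 0‖ ≤ 2 * ee r c0 c1) ∧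
      ∀ φ, 𝒞 φ → ‖x0 - φ 0‖ ≤ 2 * ee r c0 c1 → ∃ b ∈ S, SL r φ b := by
    obtain ⟨S, h1, h2⟩ := hcov
    exact ⟨_, S, rfl, h1, h2⟩
  obtain ⟨B, hBk, hB1, hB2⟩ := Nat.find_spec hex
  refine ⟨B, fun b hb => (hB1 b hb).1, fun b hb => (hB1 b hb).2, ?_, ?_⟩
  · intro b hb b' hb' hne hs
    have hlt : (B.erase b).card < Nat.find hex := by
      rw [← hBk]
      exact Finset.card_erase_lt_of_mem hb
    apply Nat.find_min hex hlt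
    refine ⟨B.erase b, rfl, fun x hx => hB1 x (Finset.mem_of_mem_erase hx), fun φ hφ hφx => ?_⟩
    obtain ⟨g, hg, hgs⟩ := hB2 φ hφ hφx
    by_cases hgb : g = b
    · refine ⟨b', Finset.mem_erase.2 ⟨hne.symm, hb'⟩, ?_⟩
      rw [hgb] at hgs
      exact (h.trans' (hB1 b hb).1 (hB1 b' hb').1 hφx (hB1 b hb).2 (hB1 b' hb').2 hgs
        (by linarith) hs (by linarith)).mono (by linarith)
    · exact ⟨g, Finset.mem_erase.2 ⟨hgb, hg⟩, hgs⟩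
  · intro φ hφ hφx
    obtain ⟨g, hg, hgs⟩ := hB2 φ hφ hφx
    refine ⟨g, hg, (h.near' (hB1 g hg).1 hφx (hB1 g hg).2 hgs (by linarith)).mono ?_⟩
    rw [← h.const1]
    have := h.cls.pos
    have : 0 < 2 / c0 * (rr r c0 / (4 * (1 + 2 / c0))) := by positivity
    linarith

end Pool.Agent.H918.SD
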