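import Pool.Agent.H918.A.Sk
import Pool.Graph.R_pool_sql_team_seeded_63374d34.N154.GG.Grad
import Pool.Graph.R_pool_sql_team_seeded_63374d34.N155.B.Fin

/-! Abstract symmetric differentials on compact sets of projection matrices, and the gradient
estimate. -/

set_option autoImplicit false

open Filter Topology Metric Set

namespace Pool.Agent.H918.SD

open Pool.Agent.Y190.OP Pool.Agent.N155
open Pool.Agent.N154.GG (holP_comp exists_limit_loc hp_cont aff_eq doubling fderiv_cont)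

variable {N m k : ℕ}

/-- the values of symmetric differentials of degree `k` along entire curves in `T` -/
structure SDat (T : Set (Mat N)) (k : ℕ) (S : (ℂ → Mat N) → ℂ → Fin m → ℂ) : Prop where
  comp : IsCompact T
  sub : T ⊆ PM
  kpos : 0 < k
  hol : ∀ P, HolP univ P → (∀ z, P z ∈ T) → Differentiable ℂ (S P)
  aff : ∀ P, HolP univ P → (∀ z, P z ∈ T) → ∀ z0 c t : ℂ,
    S (fun t => P (z0 + c * t)) t = c ^ k • S P (z0 + c * t)
  bd : ∃ C : ℝ, 0 ≤ C ∧ ∀ P, HolP univ P → (∀ z, P z ∈ T) → ∀ z, ‖S P z‖ ≤ C * ‖fderiv ℝ P z‖ ^ k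
  lim : ∀ (𝓤 : Ultrafilter ℕ) (P : ℕ → ℂ → Mat N) (H : ℂ → Mat N), (∀ n, HolP univ (P n)) →
    (∀ n z, P n z ∈ T) → HolP univ H → (∀ z, H z ∈ T) → CConv (𝓤 : Filter ℕ) univ P H →
    ∀ z, Tendsto (fun n => S (P n) z) 𝓤 (𝓝 (S H z))

/-- there are no tangent curves of bounded derivative -/
def NT (T : Set (Mat N)) (S : (ℂ → Mat N) → ℂ → Fin m → ℂ) : Prop :=
  ∀ P, HolP univ P → (∀ z, P z ∈ T) → (∀ z, ‖fderiv ℝ P z‖ ≤ 2) → (∀ z, S P z = 0) →
    ∀ z, P z = P 0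

variable {T : Set (Mat N)} {S : (ℂ → Mat N) → ℂ → Fin m → ℂ}

/-- the gradient estimate -/
def GEs (T : Set (Mat N)) (k : ℕ) (S : (ℂ → Mat N) → ℂ → Fin m → ℂ) (C : ℝ) : Prop :=
  ∀ P, HolP univ P → (∀ z, P z ∈ T) → ∀ z, ‖fderiv ℝ P z‖ ≤ C * sk k (S P) z

/-- **Gradient estimate** -/
theorem SDat.gradient (h : SDat T k S) (hf : NT T S) : ∃ C : ℝ, 0 < C ∧ GEs T k S C := by
  by_contra hcon
  push Not at hcon
  have hk := h.kpos
  have hcon' : ∀ n : ℕ, ∃ (P : ℂ → Mat N), HolP univ P ∧ (∀ z, P z ∈ T) ∧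
      ∃ z, ((n : ℝ) + 1) * sk k (S P) z < ‖fderiv ℝ P z‖ := by
    intro n
    have h1 := hcon ((n : ℝ) + 1) (by positivity)
    unfold GEs at h1
    push Not at h1
    exact h1
  choose P hP hPT z0 hz0 using hcon'
  have hφ : ∀ n, Differentiable ℂ (S (P n)) := fun n => h.hol _ (hP n) (hPT n)
  have hpos : ∀ n, 0 < ‖fderiv ℝ (P n) (z0 n)‖ := fun n =>
    (mul_nonneg (by positivity) (sk_nn k _ _)).trans_lt (hz0 n)
  have hdb : ∀ n : ℕ, ∃ z, ‖fderiv ℝ (P n) (z0 n)‖ ≤ ‖fderiv ℝ (P n) z‖ ∧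
      ‖z - z0 n‖ * ‖fderiv ℝ (P n) (z0 n)‖ ≤ ((n : ℝ) + 1) / 12 * 2 ∧
      ∀ w, ‖w - z‖ * ‖fderiv ℝ (P n) z‖ ≤ ((n : ℝ) + 1) / 12 →
        ‖fderiv ℝ (P n) w‖ ≤ 2 * ‖fderiv ℝ (P n) z‖ := by
    intro n
    have hc := (fderiv_cont (hP n)).norm
    obtain ⟨z, e1, e2, e3⟩ := doubling (f := fun z => ‖fderiv ℝ (P n) z‖)
      (s := fun z => ‖fderiv ℝ (P n) z‖) (fun _ => le_rfl) (by
        intro z
        refine ⟨closedBall z 1, closedBall_mem_nhds z one_pos, ?_⟩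
        exact (isCompact_closedBall z 1).bddAbove_image hc.continuousOn)
      (κ := 2) (A := ((n : ℝ) + 1) / 12) (by norm_num) (by positivity) (hpos n)
    refine ⟨z, e1, ?_, e3⟩
    norm_num at e2 ⊢
    exact e2
  choose z1 h1 h2 h3 using hdb
  set μ : ℕ → ℝ := fun n => ‖fderiv ℝ (P n) (z1 n)‖ with hμ
  have hμpos : ∀ n, 0 < μ n := fun n => (hpos n).trans_le (h1 n)
  set H : ℕ → ℂ → Mat N := fun n t => P n (z1 n + (((μ n)⁻¹ : ℝ) : ℂ) * t) with hH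
  have hHol : ∀ n, HolP univ (H n) := fun n => holP_comp (hP n) (by fun_prop)
  have hHT : ∀ n z, H n z ∈ T := fun n z => hPT n _
  have hnorm : ∀ n t, ‖fderiv ℝ (H n) t‖ =
      (μ n)⁻¹ * ‖fderiv ℝ (P n) (z1 n + (((μ n)⁻¹ : ℝ) : ℂ) * t)‖ := by
    intro n t
    have := norm_fderiv_aff (Ψ := P n) (a := z1 n) (ρ := (μ n)⁻¹) (z := t)
      (inv_nonneg.2 (hμpos n).le) ((hP n).differentiableAt (mem_univ _))
    rw [aff_eq] at this
    exact this
  have hdist : ∀ n t, ‖z1 n + (((μ n)⁻¹ : ℝ) : ℂ) * t - z1 n‖ * μ n = ‖t‖ := by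
    intro n t
    rw [add_sub_cancel_left, norm_mul, Complex.norm_real,
      Real.norm_of_nonneg (inv_nonneg.2 (hμpos n).le)]
    have := (hμpos n).ne'
    field_simp
  have hball : ∀ (n : ℕ) (t : ℂ), ‖t‖ ≤ ((n : ℝ) + 1) / 12 → ‖fderiv ℝ (H n) t‖ ≤ 2 ∧
      ‖S (H n) t‖ ≤ (4 / ((n : ℝ) + 1)) ^ k := by
    intro n t ht
    have hn : (0 : ℝ) < (n : ℝ) + 1 := by positivity
    have hd := hdist n t
    set ζ := z1 n + (((μ n)⁻¹ : ℝ) : ℂ) * t with hζ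
    constructor
    · rw [hnorm]
      have e1 := h3 n ζ (by
        change ‖ζ - z1 n‖ * μ n ≤ _
        rw [hd]
        exact ht)
      calc (μ n)⁻¹ * ‖fderiv ℝ (P n) ζ‖ ≤ (μ n)⁻¹ * (2 * μ n) :=
            mul_le_mul_of_nonneg_left e1 (inv_nonneg.2 (hμpos n).le)
        _ = 2 := by
            have := (hμpos n).ne'
            field_simp
    · have e0 : S (H n) t = (((μ n)⁻¹ : ℝ) : ℂ) ^ k • S (P n) ζ := h.aff _ (hP n) (hPT n) _ _ _
      rw [e0, norm_smul, norm_pow, Complex.norm_real,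
        Real.norm_of_nonneg (inv_nonneg.2 (hμpos n).le)]
      have hs0 := sk_nn k (S (P n)) (z0 n)
      have e1 : ‖ζ - z0 n‖ * ‖fderiv ℝ (P n) (z0 n)‖ ≤ ((n : ℝ) + 1) / 4 := by
        have e2 : ‖ζ - z0 n‖ ≤ ‖ζ - z1 n‖ + ‖z1 n - z0 n‖ := by
          have := norm_add_le (ζ - z1 n) (z1 n - z0 n)
          rwa [sub_add_sub_cancel] at this
        have e3 : ‖ζ - z1 n‖ * ‖fderiv ℝ (P n) (z0 n)‖ ≤ ((n : ℝ) + 1) / 12 := by
          refine (mul_le_mul_of_nonneg_left (h1 n) (norm_nonneg _)).trans ?_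
          change ‖ζ - z1 n‖ * μ n ≤ _
          rw [hd]
          exact ht
        calc ‖ζ - z0 n‖ * ‖fderiv ℝ (P n) (z0 n)‖ ≤
              (‖ζ - z1 n‖ + ‖z1 n - z0 n‖) * ‖fderiv ℝ (P n) (z0 n)‖ :=
              mul_le_mul_of_nonneg_right e2 (hpos n).le
          _ = ‖ζ - z1 n‖ * ‖fderiv ℝ (P n) (z0 n)‖ + ‖z1 n - z0 n‖ * ‖fderiv ℝ (P n) (z0 n)‖ := by
              ring
          _ ≤ ((n : ℝ) + 1) / 12 + ((n : ℝ) + 1) / 12 * 2 := add_le_add e3 (h2 n)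
          _ = ((n : ℝ) + 1) / 4 := by ring
      have e2 : 4 * ‖ζ - z0 n‖ * sk k (S (P n)) (z0 n) ≤ 1 := by
        have e3 : ‖ζ - z0 n‖ * (((n : ℝ) + 1) * sk k (S (P n)) (z0 n)) ≤ ((n : ℝ) + 1) / 4 :=
          (mul_le_mul_of_nonneg_left (hz0 n).le (norm_nonneg _)).trans e1
        have e4 : ((n : ℝ) + 1) * (4 * ‖ζ - z0 n‖ * sk k (S (P n)) (z0 n)) ≤
            ((n : ℝ) + 1) * 1 := by
          linarith
        exact le_of_mul_le_mul_left e4 hn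
      have e3 : ‖S (P n) ζ‖ ≤ (4 * sk k (S (P n)) (z0 n)) ^ k :=
        (val_le_sk hk (hφ n)).trans (pow_le_pow_left₀ (sk_nn _ _ _) (sk_harnack hk (hφ n) e2) k)
      have e4 : ((n : ℝ) + 1) * sk k (S (P n)) (z0 n) ≤ μ n := (hz0 n).le.trans (h1 n)
      calc ((μ n)⁻¹) ^ k * ‖S (P n) ζ‖ ≤ ((μ n)⁻¹) ^ k * (4 * sk k (S (P n)) (z0 n)) ^ k :=
            mul_le_mul_of_nonneg_left e3 (pow_nonneg (inv_nonneg.2 (hμpos n).le) _)
        _ = ((μ n)⁻¹ * (4 * sk k (S (P n)) (z0 n))) ^ k := by rw [mul_pow ((μ n)⁻¹)]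
        _ ≤ (4 / ((n : ℝ) + 1)) ^ k := by
            apply pow_le_pow_left₀ (mul_nonneg (inv_nonneg.2 (hμpos n).le) (by positivity))
            rw [inv_mul_le_iff₀ (hμpos n), mul_div_assoc', le_div_iff₀ hn]
            nlinarith
  set 𝓤 : Ultrafilter ℕ := hyperfilter ℕ with h𝓤
  have hge : ∀ L : ℝ, ∀ᶠ n : ℕ in (𝓤 : Filter ℕ), L ≤ ((n : ℝ) + 1) / 12 := by
    intro L
    filter_upwards [hyper_ge (12 * L)] with n hn
    linarith
  obtain ⟨G, hG, hGT, hGc, hGd⟩ := exists_limit_loc h.comp h.sub (𝓤 := 𝓤) hHol hHT (by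
      intro L
      refine ⟨2, ?_⟩
      filter_upwards [hge L] with n hn z hz
      exact (hball n z ((mem_ball_zero_iff.1 hz).le.trans hn)).1)
  have hzero : ∀ z, S G z = 0 := by
    intro z
    have e0 := h.lim 𝓤 H G hHol hHT hG hGT hGc z
    have e1 : Tendsto (fun n : ℕ => ‖S (H n) z‖) 𝓤 (𝓝 0) := by
      have e2 : Tendsto (fun n : ℕ => (4 / ((n : ℝ) + 1)) ^ k) 𝓤 (𝓝 0) := by
        have e3 : Tendsto (fun n : ℕ => 4 / ((n : ℝ) + 1)) atTop (𝓝 0) := by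
          have := (tendsto_one_div_add_atTop_nhds_zero_nat (𝕜 := ℝ)).const_mul 4
          rw [mul_zero] at this
          refine this.congr fun n => ?_
          rw [mul_one_div]
        have e4 := e3.pow k
        rw [zero_pow hk.ne'] at e4
        refine e4.mono_left ?_
        rw [← Nat.cofinite_eq_atTop]
        exact hyperfilter_le_cofinite
      refine squeeze_zero' (Eventually.of_forall fun _ => norm_nonneg _) ?_ e2
      filter_upwards [hge ‖z‖] with n hn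
      exact (hball n z hn).2
    exact norm_eq_zero.1 (tendsto_nhds_unique e0.norm e1)
  have hG2 : ∀ z, ‖fderiv ℝ G z‖ ≤ 2 := by
    intro z
    refine le_of_tendsto (hGd z).norm ?_
    filter_upwards [hge ‖z‖] with n hn
    exact (hball n z hn).1
  have hconst := hf G hG hGT hG2 hzero
  have e1 : fderiv ℝ G 0 = 0 := by
    have : G = fun _ => G 0 := funext hconst
    rw [this]
    simp
  have e2 := (hGd 0).norm
  rw [e1, norm_zero] at e2
  have e3 : ∀ n, ‖fderiv ℝ (H n) 0‖ = 1 := by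
    intro n
    rw [hnorm, mul_zero, add_zero]
    exact inv_mul_cancel₀ (hμpos n).ne'
  simp only [e3] at e2
  exact zero_ne_one (tendsto_nhds_unique e2 tendsto_const_nhds)

/-- the values along curves of bounded derivative are constant -/
theorem SDat.const_of_bounded (h : SDat T k S) {P : ℂ → Mat N} (hP : HolP univ P)
    (hPT : ∀ z, P z ∈ T) {B : ℝ} (hB : ∀ z, ‖fderiv ℝ P z‖ ≤ B) : ∀ z, S P z = S P 0 := by
  obtain ⟨C, hC, hb⟩ := h.bd
  intro z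
  apply (h.hol P hP hPT).apply_eq_apply_of_bounded
  rw [isBounded_iff_forall_norm_le]
  refine ⟨C * B ^ k, ?_⟩
  rintro _ ⟨w, rfl⟩
  exact (hb P hP hPT w).trans (mul_le_mul_of_nonneg_left
    (pow_le_pow_left₀ (norm_nonneg _) (hB w) k) hC)

/-- **Bounded distortion** of the curves of bounded derivative. -/
theorem SDat.distortion (h : SDat T k S) {C : ℝ} (hC0 : 0 < C) (hC : GEs T k S C) :
    ∃ K : ℝ, 0 < K ∧ ∀ (P : ℂ → Mat N), HolP univ P → (∀ z, P z ∈ T) →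
      ∀ c : Fin m → ℂ, (∀ z, S P z = c) → ∀ z w, ‖fderiv ℝ P z‖ ≤ K * ‖fderiv ℝ P w‖ := by
  have hk := h.kpos
  obtain ⟨C1, hC1, hb⟩ := h.bd
  refine ⟨C * (C1 + 1), by positivity, fun P hP hPT c hc z w => ?_⟩
  have hSP : S P = fun _ => c := funext hc
  have h1 := hC P hP hPT z
  rw [hSP] at h1
  have h2 := sk_const hk c z
  have h3 : ‖c‖ ≤ C1 * ‖fderiv ℝ P w‖ ^ k := by
    have := hb P hP hPT w
    rwa [hc] at this
  have h4 : sk k (fun _ : ℂ => c) z ≤ (C1 + 1) * ‖fderiv ℝ P w‖ := by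
    apply le_of_pow_le_pow_left₀ hk.ne' (by positivity)
    rw [mul_pow]
    refine h2.trans (h3.trans ?_)
    apply mul_le_mul_of_nonneg_right _ (by positivity)
    exact (by linarith : C1 ≤ C1 + 1).trans (le_self_pow₀ (by linarith) hk.ne')
  calc ‖fderiv ℝ P z‖ ≤ C * sk k (fun _ : ℂ => c) z := h1
    _ ≤ C * ((C1 + 1) * ‖fderiv ℝ P w‖) := mul_le_mul_of_nonneg_left h4 hC0.le
    _ = _ := by ring

end Pool.Agent.H918.SD
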