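import Pool.Agent.H918.A.Lf

/-! The product of the distances to the leaves. -/

set_option autoImplicit false

open Filter Topology Metric Set

namespace Pool.Agent.H918.SD

open Pool.Agent.Y190.OP Pool.Agent.N155

variable {N : ℕ} {T : Set (Mat N)} {c0 : ℝ} {𝒞 : (ℂ → Mat N) → Prop} {r c1 : ℝ}
variable {φ ψ χ : ℂ → Mat N} {ρ ρ' ε : ℝ}

/-- separated finite sets of curves -/
def Adm (r : ℝ) (𝒞 : (ℂ → Mat N) → Prop) (A : Finset (ℂ → Mat N)) : Prop :=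
  (∀ φ ∈ A, 𝒞 φ) ∧ ∀ φ ∈ A, ∀ ψ ∈ A, φ ≠ ψ → ¬ SL (r / 2) φ ψ

/-- the product of the distances -/
noncomputable def DD (r : ℝ) (𝒞 : (ℂ → Mat N) → Prop) (ε : ℝ) (x : Mat N) : ℝ :=
  sInf {p | ∃ A, Adm r 𝒞 A ∧ p = ∏ φ ∈ A, ‖x - φ 0‖ / ε}

theorem DD_set_nn (hε : 0 < ε) (x : Mat N) :
    ∀ p ∈ {p | ∃ A, Adm r 𝒞 A ∧ p = ∏ φ ∈ A, ‖x - φ 0‖ / ε}, 0 ≤ p := by
  rintro _ ⟨A, -, rfl⟩
  exact Finset.prod_nonneg fun _ _ => by positivity

theorem DD_nonneg (hε : 0 < ε) (x : Mat N) : 0 ≤ DD r 𝒞 ε x :=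
  Real.sInf_nonneg (DD_set_nn hε x)

theorem DD_le_adm (hε : 0 < ε) {A : Finset (ℂ → Mat N)} (hA : Adm r 𝒞 A) (x : Mat N) :
    DD r 𝒞 ε x ≤ ∏ φ ∈ A, ‖x - φ 0‖ / ε :=
  csInf_le ⟨0, DD_set_nn hε x⟩ ⟨A, hA, rfl⟩

theorem DD_le_one (hε : 0 < ε) (x : Mat N) : DD r 𝒞 ε x ≤ 1 := by
  have := DD_le_adm (r := r) (𝒞 := 𝒞) hε (A := ∅)
    ⟨fun φ h => absurd h (Finset.notMem_empty _), fun φ h => absurd h (Finset.notMem_empty _)⟩ x
  rwa [Finset.prod_empty] at this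

theorem DD_le (hε : 0 < ε) (hφ : 𝒞 φ) (x : Mat N) : DD r 𝒞 ε x ≤ ‖x - φ 0‖ / ε := by
  have := DD_le_adm (r := r) (𝒞 := 𝒞) hε (A := {φ})
    ⟨fun ψ h => by
      rw [Finset.mem_singleton] at h
      rw [h]
      exact hφ, fun ψ h χ h' hne => by
      rw [Finset.mem_singleton] at h h'
      exact absurd (h.trans h'.symm) hne⟩ x
  rwa [Finset.prod_singleton] at this

theorem le_DD {p : ℝ} {x : Mat N} (h : ∀ A, Adm r 𝒞 A → p ≤ ∏ φ ∈ A, ‖x - φ 0‖ / ε) :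
    p ≤ DD r 𝒞 ε x := by
  refine le_csInf ⟨_, ∅, ⟨fun φ h => absurd h (Finset.notMem_empty _), fun φ h =>
    absurd h (Finset.notMem_empty _)⟩, rfl⟩ ?_
  rintro _ ⟨A, hA, rfl⟩
  exact h A hA

/-- **The upper bound** -/
theorem CD.DD_upper (h : CD T c0 𝒞 r c1) {x0 : Mat N} {B : Finset (ℂ → Mat N)}
    (hB : NB 𝒞 r c0 c1 x0 B) (x : Mat N) :
    DD r 𝒞 (ee r c0 c1) x ≤ ∏ b ∈ B, dl b (rr r c0) x / ee r c0 c1 := by
  classical
  have hε := h.ee_pos
  have hρ := h.rr_pos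
  have hrp := h.rpos
  have hrm := h.rr_mul
  have hc0 := h.cls.pos
  have hex : ∀ b : ℂ → Mat N, ∃ β : ℂ, b ∈ B → ‖β‖ ≤ rr r c0 ∧
      dl b (rr r c0) x = ‖x - b β‖ := by
    intro b
    by_cases hb : b ∈ B
    · obtain ⟨β, h1, h2⟩ := dl_spec (h.cls.cont (hB.mem b hb)) hρ.le x
      exact ⟨β, fun _ => ⟨h1, h2⟩⟩
    · exact ⟨0, fun h => absurd h hb⟩
  choose β hβ using hex
  have key : ∀ b ∈ B, ∀ b' ∈ B, SL (r / 2) (fun w => b (β b + w)) (fun w => b' (β b' + w)) →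
      b = b' := by
    intro b hb b' hb' hs
    by_contra hne
    apply hB.sepr b hb b' hb' hne
    have hCb := hB.mem b hb
    have hCb' := hB.mem b' hb'
    have h1 := (h.trans (h.cls.shift b hCb (β b)) (h.cls.shift b' hCb' (β b'))
      (CD.shift_right b (hβ b hb).1) hs)
    obtain ⟨α, γ, hγ, hz⟩ := h1
    refine ⟨α, β b' + γ, ?_, fun z => ?_⟩
    · refine (norm_add_le _ _).trans ?_
      have h2 := (hβ b' hb').1
      have h3 : (1 + 2 / c0) * rr r c0 = rr r c0 + 2 / c0 * rr r c0 := by ring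
      rw [h3] at hrm
      linarith
    · rw [hz]
      change b' (β b' + (α * z + γ)) = b' (α * z + (β b' + γ))
      congr 1
      ring
  have hinj : ∀ b ∈ B, ∀ b' ∈ B, (fun w => b (β b + w)) = (fun w => b' (β b' + w)) → b = b' := by
    intro b hb b' hb' heq
    apply key b hb b' hb'
    rw [heq]
    exact SL.refl (by positivity) _
  have hadm : Adm r 𝒞 (B.image fun b w => b (β b + w)) := by
    constructor
    · intro φ hφ
      obtain ⟨b, hb, rfl⟩ := Finset.mem_image.1 hφ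
      exact h.cls.shift b (hB.mem b hb) _
    · intro φ hφ ψ hψ hne hs
      obtain ⟨b, hb, rfl⟩ := Finset.mem_image.1 hφ
      obtain ⟨b', hb', rfl⟩ := Finset.mem_image.1 hψ
      apply hne
      rw [key b hb b' hb' hs]
  refine (DD_le_adm hε hadm x).trans (le_of_eq ?_)
  rw [Finset.prod_image (fun b hb b' hb' => hinj b hb b' hb')]
  refine Finset.prod_congr rfl fun b hb => ?_
  rw [(hβ b hb).2]
  simp only [add_zero]

/-- **The lower bound** -/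
theorem CD.DD_lower (h : CD T c0 𝒞 r c1) {x0 : Mat N} {B : Finset (ℂ → Mat N)}
    (hB : NB 𝒞 r c0 c1 x0 B) {x : Mat N} (hx : ‖x - x0‖ ≤ ee r c0 c1) :
    ∏ b ∈ B, dl b (rr r c0) x / (3 * ee r c0 c1) ≤ DD r 𝒞 (ee r c0 c1) x := by
  classical
  have hε := h.ee_pos
  have hρ := h.rr_pos
  have hrp := h.rpos
  have hrl := h.rr_le
  have hc0 := h.cls.pos
  set ε := ee r c0 c1 with hεd
  apply le_DD
  intro A hA
  have hdle : ∀ b ∈ B, dl b (rr r c0) x ≤ 3 * ε := by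
    intro b hb
    have h1 : dl b (rr r c0) x ≤ ‖x - b 0‖ := dl_le (by rw [norm_zero]; exact hρ.le) x
    have h2 := norm_add_le (x - x0) (x0 - b 0)
    rw [sub_add_sub_cancel] at h2
    have h3 := hB.near b hb
    linarith
  -- the near curves
  set A' := A.filter fun φ => ‖x - φ 0‖ ≤ ε with hA'
  have hA'1 : ∏ φ ∈ A', ‖x - φ 0‖ / ε ≤ ∏ φ ∈ A, ‖x - φ 0‖ / ε := by
    rw [← Finset.prod_filter_mul_prod_filter_not A (fun φ => ‖x - φ 0‖ ≤ ε)]
    refine le_mul_of_one_le_right (Finset.prod_nonneg fun _ _ => by positivity) ?_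
    apply Finset.one_le_prod
    intro φ hφ
    rw [Finset.mem_filter] at hφ
    rw [one_le_div hε]
    exact (not_le.1 hφ.2).le
  refine le_trans ?_ hA'1
  have hnear : ∀ φ ∈ A', 𝒞 φ ∧ ‖x0 - φ 0‖ ≤ 2 * ε := by
    intro φ hφ
    rw [hA', Finset.mem_filter] at hφ
    refine ⟨hA.1 φ hφ.1, ?_⟩
    have h2 := norm_sub_le (x - φ 0) (x - x0)
    rw [sub_sub_sub_cancel_left] at h2
    linarith [hφ.2]
  have hex : ∀ φ : ℂ → Mat N, ∃ b : ℂ → Mat N, φ ∈ A' → b ∈ B ∧ SL (rr r c0 / 4) φ b := by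
    intro φ
    by_cases hφ : φ ∈ A'
    · obtain ⟨b, h1, h2⟩ := hB.cov φ (hnear φ hφ).1 (hnear φ hφ).2
      exact ⟨b, fun _ => ⟨h1, h2⟩⟩
    · exact ⟨φ, fun h => absurd h hφ⟩
  choose g hg using hex
  have hginj : ∀ φ ∈ A', ∀ ψ ∈ A', g φ = g ψ → φ = ψ := by
    intro φ hφ ψ hψ heq
    by_contra hne
    have hφA := (Finset.mem_filter.1 hφ).1
    have hψA := (Finset.mem_filter.1 hψ).1
    apply hA.2 φ hφA ψ hψA hne
    obtain ⟨k1, k2⟩ := hnear φ hφ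
    obtain ⟨k3, k4⟩ := hnear ψ hψ
    have hb := (hg φ hφ).1
    have s1 : SL (rr r c0 / 4) (g φ) ψ := by
      rw [heq]
      exact h.symm' k3 (hB.mem _ (hg ψ hψ).1) k4 (hB.near _ (hg ψ hψ).1) (hg ψ hψ).2
        (by linarith)
    exact (h.trans' (hB.mem _ hb) k3 k2 (hB.near _ hb) k4 (hg φ hφ).2 (by linarith) s1
      (by linarith)).mono (by linarith)
  calc ∏ b ∈ B, dl b (rr r c0) x / (3 * ε) ≤ ∏ b ∈ A'.image g, dl b (rr r c0) x / (3 * ε) := by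
        have hsub : A'.image g ⊆ B := by
          intro b hb
          obtain ⟨φ, hφ, rfl⟩ := Finset.mem_image.1 hb
          exact (hg φ hφ).1
        refine Finset.prod_le_prod_of_subset_of_le_one hsub (fun b _ => by
          have := dl_nonneg b (rr r c0) x
          positivity) fun b hb _ => ?_
        rw [div_le_one (by positivity)]
        exact hdle b hb
    _ = ∏ φ ∈ A', dl (g φ) (rr r c0) x / (3 * ε) := by
        rw [Finset.prod_image (fun φ hφ ψ hψ => hginj φ hφ ψ hψ)]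
    _ ≤ ∏ φ ∈ A', ‖x - φ 0‖ / ε := by
        refine Finset.prod_le_prod (fun φ hφ => by
          have := dl_nonneg (g φ) (rr r c0) x
          positivity) fun φ hφ => ?_
        obtain ⟨α, β, hβ, hz⟩ := (hg φ hφ).2
        have h1 : dl (g φ) (rr r c0) x ≤ ‖x - φ 0‖ := by
          have h2 := hz 0
          rw [mul_zero, zero_add] at h2
          rw [h2]
          exact dl_le (by linarith) x
        refine div_le_div₀ (norm_nonneg _) h1 hε (by linarith)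

end Pool.Agent.H918.SD
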