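import Pool.Agent.H918.A.Dst

/-! The product of the distances to the leaves is comparable to holomorphic functions; the branches
of a curve. -/

set_option autoImplicit false

open Filter Topology Metric Set

namespace Pool.Agent.H918.SD

open Pool.Agent.Y190.OP Pool.Agent.N155
open Pool.Agent.N155.BB (lip_chart an_chart deriv_chart_ne)

variable {N : ℕ} {T : Set (Mat N)} {c0 : ℝ} {𝒞 : (ℂ → Mat N) → Prop} {r c1 : ℝ}
variable {φ ψ χ : ℂ → Mat N} {ρ ρ' ε : ℝ}

theorem prod_div_const {ι : Type*} (B : Finset ι) (f : ι → ℝ) (c : ℝ) :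
    ∏ b ∈ B, f b / c = (c ^ B.card)⁻¹ * ∏ b ∈ B, f b := by
  rw [Finset.prod_div_distrib, Finset.prod_const]
  ring

/-- **The product is comparable to holomorphic functions.** -/
theorem CD.pdl_DD (h : CD T c0 𝒞 r c1) (x0 : Mat N) : PDl (DD r 𝒞 (ee r c0 c1)) x0 := by
  obtain ⟨B, hB⟩ := h.exists_nb x0
  have hε := h.ee_pos
  have hρ := h.rr_pos
  have hrl := h.rr_le
  have hrp := h.rpos
  have hc1 := h.cpos
  have hc0 := h.cls.pos
  have h1 : PDl (fun x => ∏ b ∈ B, dl b (rr r c0) x) x0 := by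
    apply PDl.prod
    intro b hb
    apply h.pdl_leaf (hB.mem b hb) hρ (by linarith)
    intro β hβ hx
    have h2 := h.inj b (hB.mem b hb) 0 β (by linarith)
    rw [zero_add, ← hx] at h2
    have h3 := (h2.trans (hB.near b hb))
    have h4 := h.ee_le
    have h5 : c1 * ‖β‖ ≤ c1 * (rr r c0 / (4 * (1 + 2 / c0)) / 2) := by linarith
    have h6 := le_of_mul_le_mul_left h5 hc1
    refine h6.trans_lt ?_
    have h7 : 0 < 2 / c0 := by positivity
    rw [div_div, div_lt_iff₀ (by positivity)]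
    nlinarith
  refine h1.congr (O' := ball x0 (ee r c0 c1)) (c' := ((3 * ee r c0 c1) ^ B.card)⁻¹)
    (C' := ((ee r c0 c1) ^ B.card)⁻¹) isOpen_ball (mem_ball_self hε) (by positivity)
    (by positivity) fun M hM _ => ?_
  rw [mem_ball, dist_eq_norm] at hM
  have k1 := h.DD_lower hB hM.le
  have k2 := h.DD_upper hB M
  rw [prod_div_const] at k1 k2
  exact ⟨k1, k2⟩

/-- **The zeros of the product** -/
theorem CD.DD_pos (h : CD T c0 𝒞 r c1) {x : Mat N} (hx : ∀ φ, 𝒞 φ → x ≠ φ 0) :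
    0 < DD r 𝒞 (ee r c0 c1) x := by
  obtain ⟨B, hB⟩ := h.exists_nb x
  have hε := h.ee_pos
  have hρ := h.rr_pos
  refine lt_of_lt_of_le ?_ (h.DD_lower hB (by rw [sub_self, norm_zero]; exact hε.le))
  apply Finset.prod_pos
  intro b hb
  apply div_pos _ (by positivity)
  rcases (dl_nonneg b (rr r c0) x).eq_or_lt with h0 | h0
  · exfalso
    obtain ⟨β, hβ, h1⟩ := dl_spec (h.cls.cont (hB.mem b hb)) hρ.le x
    rw [← h0] at h1
    apply hx (fun w => b (β + w)) (h.cls.shift b (hB.mem b hb) β)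
    rw [add_zero]
    exact sub_eq_zero.1 (norm_eq_zero.1 h1.symm)
  · exact h0

/-- **Germs of curves** -/
theorem CD.germ (h : CD T c0 𝒞 r c1) (hψ : 𝒞 ψ) (hχ : 𝒞 χ) (h0 : ψ 0 = χ 0) :
    ∃ ρ1 : ℝ, 0 < ρ1 ∧ ρ1 ≤ r / 2 ∧
      ((∃ᶠ s in 𝓝[≠] (0 : ℂ), ∃ β : ℂ, ‖β‖ < ρ1 ∧ ψ s = χ β) → ∃ α : ℂ, ∀ z, ψ z = χ (α * z)) := by
  have hrp := h.rpos
  have hc1 := h.cpos
  have hcont := h.cls.cont hχ
  have hcontψ := h.cls.cont hψ
  have hPM : ∀ w, χ w ∈ PM := fun w => h.cls.sub (h.cls.mem _ hχ w)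
  have hPMψ : ∀ w, ψ w ∈ PM := fun w => h.cls.sub (h.cls.mem _ hψ w)
  have hhol := h.cls.hol _ hχ
  have hholψ := h.cls.hol _ hψ
  obtain ⟨i, hi⟩ := PM.exists_diag (hPM 0)
  have hiψ : ψ 0 i i ≠ 0 := by rwa [h0]
  have hdne := deriv_chart_ne hhol i hi (h.cls.im hχ 0)
  obtain ⟨a, ha⟩ := Function.ne_iff.1 hdne
  have hdiff0 : ∀ w, χ w i i ≠ 0 → ∀ p, HasDerivAt (fun w => chart i (χ w) p)
      (deriv (fun w => chart i (χ w)) w p) w := fun w hw p =>
    (hasDerivAt_pi.1 (hhol.diff_chart (mem_univ w) hw).hasDerivAt) p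
  have hpiv : deriv (fun w => chart i (χ w) a) 0 ≠ 0 := by
    rw [(hdiff0 0 hi a).deriv]
    exact ha
  set al : ℝ := ‖deriv (fun w => chart i (χ w) a) 0‖ with hal
  have halpos : 0 < al := norm_pos_iff.2 hpiv
  have hUo : IsOpen {w | χ w i i ≠ 0} :=
    isOpen_ne_fun ((continuous_apply_apply i i).comp hcont) continuous_const
  obtain ⟨ρ0, hρ0, hsub0⟩ := Metric.isOpen_iff.1 hUo 0 hi
  obtain ⟨ρ1, σ, hρ1, hρρ, hσ, hinv⟩ := loc_inv (l := (hyperfilter ℕ : Filter ℕ))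
    (A := fun _ w => chart i (χ w) a) (A0 := fun w => chart i (χ w) a)
    (U := {w | χ w i i ≠ 0}) (cconv_const fun z hz => (hdiff0 z hz a).continuousAt)
    (z0 := 0) hUo hi ⟨{w | χ w i i ≠ 0}, hUo.mem_nhds hi, Eventually.of_forall fun _ z hz =>
      (hdiff0 z hz a).differentiableAt.differentiableWithinAt⟩ hpiv
    (show 0 < min (r / 2) ρ0 by positivity)
  obtain ⟨-, -, hlow, I, hId, hI⟩ := hinv.exists
  set A0 : ℂ := chart i (χ 0) a with hA0
  have hinjI : ∀ β ∈ ball (0 : ℂ) ρ1, chart i (χ β) a ∈ ball A0 σ → I (chart i (χ β) a) = β := by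
    intro β hβ hm
    obtain ⟨k1, k2⟩ := hI _ hm
    have k3 := hlow _ k1 β hβ
    rw [k2, sub_self, norm_zero] at k3
    have k4 : ‖I (chart i (χ β) a) - β‖ ≤ 0 := by
      by_contra hcon
      push Not at hcon
      have : 0 < al / 2 * ‖I (chart i (χ β) a) - β‖ := by positivity
      exact absurd k3 (not_le.2 this)
    exact sub_eq_zero.1 (norm_eq_zero.1 (le_antisymm k4 (norm_nonneg _)))
  have hIA : I A0 = 0 := hinjI 0 (mem_ball_self hρ1) (mem_ball_self hσ)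
  refine ⟨ρ1, hρ1, hρρ.trans (min_le_left _ _), fun hfr => ?_⟩
  -- the tracking
  set τ : ℂ → ℂ := fun s => I (chart i (ψ s) a) with hτ
  have hcψ : ContinuousAt (fun s => chart i (ψ s) a) 0 :=
    ((hasDerivAt_pi.1 (hholψ.diff_chart (mem_univ 0) hiψ).hasDerivAt) a).continuousAt
  have hev1 : ∀ᶠ s in 𝓝 (0 : ℂ), chart i (ψ s) a ∈ ball A0 σ := by
    apply hcψ.eventually
    simp only [h0]
    exact ball_mem_nhds _ hσ
  have hev2 : ∀ᶠ s in 𝓝 (0 : ℂ), ψ s i i ≠ 0 :=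
    (((continuous_apply_apply i i).comp hcontψ).continuousAt).eventually_ne hiψ
  have hτmem : ∀ s, chart i (ψ s) a ∈ ball A0 σ → τ s ∈ ball (0 : ℂ) ρ1 ∧
      chart i (χ (τ s)) a = chart i (ψ s) a := fun s hs => hI _ hs
  have hχτ : ∀ s, chart i (ψ s) a ∈ ball A0 σ → χ (τ s) i i ≠ 0 := fun s hs =>
    hsub0 (ball_subset_ball (hρρ.trans (min_le_right _ _)) (hτmem s hs).1)
  have hτd : ∀ s, chart i (ψ s) a ∈ ball A0 σ → ψ s i i ≠ 0 → DifferentiableAt ℂ τ s := by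
    intro s h1 h2
    have d1 : DifferentiableAt ℂ (fun z => chart i (ψ z) a) s :=
      differentiableAt_pi.1 (hholψ.diff_chart (mem_univ s) h2) a
    have d2 : DifferentiableAt ℂ I (chart i (ψ s) a) := hId.differentiableAt (isOpen_ball.mem_nhds h1)
    exact DifferentiableAt.comp (g := I) (f := fun z => chart i (ψ z) a) s d2 d1
  have hkan : ∀ p, AnalyticAt ℂ (fun s => chart i (ψ s) p - chart i (χ (τ s)) p) 0 := by
    intro p
    rw [Complex.analyticAt_iff_eventually_differentiableAt]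
    filter_upwards [hev1, hev2] with s h1 h2
    have d1 : DifferentiableAt ℂ (fun z => chart i (ψ z) p) s :=
      differentiableAt_pi.1 (hholψ.diff_chart (mem_univ s) h2) p
    have d4 : DifferentiableAt ℂ (fun w => chart i (χ w) p) (τ s) :=
      differentiableAt_pi.1 (hhol.diff_chart (mem_univ _) (hχτ s h1)) p
    exact d1.sub (DifferentiableAt.comp (g := fun w => chart i (χ w) p) (f := τ) s d4
      (hτd s h1 h2))
  have hzero : ∀ p, ∀ᶠ s in 𝓝 (0 : ℂ), chart i (ψ s) p - chart i (χ (τ s)) p = 0 := by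
    intro p
    apply (hkan p).frequently_zero_iff_eventually_zero.1
    have h1 : ∀ᶠ s in 𝓝[≠] (0 : ℂ), chart i (ψ s) a ∈ ball A0 σ :=
      hev1.filter_mono nhdsWithin_le_nhds
    refine (hfr.and_eventually h1).mono ?_
    rintro s ⟨⟨β, hβ, hs⟩, h2⟩
    have h3 : τ s = β := by
      simp only [hτ]
      rw [hs] at h2 ⊢
      exact hinjI β (mem_ball_zero_iff.2 hβ) h2
    rw [h3, hs, sub_self]
  have heq : ∀ᶠ s in 𝓝 (0 : ℂ), ψ s = χ (τ s) := by
    filter_upwards [eventually_all.2 hzero, hev1, hev2] with s h1 h2 h3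
    rw [← PM.Phi_chart (hPMψ s) h3, ← PM.Phi_chart (hPM (τ s)) (hχτ s h2)]
    congr 1
    funext p
    exact sub_eq_zero.1 (h1 p)
  obtain ⟨R, hR, hRs⟩ := Metric.eventually_nhds_iff_ball.1 (heq.and hev1)
  obtain ⟨η, hη, htra⟩ := h.tra
  obtain ⟨α, β, hαβ, hτa⟩ := htra ψ χ hψ hχ (R / 2) τ (by positivity) (by
    have hsub : ∀ z ∈ closedBall (0 : ℂ) (R / 2), z ∈ ball (0 : ℂ) R := fun z hz =>
      closedBall_subset_ball (by linarith) hz
    constructor
    · intro z hz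
      rw [(hRs z (hsub z hz)).1, sub_self, norm_zero]
    · intro z hz z' hz' _
      have k1 := (hτmem z (hRs z (hsub z hz)).2).1
      have k2 := (hτmem z' (hRs z' (hsub z' hz')).2).1
      rw [mem_ball_zero_iff] at k1 k2
      have k3 := norm_sub_le (τ z) (τ z')
      have k4 : ρ1 ≤ r / 2 := hρρ.trans (min_le_left _ _)
      linarith)
  have hτ0 : τ 0 = 0 := by
    simp only [hτ]
    rw [h0]
    exact hIA
  have hβ : β = 0 := by
    have := hτa 0 (mem_ball_self (by positivity))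
    rw [hτ0, mul_zero, zero_add] at this
    exact this.symm
  refine ⟨α, fun z => ?_⟩
  rw [hαβ, hβ, add_zero]

/-- the point `t` of the curve `H` is bad if another curve passes through it -/
def Bad (r : ℝ) (𝒞 : (ℂ → Mat N) → Prop) (H : ℂ → Mat N) (t : ℂ) : Prop :=
  ∃ φ, 𝒞 φ ∧ φ 0 = H t ∧ ¬ SL r φ (fun w => H (t + w))

/-- **The bad points are isolated.** -/
theorem CD.bad_disc (h : CD T c0 𝒞 r c1) {H : ℂ → Mat N} (hH : 𝒞 H) (t0 : ℂ) :
    ∀ᶠ t in 𝓝[≠] t0, ¬ Bad r 𝒞 H t := by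
  by_contra hcon
  have hfr : ∃ᶠ t in 𝓝[≠] t0, Bad r 𝒞 H t := by
    intro h1
    exact hcon h1
  obtain ⟨t, ht, htB⟩ := exists_seq_forall_of_frequently hfr
  choose φ hφ hφ0 hφS using htB
  have hrp := h.rpos
  have hc1 := h.cpos
  set 𝓤 : Ultrafilter ℕ := hyperfilter ℕ with h𝓤
  have h𝓤a : (𝓤 : Filter ℕ) ≤ atTop := by
    rw [← Nat.cofinite_eq_atTop]
    exact hyperfilter_le_cofinite
  obtain ⟨χ, hχ, hlim⟩ := h.cls.lim 𝓤 φ hφ
  have hsep := h.sep _ _ hφ (fun _ => hχ) _ hlim (cconv_const fun z _ =>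
    (h.cls.cont hχ).continuousAt)
  have ht' : Tendsto t (𝓤 : Filter ℕ) (𝓝 t0) :=
    (tendsto_nhds_of_tendsto_nhdsWithin ht).mono_left h𝓤a
  have htne : ∀ᶠ n in (𝓤 : Filter ℕ), t n ≠ t0 := h𝓤a (ht.eventually self_mem_nhdsWithin)
  have hχ0 : χ 0 = H t0 := by
    refine tendsto_nhds_unique (hlim.pointwise (mem_univ 0)) ?_
    refine Tendsto.congr (f₁ := fun n => H (t n)) (fun n => (hφ0 n).symm) ?_
    exact ((h.cls.cont hH).tendsto t0).comp ht'
  set ψ : ℂ → Mat N := fun w => H (t0 + w) with hψd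
  have hψ : 𝒞 ψ := h.cls.shift H hH t0
  obtain ⟨ρ1, hρ1, hρr, hgerm⟩ := h.germ hψ hχ (by rw [hψd, hχ0]; simp only [add_zero])
  have hclose : ∀ δ : ℝ, 0 < δ → ∀ᶠ m in (𝓤 : Filter ℕ), ∃ α β : ℂ, ‖β‖ ≤ δ ∧
      ∀ z, φ m z = χ (α * z + β) := by
    intro δ hδ
    have h1 := ((hlim.pointwise (mem_univ 0)).sub_const (χ 0)).norm
    rw [sub_self, norm_zero] at h1
    filter_upwards [hsep, h1.eventually_lt_const (mul_pos hc1 hδ)] with m hm1 hm2
    exact h.near hχ (ρ := r / 8) hm1 (by linarith) hm2.le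
  have hs0 : Tendsto (fun n => t n - t0) (𝓤 : Filter ℕ) (𝓝[≠] 0) := by
    apply tendsto_nhdsWithin_of_tendsto_nhds_of_eventually_within
    · have := ht'.sub_const t0
      rwa [sub_self] at this
    · filter_upwards [htne] with n hn
      exact sub_ne_zero.2 hn
  have hψs : ∀ n, ψ (t n - t0) = φ n 0 := by
    intro n
    rw [hψd, hφ0]
    simp only [add_sub_cancel]
  obtain ⟨α, hα⟩ := hgerm (by
    apply hs0.frequently
    apply Eventually.frequently
    filter_upwards [hclose (ρ1 / 2) (by positivity)] with m hm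
    obtain ⟨a, β, hβ, hz⟩ := hm
    refine ⟨β, by linarith, ?_⟩
    rw [hψs, hz, mul_zero, zero_add])
  have hα0 : α ≠ 0 := h.alpha_ne hψ hχ (β := 0) (fun z => by rw [hα, add_zero])
  have hsm : ∀ᶠ n in (𝓤 : Filter ℕ), ‖α * (t n - t0)‖ < r := by
    have h1 : Tendsto (fun n => ‖α * (t n - t0)‖) (𝓤 : Filter ℕ) (𝓝 0) := by
      have h2 := ((tendsto_nhds_of_tendsto_nhdsWithin hs0).const_mul α).norm
      rwa [mul_zero, norm_zero] at h2
    exact h1.eventually_lt_const hrp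
  obtain ⟨n, ⟨a, β, hβ, hz⟩, hn⟩ := ((hclose r hrp).and hsm).exists
  apply hφS n
  refine ⟨a / α, 0, by rw [norm_zero]; exact hrp.le, fun z => ?_⟩
  have h1 : χ β = χ (α * (t n - t0)) := by
    rw [← hα, hψs, hz, mul_zero, zero_add]
  have h2 : β = α * (t n - t0) := by
    have h3 := h.inj χ hχ (α * (t n - t0)) (β - α * (t n - t0)) (by
      have := norm_sub_le β (α * (t n - t0))
      linarith)
    rw [add_sub_cancel, h1, sub_self, norm_zero] at h3
    have h4 : ‖β - α * (t n - t0)‖ ≤ 0 := by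
      by_contra hcon
      push Not at hcon
      have : 0 < c1 * ‖β - α * (t n - t0)‖ := by positivity
      linarith
    exact sub_eq_zero.1 (norm_eq_zero.1 (le_antisymm h4 (norm_nonneg _)))
  have h3 := hα (a / α * z + (t n - t0))
  rw [hz, h2]
  have e1 : a * z + α * (t n - t0) = α * (a / α * z + (t n - t0)) := by
    field_simp
  rw [e1, ← h3, hψd]
  simp only
  congr 1
  ring

end Pool.Agent.H918.SD
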