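import Pool.Agent.H918.A.Sym

/-! Finitely many symmetric differentials suffice. -/

set_option autoImplicit false

open Filter Topology Metric Set MvPolynomial LinearAlgebra.Projectivization

namespace Pool.Agent.H918.SD

open Pool.Agent.Y190.OP Pool.Agent.W602.GT Pool.Agent.N155 Pool.Agent.N155.BB
open Pool.Agent.N154.GG (holP_comp hp_cont aff_eq fderiv_cont)

variable {n : ℕ} {ι : Type} {F : ι → MvPolynomial (Fin (n + 1)) ℂ} {d : ℕ}

/-- the values depend only on the jets -/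
theorem deriv_chart_jet {P : ℂ → Mat (n + 1)} (hP : HolP univ P) {i : Fin (n + 1)} {t : ℂ}
    (hi : P t i i ≠ 0) : deriv (fun s => chart i (P s)) t =
      fderiv ℝ (chart i) (P t) (fderiv ℝ P t 1) := by
  have h1 : HasFDerivAt (fun s => chart i (P s))
      ((fderiv ℂ (fun s => chart i (P s)) t).restrictScalars ℝ) t :=
    (hP.diff_chart (mem_univ t) hi).hasFDerivAt.restrictScalars ℝ
  have h2 : HasFDerivAt (fun s => chart i (P s)) ((fderiv ℝ (chart i) (P t)).comp (fderiv ℝ P t)) t :=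
    (((N155.BB.contDiffAt_chart hi).differentiableAt (by norm_num)).hasFDerivAt).comp t
      (hP.differentiableAt (mem_univ t)).hasFDerivAt
  have h3 := congrArg (fun L : ℂ →L[ℝ] (Fin (n + 1) → ℂ) => L 1) (h1.unique h2)
  simp only [ContinuousLinearMap.coe_restrictScalars', ContinuousLinearMap.comp_apply] at h3
  rw [← h3]
  rfl

theorem sv_jet {σ : (Fin (n + 1) → ℂ) → (Fin (n + 1) → ℂ) → ℂ} {P Q : ℂ → Mat (n + 1)}
    (hP : HolP univ P) (hQ : HolP univ Q) {i : Fin (n + 1)} {t : ℂ} (hi : P t i i ≠ 0)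
    (h1 : P t = Q t) (h2 : fderiv ℝ P t = fderiv ℝ Q t) : sv σ P i t = sv σ Q i t := by
  unfold sv
  rw [deriv_chart_jet hP hi, deriv_chart_jet hQ (by rwa [← h1]), h1, h2]

/-- the normalised curves -/
structure NC (T : Set (Mat (n + 1))) (P : ℂ → Mat (n + 1)) : Prop where
  hol : HolP univ P
  mem : ∀ z, P z ∈ T
  bd : ∀ z, ‖fderiv ℝ P z‖ ≤ 2
  one : 1 ≤ ‖fderiv ℝ P 0‖

theorem exists_NC {T : Set (Mat (n + 1))} {P : ℂ → Mat (n + 1)} (hP : HolP univ P)
    (hPT : ∀ z, P z ∈ T) (hb : ∀ z, ‖fderiv ℝ P z‖ ≤ 2) (hne : ¬ ∀ z, P z = P 0) :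
    ∃ (a : ℂ) (ρ : ℝ), 0 < ρ ∧ NC T (fun t => P (a + (ρ : ℂ) * t)) := by
  obtain ⟨z, hz⟩ : ∃ z, fderiv ℝ P z ≠ 0 := by
    by_contra hcon
    push Not at hcon
    exact hne fun z => is_const_of_fderiv_eq_zero (𝕜 := ℝ)
      (fun x => hP.differentiableAt (mem_univ x)) hcon z 0
  set s : ℝ := sSup (range fun z => ‖fderiv ℝ P z‖) with hs
  have hbdd : BddAbove (range fun z => ‖fderiv ℝ P z‖) := ⟨2, by
    rintro _ ⟨w, rfl⟩
    exact hb w⟩
  have hs0 : 0 < s := (norm_pos_iff.2 hz).trans_le (le_csSup hbdd ⟨z, rfl⟩)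
  obtain ⟨_, ⟨a, rfl⟩, ha⟩ := exists_lt_of_lt_csSup (⟨_, ⟨z, rfl⟩⟩ :
    (range fun z => ‖fderiv ℝ P z‖).Nonempty) (show s / 2 < sSup (range fun z => ‖fderiv ℝ P z‖) by
      rw [← hs]
      linarith)
  have hρ : 0 < 2 / s := by positivity
  have hnorm : ∀ t, ‖fderiv ℝ (fun t => P (a + ((2 / s : ℝ) : ℂ) * t)) t‖ =
      2 / s * ‖fderiv ℝ P (a + ((2 / s : ℝ) : ℂ) * t)‖ := by
    intro t
    have := norm_fderiv_aff (Ψ := P) (a := a) (ρ := 2 / s) (z := t) hρ.le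
      (hP.differentiableAt (mem_univ _))
    rw [aff_eq] at this
    exact this
  refine ⟨a, 2 / s, hρ, holP_comp hP (by fun_prop), fun z => hPT _, fun t => ?_, ?_⟩
  · rw [hnorm, div_mul_eq_mul_div, div_le_iff₀ hs0]
    exact mul_le_mul_of_nonneg_left (le_csSup hbdd ⟨_, rfl⟩) (by norm_num)
  · rw [hnorm, mul_zero, add_zero, div_mul_eq_mul_div, le_div_iff₀ hs0]
    simp only at ha
    linarith

/-- the jets of the normalised curves with vanishing values -/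
def Zj (T : Set (Mat (n + 1))) (σ : (Fin (n + 1) → ℂ) → (Fin (n + 1) → ℂ) → ℂ) :
    Set (Mat (n + 1) × (ℂ →L[ℝ] Mat (n + 1))) :=
  {j | ∃ P, NC T P ∧ (∀ z, sv σ P (idx (P z)) z = 0) ∧ j = (P 0, fderiv ℝ P 0)}

/-- all jets -/
def Aj (T : Set (Mat (n + 1))) : Set (Mat (n + 1) × (ℂ →L[ℝ] Mat (n + 1))) :=
  {j | ∃ P, NC T P ∧ j = (P 0, fderiv ℝ P 0)}

theorem lim_NC {T : Set (Mat (n + 1))} (hT : IsCompact T) (hTP : T ⊆ PM)
    {P : ℕ → ℂ → Mat (n + 1)} (hP : ∀ m, NC T (P m)) : ∃ H, NC T H ∧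
      CConv (hyperfilter ℕ : Filter ℕ) univ P H ∧
      Tendsto (fun m => fderiv ℝ (P m) 0) (hyperfilter ℕ : Filter ℕ) (𝓝 (fderiv ℝ H 0)) := by
  obtain ⟨H, h1, h2, h3, h4⟩ := exists_limit hT hTP (𝓤 := hyperfilter ℕ) (K := 2)
    (fun m => (hP m).hol) (fun m => (hP m).mem) (fun m => (hP m).bd)
  exact ⟨H, ⟨h1, h2, fun z => le_of_tendsto (h4 z).norm (Eventually.of_forall fun m => (hP m).bd z),
    ge_of_tendsto (h4 0).norm (Eventually.of_forall fun m => (hP m).one)⟩, h3, h4 0⟩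

theorem isCompact_Aj {T : Set (Mat (n + 1))} (hT : IsCompact T) (hTP : T ⊆ PM) :
    IsCompact (Aj T) := by
  rw [isCompact_iff_isClosed_bounded]
  constructor
  · apply isClosed_of_closure_subset
    intro j hj
    obtain ⟨x, hx, hxj⟩ := mem_closure_iff_seq_limit.1 hj
    choose P hP hPx using hx
    obtain ⟨H, hH, hc, hd⟩ := lim_NC hT hTP hP
    refine ⟨H, hH, ?_⟩
    have h1 : Tendsto x (hyperfilter ℕ : Filter ℕ) (𝓝 j) := hxj.mono_left (by
      rw [← Nat.cofinite_eq_atTop]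
      exact hyperfilter_le_cofinite)
    have h2 : Tendsto x (hyperfilter ℕ : Filter ℕ) (𝓝 (H 0, fderiv ℝ H 0)) := by
      have := (hc.pointwise (mem_univ 0)).prodMk_nhds hd
      refine this.congr fun m => (hPx m).symm
    exact tendsto_nhds_unique h1 h2
  · obtain ⟨R, hR⟩ := (isBounded_iff_forall_norm_le.1 hT.isBounded)
    rw [isBounded_iff_forall_norm_le]
    refine ⟨max R 2, ?_⟩
    rintro _ ⟨P, hP, rfl⟩
    rw [Prod.norm_def]
    exact max_le_max (hR _ (hP.mem 0)) (hP.bd 0)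

theorem isClosed_Zj (hX : ProjManifold F d) {T : Set (Mat (n + 1))} (hT : IsClosed T)
    (hTF : T ⊆ TF F) {k : ℕ} {σ : (Fin (n + 1) → ℂ) → (Fin (n + 1) → ℂ) → ℂ}
    (hσ : SymDiff (Cone F) d k σ) : IsClosed (Zj T σ) := by
  have hTc := (isCompact_TF hX.form).of_isClosed_subset hT hTF
  apply isClosed_of_closure_subset
  intro j hj
  obtain ⟨x, hx, hxj⟩ := mem_closure_iff_seq_limit.1 hj
  choose P hP hP0 hPx using hx
  obtain ⟨H, hH, hc, hd⟩ := lim_NC hTc (hTF.trans TF_PM) hP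
  refine ⟨H, hH, fun z => ?_, ?_⟩
  · have h1 := sv_lim hX hσ (fun m => (hP m).hol) (fun m z => hTF ((hP m).mem z)) hH.hol
      (fun z => hTF (hH.mem z)) hc z
    simp only [hP0] at h1
    exact (tendsto_nhds_unique tendsto_const_nhds h1).symm
  · have h1 : Tendsto x (hyperfilter ℕ : Filter ℕ) (𝓝 j) := hxj.mono_left (by
      rw [← Nat.cofinite_eq_atTop]
      exact hyperfilter_le_cofinite)
    have h2 : Tendsto x (hyperfilter ℕ : Filter ℕ) (𝓝 (H 0, fderiv ℝ H 0)) := by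
      have := (hc.pointwise (mem_univ 0)).prodMk_nhds hd
      refine this.congr fun m => (hPx m).symm
    exact tendsto_nhds_unique h1 h2

/-- a family of symmetric differentials of positive degrees -/
structure SFam (F : ι → MvPolynomial (Fin (n + 1)) ℂ) (d : ℕ) {I : Type} (k : I → ℕ)
    (σ : I → (Fin (n + 1) → ℂ) → (Fin (n + 1) → ℂ) → ℂ) : Prop where
  pos : ∀ i, 0 < k i
  sym : ∀ i, SymDiff (Cone F) d (k i) (σ i)

/-- **Finitely many symmetric differentials, of the same degree, suffice.** -/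
theorem SFam.reduce (hX : ProjManifold F d) {I : Type} {k : I → ℕ}
    {σ : I → (Fin (n + 1) → ℂ) → (Fin (n + 1) → ℂ) → ℂ} (h : SFam F d k σ)
    {T : Set (Mat (n + 1))} (hT : IsClosed T) (hTF : T ⊆ TF F)
    (hNT : ∀ P, HolP univ P → (∀ z, P z ∈ T) → (∀ z, ‖fderiv ℝ P z‖ ≤ 2) →
      (∀ i z, sv (σ i) P (idx (P z)) z = 0) → ∀ z, P z = P 0) :
    ∃ (K m : ℕ) (τ : Fin m → (Fin (n + 1) → ℂ) → (Fin (n + 1) → ℂ) → ℂ), 0 < K ∧
      (∀ j, SymDiff (Cone F) d K (τ j)) ∧ NT T (SV τ) := by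
  classical
  have hTc := (isCompact_TF hX.form).of_isClosed_subset hT hTF
  obtain ⟨A, hA⟩ := (isCompact_Aj hTc (hTF.trans TF_PM)).elim_finite_subfamily_closed
    (fun i => Zj T (σ i)) (fun i => isClosed_Zj hX hT hTF (h.sym i)) (by
      rw [eq_empty_iff_forall_notMem]
      rintro j ⟨⟨P, hP, hj⟩, hj2⟩
      rw [mem_iInter] at hj2
      have h1 : ∀ i z, sv (σ i) P (idx (P z)) z = 0 := by
        intro i
        obtain ⟨Q, hQ, hQ0, hjQ⟩ := hj2 i
        rw [hj, Prod.mk.injEq] at hjQ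
        have hi := idx_ne (TF_PM (hTF (hP.mem 0)))
        have e1 : sv (σ i) P (idx (P 0)) 0 = 0 := by
          rw [sv_jet hP.hol hQ.hol hi hjQ.1 hjQ.2, hjQ.1]
          exact hQ0 0
        obtain ⟨C, -, hC⟩ := sv_const hX (h.sym i) (h.pos i)
        obtain ⟨c, hc, -⟩ := hC P hP.hol (fun z => hTF (hP.mem z)) 2 hP.bd
        intro z
        rw [hc z _ (idx_ne (TF_PM (hTF (hP.mem z)))), ← hc 0 _ hi, e1]
      have h2 := hNT P hP.hol hP.mem hP.bd h1
      have h3 : fderiv ℝ P 0 = 0 := by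
        have : P = fun _ => P 0 := funext h2
        rw [this]
        simp
      have h4 := hP.one
      rw [h3, norm_zero] at h4
      linarith)
  -- the common degree
  set K : ℕ := ∏ i ∈ A, k i with hK
  have hK0 : 0 < K := Finset.prod_pos fun i _ => h.pos i
  have hdvd : ∀ i ∈ A, k i * (K / k i) = K := fun i hi =>
    Nat.mul_div_cancel' (Finset.dvd_prod_of_mem k hi)
  set e := A.equivFin.symm with he
  refine ⟨K, A.card, fun j x v => σ (e j) x v ^ (K / k (e j)), hK0, fun j => ?_,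
    fun P hP hPT hb hS => ?_⟩
  · have := symDiff_pow (h.sym (e j)) (K / k (e j))
    rwa [hdvd _ (e j).2] at this
  · by_contra hne
    obtain ⟨a, ρ, hρ, hQ⟩ := exists_NC hP hPT hb hne
    have h1 : ((P (a + (ρ : ℂ) * 0), fderiv ℝ (fun t => P (a + (ρ : ℂ) * t)) 0) :
        Mat (n + 1) × (ℂ →L[ℝ] Mat (n + 1))) ∈ Aj T ∩ ⋂ i ∈ A, Zj T (σ i) := by
      refine ⟨⟨_, hQ, rfl⟩, ?_⟩
      rw [mem_iInter₂]
      intro i hi
      refine ⟨_, hQ, fun z => ?_, rfl⟩
      have hi0 := idx_ne (TF_PM (hTF (hPT (a + (ρ : ℂ) * z))))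
      rw [sv_aff hX (h.sym i) (fun z => hTF (hPT z))]
      have h2 := congrFun (hS (a + (ρ : ℂ) * z)) (A.equivFin ⟨i, hi⟩)
      unfold SV at h2
      simp only [he, Equiv.symm_apply_apply, Pi.zero_apply] at h2
      have h3 : sv (σ i) P (idx (P (a + (ρ : ℂ) * z))) (a + (ρ : ℂ) * z) ^ (K / k i) = 0 := h2
      have h4 : K / k i ≠ 0 := by
        intro h0
        have := hdvd i hi
        rw [h0, mul_zero] at this
        omega
      rw [pow_eq_zero_iff h4] at h3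
      rw [h3, mul_zero]
    rw [hA] at h1
    exact h1

end Pool.Agent.H918.SD
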