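import Pool.Agent.H918.A.Lm
import Pool.Agent.H918.A.Dom
import Pool.Graph.R_pool_sql_team_seeded_63374d34.N155.B.Fin

/-! There are no rescaled sequences. -/

set_option autoImplicit false

open Filter Topology Metric Set

namespace Pool.Agent.H918.SD

open Pool.Agent.Y190.OP Pool.Agent.N155
open Pool.Agent.N155.BB (GW RG BCw)
open Pool.Agent.N154.TT (cv cv_nonneg)
open Pool.Agent.N154.GG (UU uu_ge qk qk_ge CConv.unif)

variable {N : ℕ} {T : Set (Mat N)} {k m' : ℕ} {S : (ℂ → Mat N) → ℂ → Fin m' → ℂ}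
  {D : Mat N → ℝ} {C s0 : ℝ} {h : ℕ → ℂ → Mat N} {c0 r c1 : ℝ}

theorem CD.df {𝒞 : (ℂ → Mat N) → Prop} (hcd : CD T c0 𝒞 r c1) : DF T (DD r 𝒞 (ee r c0 c1)) where
  pd := fun M _ => hcd.pdl_DD M
  nn := fun M => DD_nonneg hcd.ee_pos M
  le := fun M => DD_le_one hcd.ee_pos M

/-- the limit is in the class -/
theorem limit_mem (hS : SDat T k S) (hC0 : 0 < C) (hC : GEs T k S C) (h0 : 0 < s0)
    (hC2 : C * s0 ≤ 2) {C1 : ℝ} (hC1 : 0 ≤ C1)
    (hb : ∀ P, HolP univ P → (∀ z, P z ∈ T) → ∀ z, ‖S P z‖ ≤ C1 * ‖fderiv ℝ P z‖ ^ k)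
    (hc0 : C1 * c0 ^ k < s0 ^ k / 2) {H : ℂ → Mat N} (hH : HolP univ H) (hHT : ∀ z, H z ∈ T)
    {v : Fin m' → ℂ} (hv : ∀ z, S H z = v) (hv1 : s0 ^ k / 2 ≤ ‖v‖) (hv2 : ‖v‖ ≤ s0 ^ k) :
    BCw T c0 H where
  hol := hH
  mem := hHT
  bd := by
    intro z
    have hk := hS.kpos
    have e1 := hC H hH hHT z
    have e2 : S H = fun _ => v := funext hv
    rw [e2] at e1
    have e3 : sk k (fun _ : ℂ => v) z ≤ s0 :=
      le_of_pow_le_pow_left₀ hk.ne' h0.le ((sk_const hk v z).trans hv2)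
    exact (e1.trans (mul_le_mul_of_nonneg_left e3 hC0.le)).trans hC2
  low := by
    intro z
    by_contra hcon
    push Not at hcon
    have e1 := hb H hH hHT z
    rw [hv] at e1
    have e2 := mul_le_mul_of_nonneg_left (pow_le_pow_left₀ (norm_nonneg _) hcon.le k) hC1
    linarith

/-- **There are no rescaled sequences.** -/
theorem SQs.false {Z : Set (Mat N)} {κ : Type}
    {ω : κ → (Fin N → ℂ) → (Fin N → ℂ) → (Fin N → ℂ) → ℂ} (hG : GW T Z ω)
    (hZ : ∀ φ, BCw T c0 φ → ∃ z, φ z ∉ Z) (hcd : CD T c0 (BCw T c0) r c1)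
    (hS : SDat T k S) (hs : SQs T k S (DD r (BCw T c0) (ee r c0 c1)) s0 h) (hC0 : 0 < C)
    (hC : GEs T k S C) (h0 : 0 < s0) (h1 : s0 ≤ 1) (hC2 : C * s0 ≤ 2) {C1 : ℝ} (hC1 : 0 ≤ C1)
    (hb : ∀ P, HolP univ P → (∀ z, P z ∈ T) → ∀ z, ‖S P z‖ ≤ C1 * ‖fderiv ℝ P z‖ ^ k)
    (hc0 : C1 * c0 ^ k < s0 ^ k / 2) : False := by
  classical
  have hk := hS.kpos
  have hdf := hcd.df
  have hε := hcd.ee_pos
  have hrp := hcd.rpos
  have hc1 := hcd.cpos
  have hdif : ∀ n, Differentiable ℂ (S (h n)) := fun n => hS.hol _ (hs.hol n) (hs.mem n)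
  obtain ⟨H, v, j, hH, hHT, hHc, hHv, hv1, hv2, hcj⟩ := hs.cst hS hdf hC0 hC h0 h1
  have hHC : BCw T c0 H := limit_mem hS hC0 hC h0 hC2 hC1 hb hc0 hH hHT hHv hv1 hv2
  obtain ⟨p, q, hind, hp, hq⟩ := BB.two_periods hG hZ hcd.cls hHC
  obtain ⟨δ, C', hδ, hC', huni⟩ := hcd.unif hHC hind hp hq
  have hHcont := hcd.cls.cont hHC
  set D := DD r (BCw T c0) (ee r c0 c1) with hDdef
  have hnk : ∀ᶠ n : ℕ in (UU : Filter ℕ), k ≤ n + 1 := by
    filter_upwards [uu_ge (k : ℝ)] with n hn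
    have : k ≤ n := by exact_mod_cast hn
    omega
  have hx0 : ∀ n, 0 < s0 ^ (qk n) * D (h n 0) := fun n => mul_pos (pow_pos h0 _) (hs.d0 n)
  set G : ℕ → ℂ → ℂ := fun n t => Wg (S (h n)) 0 j (qk n / k) t /
    ((s0 ^ (qk n) * D (h n 0) : ℝ) : ℂ) with hGd
  have hGdiff : ∀ n, Differentiable ℂ (G n) := fun n => (diff_Wg (hdif n) 0 j _).div_const _
  have hGn : ∀ n t, ‖G n t‖ = cj (S (h n)) 0 j t ^ (qk n / k) / (s0 ^ (qk n) * D (h n 0)) := by
    intro n t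
    rw [hGd]
    simp only
    rw [norm_div, norm_Wg, Complex.norm_real, Real.norm_of_nonneg (hx0 n).le]
  have hbd : ∀ L : ℝ, ∀ᶠ n in (UU : Filter ℕ), ∀ z ∈ closedBall (0 : ℂ) L,
      D (h n z) * ‖G n z‖ ≤ 2 := by
    intro L
    filter_upwards [hnk, uu_ge L] with n hn hnL z hz
    have e1 := hs.bW hS hdf h0 (m := 0) j (p := qk n / k) (by rw [zero_add]; exact qk_dvd' hk hn)
      ((mem_closedBall_zero_iff.1 hz).trans hnL)
    rw [hGn, mul_div_assoc', div_le_iff₀ (hx0 n)]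
    exact e1
  have hN0 : ∀ᶠ n in (UU : Filter ℕ), 1 / 2 ≤ D (h n 0) * ‖G n 0‖ := by
    filter_upwards [hcj, hnk] with n e1 e2
    have e3 := e1 _ (qk_dvd' hk e2)
    have e4 := hs.d0 n
    have e5 : 0 < s0 ^ qk n := pow_pos h0 _
    rw [hGn, mul_div_assoc', le_div_iff₀ (hx0 n)]
    nlinarith
  -- the shifts
  have hex : ∀ (n : ℕ) (t : ℂ), ∃ w : ℂ, (∃ w : ℂ, ‖w‖ ≤ r ∧
      ‖h n t - H (t + w)‖ ≤ ‖h n t - H t‖ ∧ ‖h n t - H (t + w)‖ * ‖G n t‖ ≤ C' * 2) →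
      ‖w‖ ≤ r ∧ ‖h n t - H (t + w)‖ ≤ ‖h n t - H t‖ ∧
        ‖h n t - H (t + w)‖ * ‖G n t‖ ≤ C' * 2 := by
    intro n t
    by_cases hw : ∃ w : ℂ, ‖w‖ ≤ r ∧
      ‖h n t - H (t + w)‖ ≤ ‖h n t - H t‖ ∧ ‖h n t - H (t + w)‖ * ‖G n t‖ ≤ C' * 2
    · obtain ⟨w, hw⟩ := hw
      exact ⟨w, fun _ => hw⟩
    · exact ⟨0, fun h => absurd h hw⟩
  choose s hsp using hex
  have hmain : ∀ L : ℝ, ∀ᶠ n in (UU : Filter ℕ), ∀ t ∈ closedBall (0 : ℂ) L, ‖s n t‖ ≤ r ∧
      ‖h n t - H (t + s n t)‖ ≤ ‖h n t - H t‖ ∧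
        ‖h n t - H (t + s n t)‖ * ‖G n t‖ ≤ C' * 2 := by
    intro L
    filter_upwards [hbd (L + 2), CConv.unif hHc (isCompact_closedBall (0 : ℂ) (L + 2)) hδ]
      with n e1 e2 t ht
    have hsub : ∀ z ∈ closedBall t 2, z ∈ closedBall (0 : ℂ) (L + 2) := by
      intro z hz
      rw [mem_closedBall, dist_eq_norm] at hz
      rw [mem_closedBall_zero_iff] at ht ⊢
      have := norm_add_le (z - t) t
      rw [sub_add_cancel] at this
      linarith
    exact hsp n t (huni (h n) (hs.hol n) (hs.mem n) (G n) 2 (hGdiff n) t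
      (fun z hz => e2 z (hsub z hz)) (fun z hz => e1 z (hsub z hz)))
  have hls : CConv (UU : Filter ℕ) univ s (fun _ => 0) := by
    intro z _
    rw [tendsto_zero_iff_norm_tendsto_zero]
    have e1 : Tendsto (fun x : ℕ × ℂ => 2 / c1 * ‖h x.1 x.2 - H x.2‖) ((UU : Filter ℕ) ×ˢ 𝓝 z)
        (𝓝 0) := by
      have e2 := (((hHc z (mem_univ z)).sub ((hHcont.tendsto z).comp tendsto_snd)).norm).const_mul
        (2 / c1)
      rw [sub_self, norm_zero, mul_zero] at e2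
      exact e2
    refine squeeze_zero' (Eventually.of_forall fun _ => norm_nonneg _) ?_ e1
    have e3 : ∀ᶠ w in 𝓝 z, w ∈ closedBall (0 : ℂ) (‖z‖ + 1) := by
      filter_upwards [ball_mem_nhds z one_pos] with w hw
      rw [mem_ball, dist_eq_norm] at hw
      rw [mem_closedBall_zero_iff]
      have := norm_add_le (w - z) z
      rw [sub_add_cancel] at this
      linarith
    filter_upwards [(hmain (‖z‖ + 1)).prod_mk e3] with x hx
    obtain ⟨k1, k2, -⟩ := hx.1 x.2 hx.2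
    have k3 := hcd.inj H hHC x.2 (s x.1 x.2) (by linarith)
    have k4 := norm_sub_le (h x.1 x.2 - H x.2) (h x.1 x.2 - H (x.2 + s x.1 x.2))
    rw [sub_sub_sub_cancel_left] at k4
    rw [div_mul_eq_mul_div, le_div_iff₀ hc1]
    linarith
  have hlQ : CConv (UU : Filter ℕ) univ (fun _ => H) H :=
    cconv_const fun z _ => hHcont.continuousAt
  have hRG : RG T UU H h (fun _ => H) s G 2 (C' * 2) :=
    { hP := hs.hol
      mP := hs.mem
      hQ := fun _ => hH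
      mQ := fun _ => hHT
      hχ := hH
      mχ := hHT
      im := hcd.cls.im hHC
      bχ := hHC.bd
      bQ := fun _ => hHC.bd
      lP := hHc
      lQ := hlQ
      ls := hls
      wd := hGdiff
      bd := by
        intro L
        filter_upwards [hmain L] with n hn z hz
        have := (hn z hz).2.2
        rwa [norm_sub_rev] at this }
  obtain ⟨t, ht, hfin⟩ := hRG.final hS.comp hS.sub hG (hZ H hHC)
  have hfin2 : Tendsto (fun n => ‖H (t n) - h n 0‖ * ‖G n 0‖ / ee r c0 c1) UU (𝓝 0) := by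
    have := hfin.div_const (ee r c0 c1)
    rwa [zero_div] at this
  obtain ⟨n, e1, e2⟩ := ((hfin2.eventually_lt_const (u := 1 / 2) (by norm_num)).and hN0).exists
  have e3 := DD_le (r := r) hε (hcd.cls.shift H hHC (t n)) (h n 0)
  simp only [add_zero] at e3
  have e4 : D (h n 0) * ‖G n 0‖ ≤ ‖H (t n) - h n 0‖ * ‖G n 0‖ / ee r c0 c1 := by
    rw [norm_sub_rev, mul_div_right_comm]
    exact mul_le_mul_of_nonneg_right e3 (norm_nonneg _)
  linarith

/-- **Rescaling** -/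
theorem exists_SQs (hS : SDat T k S) (hD : DF T D) (hC : GEs T k S C) (h0 : 0 < s0) (h1 : s0 ≤ 1)
    {f : ℂ → Mat N} (hf : HolP univ f) (hfT : ∀ z, f z ∈ T) (hnc : ∃ z, f z ≠ f 0)
    (hne : ∃ z, 0 < D (f z)) : ∃ h', SQs T k S D s0 h' := by
  have hk := hS.kpos
  have hdif := hS.hol f hf hfT
  have hqpos := qk_ne
  have hq0 : ∀ n, 0 < ((qk n : ℕ) : ℝ)⁻¹ := fun n => by
    have := Nat.pos_of_ne_zero (hqpos n)
    positivity
  have hskpos : ∀ z, 0 < sk k (S f) z := by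
    intro z
    rcases (sk_nn k (S f) z).eq_or_lt with e0 | e0
    · exfalso
      have e1 := zero_of_sk_zero hk hdif e0.symm
      have e2 : S f = fun _ => 0 := funext e1
      have e3 : ∀ w, fderiv ℝ f w = 0 := by
        intro w
        have e4 := hC f hf hfT w
        have e5 := sk_const hk (0 : Fin m' → ℂ) w
        rw [norm_zero] at e5
        have e6 : sk k (S f) w = 0 := by
          rw [e2]
          exact pow_eq_zero_iff hk.ne' |>.1 (le_antisymm e5 (pow_nonneg (sk_nn _ _ _) _))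
        rw [e6, mul_zero] at e4
        exact norm_le_zero_iff.1 e4
      obtain ⟨w, hw⟩ := hnc
      apply hw
      exact is_const_of_fderiv_eq_zero (𝕜 := ℝ) (fun x => hf.differentiableAt (mem_univ x)) e3 w 0
    · exact e0
  obtain ⟨z0, hz0⟩ := hne
  set F : ℕ → ℂ → ℝ := fun n z => sk k (S f) z * (D (f z)) ^ (((qk n : ℕ) : ℝ)⁻¹) with hF
  have hFpow : ∀ n z, F n z ^ qk n = sk k (S f) z ^ qk n * D (f z) := by
    intro n z
    rw [hF]
    simp only
    rw [mul_pow, Real.rpow_inv_natCast_pow (hD.nn _) (hqpos n)]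
  have hF0 : ∀ n z, 0 ≤ F n z := fun n z =>
    mul_nonneg (hskpos z).le (Real.rpow_nonneg (hD.nn _) _)
  have hFs : ∀ n z, F n z ≤ sk k (S f) z := fun n z =>
    mul_le_of_le_one_right (hskpos z).le (Real.rpow_le_one (hD.nn _) (hD.le _) (hq0 n).le)
  have hdb : ∀ n : ℕ, ∃ z, F n z0 ≤ F n z ∧ ∀ w, ‖w - z‖ * sk k (S f) z ≤ n →
      F n w ≤ 2 ^ (((qk n : ℕ) : ℝ)⁻¹) * F n z := by
    intro n
    obtain ⟨z, e1, -, e3⟩ := Pool.Agent.N154.GG.doubling (f := F n) (s := sk k (S f)) (hFs n) (by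
        intro z
        refine ⟨{w | sk k (S f) w ≤ 4 * sk k (S f) z}, sk_locbdd hk hdif z,
          4 * sk k (S f) z, ?_⟩
        rintro _ ⟨w, hw, rfl⟩
        exact (hFs n w).trans hw)
      (κ := 2 ^ (((qk n : ℕ) : ℝ)⁻¹)) (A := n) (Real.one_lt_rpow (by norm_num) (hq0 n))
      (Nat.cast_nonneg n) (z0 := z0)
      (mul_pos (hskpos z0) (Real.rpow_pos_of_pos hz0 _))
    exact ⟨z, e1, e3⟩
  choose z1 e1 e3 using hdb
  have hF1 : ∀ n, 0 < F n (z1 n) := fun n =>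
    lt_of_lt_of_le (mul_pos (hskpos z0) (Real.rpow_pos_of_pos hz0 _)) (e1 n)
  have hDz1 : ∀ n, 0 < D (f (z1 n)) := by
    intro n
    rcases (hD.nn (f (z1 n))).eq_or_lt with e0 | e0
    · exfalso
      have e2 := pow_pos (hF1 n) (qk n)
      rw [hFpow, ← e0, mul_zero] at e2
      exact lt_irrefl _ e2
    · exact e0
  set c : ℕ → ℝ := fun n => s0 * (sk k (S f) (z1 n))⁻¹ with hc
  have hc0 : ∀ n, 0 < c n := fun n => mul_pos h0 (inv_pos.2 (hskpos _))
  have hcn : ∀ n, ‖((c n : ℝ) : ℂ)‖ = c n := fun n => by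
    rw [Complex.norm_real, Real.norm_of_nonneg (hc0 n).le]
  have hcs : ∀ n, c n * sk k (S f) (z1 n) = s0 := fun n => by
    rw [hc]
    simp only
    rw [mul_assoc, inv_mul_cancel₀ (hskpos _).ne', mul_one]
  set h' : ℕ → ℂ → Mat N := fun n t => f (z1 n + (c n : ℂ) * t) with hh'
  have hsk : ∀ n t, sk k (S (h' n)) t = c n * sk k (S f) (z1 n + (c n : ℂ) * t) := by
    intro n t
    have e2 : S (h' n) = fun t => (c n : ℂ) ^ k • S f (z1 n + (c n : ℂ) * t) :=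
      funext fun t => hS.aff f hf hfT _ _ _
    rw [e2, sk_comp hk, hcn]
  refine ⟨h', ⟨fun n => Pool.Agent.N154.GG.holP_comp hf (by fun_prop), fun n z => hfT _,
    fun n => ?_, fun n => ?_, fun n t ht => ?_⟩⟩
  · rw [hsk, mul_zero, add_zero, hcs]
  · rw [hh']
    simp only [mul_zero, add_zero]
    exact hDz1 n
  · rw [hsk]
    have e4 : D (h' n 0) = D (f (z1 n)) := by
      rw [hh']
      simp only [mul_zero, add_zero]
    rw [e4]
    change (c n * sk k (S f) (z1 n + (c n : ℂ) * t) / s0) ^ qk n *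
      D (f (z1 n + (c n : ℂ) * t)) ≤ _
    set w := z1 n + (c n : ℂ) * t with hw
    have e5 := e3 n w (by
      rw [hw, add_sub_cancel_left, norm_mul, hcn]
      calc c n * ‖t‖ * sk k (S f) (z1 n) = ‖t‖ * (c n * sk k (S f) (z1 n)) := by ring
        _ = ‖t‖ * s0 := by rw [hcs]
        _ ≤ ‖t‖ * 1 := mul_le_mul_of_nonneg_left h1 (norm_nonneg _)
        _ ≤ n := by rw [mul_one]; exact ht)
    have e6 := pow_le_pow_left₀ (hF0 n w) e5 (qk n)
    rw [hFpow n w, mul_pow, Real.rpow_inv_natCast_pow (by norm_num) (hqpos n),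
      hFpow n (z1 n)] at e6
    calc (c n * sk k (S f) w / s0) ^ qk n * D (f w) =
          (c n / s0) ^ qk n * (sk k (S f) w ^ qk n * D (f w)) := by
          rw [mul_div_right_comm, mul_pow]
          ring
      _ ≤ (c n / s0) ^ qk n * (2 * (sk k (S f) (z1 n) ^ qk n * D (f (z1 n)))) :=
          mul_le_mul_of_nonneg_left e6 (pow_nonneg (div_nonneg (hc0 n).le h0.le) _)
      _ = 2 * ((c n / s0 * sk k (S f) (z1 n)) ^ qk n * D (f (z1 n))) := by
          rw [mul_pow]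
          ring
      _ = 2 * D (f (z1 n)) := by
          rw [div_mul_eq_mul_div, hcs, div_self h0.ne', one_pow, one_mul]

/-- **The main theorem for compact sets of projection matrices** -/
theorem all_curves {Z : Set (Mat N)} {κ : Type}
    {ω : κ → (Fin N → ℂ) → (Fin N → ℂ) → (Fin N → ℂ) → ℂ} (hG : GW T Z ω)
    (hZ : ∀ c0, 0 < c0 → ∀ φ, BCw T c0 φ → ∃ z, φ z ∉ Z) (hS : SDat T k S) (hNT : NT T S) :
    ∃ c0 : ℝ, 0 < c0 ∧ ∀ f : ℂ → Mat N, HolP univ f → (∀ z, f z ∈ T) → (∃ z, f z ≠ f 0) →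
      ∀ z, ∃ φ, BCw T c0 φ ∧ f z = φ 0 := by
  have hk := hS.kpos
  obtain ⟨C, hC0, hC⟩ := hS.gradient hNT
  obtain ⟨C1, hC1, hb⟩ := hS.bd
  set s0 : ℝ := min 1 (2 / C) with hs0
  have h0 : 0 < s0 := by positivity
  have h1 : s0 ≤ 1 := min_le_left _ _
  have hC2 : C * s0 ≤ 2 := by
    have : s0 ≤ 2 / C := min_le_right _ _
    rw [le_div_iff₀ hC0] at this
    linarith
  set c0 : ℝ := s0 / (2 * (C1 + 1)) with hc0
  have hc00 : 0 < c0 := by positivity
  have hcc : C1 * c0 ^ k < s0 ^ k / 2 := by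
    have e1 : c0 ^ k ≤ s0 ^ k / (2 * (C1 + 1)) := by
      rw [hc0, div_pow]
      apply div_le_div_of_nonneg_left (by positivity) (by positivity)
      exact le_self_pow₀ (by linarith) hk.ne'
    have e2 : C1 * c0 ^ k ≤ C1 * (s0 ^ k / (2 * (C1 + 1))) := mul_le_mul_of_nonneg_left e1 hC1
    refine e2.trans_lt ?_
    rw [← mul_div_assoc, div_lt_div_iff₀ (by positivity) (by norm_num)]
    have e3 : 0 < s0 ^ k := pow_pos h0 k
    nlinarith
  refine ⟨c0, hc00, fun f hf hfT hnc => ?_⟩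
  have hcls := BCw.cls hS.comp hS.sub hc00
  obtain ⟨r, c1, hcd⟩ := CD.of hG (hZ c0 hc00) hcls
  by_contra hcon
  push Not at hcon
  obtain ⟨z, hz⟩ := hcon
  have hpos : 0 < DD r (BCw T c0) (ee r c0 c1) (f z) := hcd.DD_pos hz
  obtain ⟨h', hs⟩ := exists_SQs hS hcd.df hC h0 h1 hf hfT hnc ⟨z, hpos⟩
  exact hs.false hG (hZ c0 hc00) hcd hS hC0 hC h0 h1 hC2 hC1 hb hcc

end Pool.Agent.H918.SD
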