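import Pool.Agent.H918.A.Fin
import Pool.Graph.R_pool_sql_team_seeded_63374d34.N154.GG.Basic
import Pool.Graph.R_pool_sql_team_seeded_63374d34.N155.A.Pd

/-! A curve, through every point of which there passes a curve of the class, factors through a curve
of the class. -/

set_option autoImplicit false

open Filter Topology Metric Set

namespace Pool.Agent.H918.SD

open Pool.Agent.Y190.OP Pool.Agent.N155
open Pool.Agent.N154.GG (holP_comp hp_cont ev_const_of_deriv)

variable {N : ℕ} {T : Set (Mat N)} {c0 : ℝ} {𝒞 : (ℂ → Mat N) → Prop} {r c1 : ℝ}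
variable {f : ℂ → Mat N}

/-- the zeros of a function comparable to holomorphic functions along a curve -/
theorem PDl.dich {D : Mat N → ℝ} {z0 : ℂ} (hD : PDl D (f z0)) (hf : HolP univ f) :
    (∀ᶠ z in 𝓝 z0, D (f z) = 0) ∨ ∀ᶠ z in 𝓝[≠] z0, D (f z) ≠ 0 := by
  obtain ⟨O, q, g, c, C, hO, hMO, hc, hC, hg, hb⟩ := hD
  have hcf := hp_cont hf
  have hev : ∀ᶠ z in 𝓝 z0, f z ∈ O := hcf.continuousAt.eventually (hO.mem_nhds hMO)
  have hPM : ∀ z, f z ∈ PM := fun z => hf.mem_PM (mem_univ z)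
  have han : ∀ p, AnalyticAt ℂ (fun z => g p (f z)) z0 := by
    intro p
    rw [Complex.analyticAt_iff_eventually_differentiableAt]
    filter_upwards [hev] with z hz
    exact hg p f z hf hz
  by_cases hall : ∀ p, ∀ᶠ z in 𝓝 z0, g p (f z) = 0
  · left
    filter_upwards [hev, eventually_all.2 hall] with z h1 h2
    obtain ⟨k1, k2⟩ := hb _ h1 (hPM z)
    have e : ∑ p, ‖g p (f z)‖ = 0 := Finset.sum_eq_zero fun p _ => by rw [h2 p, norm_zero]
    rw [e, mul_zero] at k1 k2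
    exact le_antisymm k2 k1
  · right
    push Not at hall
    obtain ⟨p, hp⟩ := hall
    have h1 := ((han p).eventually_eq_zero_or_eventually_ne_zero).resolve_left (by
      intro h
      exact (Filter.not_eventually.2 (by simpa using hp)) h)
    filter_upwards [h1, hev.filter_mono nhdsWithin_le_nhds] with z h2 h3 h4
    obtain ⟨k1, -⟩ := hb _ h3 (hPM z)
    rw [h4] at k1
    have k2 : 0 < ∑ p, ‖g p (f z)‖ :=
      lt_of_lt_of_le (norm_pos_iff.2 h2)
        (Finset.single_le_sum (f := fun p => ‖g p (f z)‖) (fun _ _ => norm_nonneg _)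
          (Finset.mem_univ p))
    have k3 := mul_pos hc k2
    linarith

/-- locally the curve is in a disc of a leaf -/
theorem CD.local_leaf (h : CD T c0 𝒞 r c1) (hf : HolP univ f)
    (hc : ∀ z, ∃ φ, 𝒞 φ ∧ f z = φ 0) (z0 : ℂ) :
    ∃ b, 𝒞 b ∧ ∀ᶠ z in 𝓝 z0, ∃ β : ℂ, ‖β‖ ≤ rr r c0 ∧ f z = b β := by
  obtain ⟨B, hB⟩ := h.exists_nb (f z0)
  have hε := h.ee_pos
  have hρ := h.rr_pos
  have hrl := h.rr_le
  have hrp := h.rpos
  have hc1 := h.cpos
  have hc0 := h.cls.pos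
  have hcf := hp_cont hf
  have hpd : ∀ b ∈ B, PDl (dl b (rr r c0)) (f z0) := by
    intro b hb
    apply h.pdl_leaf (hB.mem b hb) hρ (by linarith)
    intro β hβ hx
    have h2 := h.inj b (hB.mem b hb) 0 β (by linarith)
    rw [zero_add, ← hx] at h2
    have h3 := (h2.trans (hB.near b hb))
    have h4 := h.ee_le
    have h5 : c1 * ‖β‖ ≤ c1 * (rr r c0 / (4 * (1 + 2 / c0)) / 2) := by linarith
    have h6 := le_of_mul_le_mul_left h5 hc1
    refine h6.trans_lt ?_
    have h7 : 0 < 2 / c0 := by positivity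
    rw [div_div, div_lt_iff₀ (by positivity)]
    nlinarith
  have hev : ∀ᶠ z in 𝓝 z0, ∃ b ∈ B, dl b (rr r c0) (f z) = 0 := by
    have h1 : ∀ᶠ z in 𝓝 z0, ‖f z0 - f z‖ < 2 * ee r c0 c1 := by
      have h2 := Metric.tendsto_nhds.1 (hcf.tendsto z0) (2 * ee r c0 c1) (by positivity)
      filter_upwards [h2] with z hz
      rwa [dist_comm, dist_eq_norm] at hz
    filter_upwards [h1] with z hz
    obtain ⟨φ, hφ, hφz⟩ := hc z
    obtain ⟨b, hb, α, β, hβ, hs⟩ := hB.cov φ hφ (by rw [← hφz]; exact hz.le)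
    refine ⟨b, hb, le_antisymm ?_ (dl_nonneg _ _ _)⟩
    have h3 := dl_le (φ := b) (ρ := rr r c0) (β := β) (by linarith) (f z)
    have h4 := hs 0
    rw [mul_zero, zero_add] at h4
    rwa [hφz, h4, sub_self, norm_zero, ← h4, ← hφz] at h3
  have hex : ∃ b ∈ B, ∀ᶠ z in 𝓝 z0, dl b (rr r c0) (f z) = 0 := by
    by_contra hcon
    push Not at hcon
    have h1 : ∀ᶠ z in 𝓝[≠] z0, ∀ b ∈ B, dl b (rr r c0) (f z) ≠ 0 := by
      rw [Finset.eventually_all]
      intro b hb
      refine ((hpd b hb).dich hf).resolve_left fun h2 => ?_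
      obtain ⟨z, hz1, hz2⟩ := ((hcon b hb).and_eventually h2).exists
      exact hz1 hz2
    obtain ⟨z, hz1, b, hb, hz2⟩ := (h1.and (hev.filter_mono nhdsWithin_le_nhds)).exists
    exact hz1 b hb hz2
  obtain ⟨b, hb, hbz⟩ := hex
  refine ⟨b, hB.mem b hb, ?_⟩
  filter_upwards [hbz] with z hz
  obtain ⟨β, hβ, hβ2⟩ := dl_spec (h.cls.cont (hB.mem b hb)) hρ.le (f z)
  refine ⟨β, hβ, ?_⟩
  rw [hz] at hβ2
  exact sub_eq_zero.1 (norm_eq_zero.1 hβ2.symm)

/-- the local lifts -/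
theorem CD.local_lift (h : CD T c0 𝒞 r c1) (hf : HolP univ f)
    (hc : ∀ z, ∃ φ, 𝒞 φ ∧ f z = φ 0) (z0 : ℂ) :
    ∃ b, 𝒞 b ∧ ∃ (s : ℂ → ℂ) (V : Set ℂ), IsOpen V ∧ z0 ∈ V ∧ DifferentiableOn ℂ s V ∧
      ∀ z ∈ V, f z = b (s z) := by
  obtain ⟨b, hb, hev⟩ := h.local_leaf hf hc z0
  have hrl := h.rr_le
  have hrp := h.rpos
  have hc1 := h.cpos
  have hcf := hp_cont hf
  obtain ⟨V, hVs, hV, hzV⟩ := _root_.mem_nhds_iff.1 hev
  have hex : ∀ z, ∃ β : ℂ, z ∈ V → ‖β‖ ≤ rr r c0 ∧ f z = b β := by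
    intro z
    by_cases hz : z ∈ V
    · obtain ⟨β, h1⟩ := hVs hz
      exact ⟨β, fun _ => h1⟩
    · exact ⟨0, fun h => absurd h hz⟩
  choose s hs using hex
  have hle : ∀ z ∈ V, ∀ z' ∈ V, ‖s z' - s z‖ ≤ c1⁻¹ * ‖f z' - f z‖ := by
    intro z hz z' hz'
    have h1 := h.inj b hb (s z) (s z' - s z) (by
      have := norm_sub_le (s z') (s z)
      have := (hs z hz).1
      have := (hs z' hz').1
      linarith)
    rw [add_sub_cancel, ← (hs z hz).2, ← (hs z' hz').2] at h1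
    rw [le_inv_mul_iff₀ hc1]
    exact h1
  have hcont : ContinuousOn s V := by
    intro z hz
    rw [ContinuousWithinAt, tendsto_iff_norm_sub_tendsto_zero]
    have h1 : Tendsto (fun z' => c1⁻¹ * ‖f z' - f z‖) (𝓝[V] z) (𝓝 0) := by
      have h2 : Tendsto (fun z' => c1⁻¹ * ‖f z' - f z‖) (𝓝 z) (𝓝 (c1⁻¹ * ‖f z - f z‖)) :=
        ((((hcf.tendsto z).sub_const (f z)).norm).const_mul c1⁻¹)
      rw [sub_self, norm_zero, mul_zero] at h2
      exact h2.mono_left nhdsWithin_le_nhds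
    refine squeeze_zero' (Eventually.of_forall fun _ => norm_nonneg _) ?_ h1
    filter_upwards [self_mem_nhdsWithin] with z' hz'
    exact hle z hz z' hz'
  exact ⟨b, hb, s, V, hV, hzV, hol_of_exact hf (h.cls.hol b hb) (h.cls.im hb) hV hcont
    fun z hz => (hs z hz).2, fun z hz => (hs z hz).2⟩

/-- two local lifts differ by an affine map -/
theorem CD.germ_aff (h : CD T c0 𝒞 r c1) {b b' : ℂ → Mat N} (hb : 𝒞 b) (hb' : 𝒞 b')
    {s s' : ℂ → ℂ} {z0 : ℂ} (hs : AnalyticAt ℂ s z0) (hs' : AnalyticAt ℂ s' z0)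
    (he : ∀ᶠ z in 𝓝 z0, f z = b (s z)) (he' : ∀ᶠ z in 𝓝 z0, f z = b' (s' z))
    (hnc : ¬ ∀ᶠ z in 𝓝 z0, f z = f z0) :
    ∃ α : ℂ, (∀ w, b (s z0 + w) = b' (s' z0 + α * w)) ∧
      ∀ᶠ z in 𝓝 z0, s' z = s' z0 + α * (s z - s z0) := by
  have hrp := h.rpos
  have hc1 := h.cpos
  have hψ := h.cls.shift b hb (s z0)
  have hχ := h.cls.shift b' hb' (s' z0)
  obtain ⟨ρ1, hρ1, hρr, hgerm⟩ := h.germ hψ hχ (by
    simp only [add_zero]
    rw [← he.self_of_nhds, ← he'.self_of_nhds])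
  have hd : AnalyticAt ℂ (fun z => s z - s z0) z0 := hs.sub analyticAt_const
  have hne : ∀ᶠ z in 𝓝[≠] z0, s z - s z0 ≠ 0 := by
    refine hd.eventually_eq_zero_or_eventually_ne_zero.resolve_left fun h1 => hnc ?_
    filter_upwards [h1, he] with z h2 h3
    rw [h3, he.self_of_nhds, sub_eq_zero.1 h2]
  have ht1 : Tendsto (fun z => s z - s z0) (𝓝 z0) (𝓝 0) := by
    have := hd.continuousAt.tendsto
    rwa [sub_self] at this
  have ht2 : Tendsto (fun z => s' z - s' z0) (𝓝 z0) (𝓝 0) := by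
    have := (hs'.continuousAt.tendsto).sub_const (s' z0)
    rwa [sub_self] at this
  have ht : Tendsto (fun z => s z - s z0) (𝓝[≠] z0) (𝓝[≠] 0) :=
    tendsto_nhdsWithin_of_tendsto_nhds_of_eventually_within _
      (ht1.mono_left nhdsWithin_le_nhds) hne
  have hsm : ∀ δ : ℝ, 0 < δ → ∀ᶠ z in 𝓝 z0, ‖s' z - s' z0‖ < δ := by
    intro δ hδ
    have h1 := ht2.norm
    rw [norm_zero] at h1
    exact h1.eventually_lt_const hδ
  obtain ⟨α, hα⟩ := hgerm (by
    apply ht.frequently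
    apply Eventually.frequently
    filter_upwards [he.filter_mono nhdsWithin_le_nhds, he'.filter_mono nhdsWithin_le_nhds,
      (hsm ρ1 hρ1).filter_mono nhdsWithin_le_nhds] with z h1 h2 h3
    refine ⟨s' z - s' z0, h3, ?_⟩
    simp only [add_sub_cancel]
    rw [← h1, ← h2])
  refine ⟨α, hα, ?_⟩
  have hsm2 : ∀ᶠ z in 𝓝 z0, ‖α * (s z - s z0)‖ < r := by
    have h1 := (ht1.const_mul α).norm
    rw [mul_zero, norm_zero] at h1
    exact h1.eventually_lt_const hrp
  filter_upwards [he, he', hsm r hrp, hsm2] with z h1 h2 h3 h4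
  have e1 : b' (s' z0 + α * (s z - s z0)) = b' (s' z) := by
    have := hα (s z - s z0)
    simp only [add_sub_cancel] at this
    rw [← this, ← h1, h2]
  have e2 := h.inj b' hb' (s' z0 + α * (s z - s z0)) (s' z - (s' z0 + α * (s z - s z0))) (by
    have e3 : s' z - (s' z0 + α * (s z - s z0)) = (s' z - s' z0) - α * (s z - s z0) := by ring
    rw [e3]
    have := norm_sub_le (s' z - s' z0) (α * (s z - s z0))
    linarith)
  rw [add_sub_cancel, e1, sub_self, norm_zero] at e2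
  have e4 : ‖s' z - (s' z0 + α * (s z - s z0))‖ ≤ 0 := by
    by_contra hcon
    push Not at hcon
    have := mul_pos hc1 hcon
    linarith
  exact sub_eq_zero.1 (norm_eq_zero.1 (le_antisymm e4 (norm_nonneg _)))

/-- **Curves covered by the curves of the class factor through one of them.** -/
theorem CD.lift (h : CD T c0 𝒞 r c1) (hf : HolP univ f) (hnc : ∃ z, f z ≠ f 0)
    (hc : ∀ z, ∃ φ, 𝒞 φ ∧ f z = φ 0) :
    ∃ b, 𝒞 b ∧ ∃ s : ℂ → ℂ, Differentiable ℂ s ∧ ∀ z, f z = b (s z) := by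
  have hnc' : ∀ z0, ¬ ∀ᶠ z in 𝓝 z0, f z = f z0 := by
    intro z0 h1
    obtain ⟨z, hz⟩ := hnc
    have hconst : HolP univ (fun _ : ℂ => f z0) := holP_comp hf (differentiable_const z0)
    have h2 := holP_ext hf hconst h1
    exact hz ((h2 z).trans (h2 0).symm)
  obtain ⟨b, hb, s0, V0, hV0, hzV0, hs0, he0⟩ := h.local_lift hf hc 0
  have hall : ∀ z0, ∃ s : ℂ → ℂ, AnalyticAt ℂ s z0 ∧ ∀ᶠ z in 𝓝 z0, f z = b (s z) := by
    set A : Set ℂ := {z0 | ∃ s : ℂ → ℂ, AnalyticAt ℂ s z0 ∧ ∀ᶠ z in 𝓝 z0, f z = b (s z)} with hA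
    have hAo : IsOpen A := by
      rw [isOpen_iff_mem_nhds]
      rintro z0 ⟨s, h1, h2⟩
      filter_upwards [h1.eventually_analyticAt, eventually_eventually_nhds.2 h2] with z h3 h4
      exact ⟨s, h3, h4⟩
    have hAc : IsOpen Aᶜ := by
      rw [isOpen_iff_mem_nhds]
      intro z1 hz1
      obtain ⟨b1, hb1, s1, V1, hV1, hzV1, hs1, he1⟩ := h.local_lift hf hc z1
      filter_upwards [hV1.mem_nhds hzV1] with z2 hz2 hz2A
      obtain ⟨s, h1, h2⟩ := hz2A
      obtain ⟨α, hα, -⟩ := h.germ_aff hb1 hb (hs1.analyticAt (hV1.mem_nhds hz2)) h1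
        (by
          filter_upwards [hV1.mem_nhds hz2] with z hz
          exact he1 z hz) h2 (hnc' z2)
      apply hz1
      refine ⟨fun z => s z2 + α * (s1 z - s1 z2),
        analyticAt_const.add (analyticAt_const.mul ((hs1.analyticAt (hV1.mem_nhds hzV1)).sub
          analyticAt_const)), ?_⟩
      filter_upwards [hV1.mem_nhds hzV1] with z hz
      rw [← hα, add_sub_cancel]
      exact he1 z hz
    have hcl : IsClopen A := ⟨⟨hAc⟩, hAo⟩
    have h0 : (0 : ℂ) ∈ A := ⟨s0, hs0.analyticAt (hV0.mem_nhds hzV0), by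
      filter_upwards [hV0.mem_nhds hzV0] with z hz
      exact he0 z hz⟩
    rcases isClopen_iff.1 hcl with h1 | h1
    · rw [h1] at h0
      exact absurd h0 (notMem_empty _)
    · intro z
      have : z ∈ A := by rw [h1]; exact mem_univ z
      exact this
  choose s hsA hsE using hall
  set u : ℂ → ℂ := fun z => deriv (s z) z with hu
  have hloc : ∀ z0, ∀ᶠ z in 𝓝 z0, u z = deriv (s z0) z := by
    intro z0
    filter_upwards [(hsA z0).eventually_analyticAt, eventually_eventually_nhds.2 (hsE z0)]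
      with z h1 h2
    obtain ⟨α, hα, hαe⟩ := h.germ_aff hb hb (hsA z) h1 (hsE z) h2 (hnc' z)
    have hα1 : α = 1 := by
      apply affsym h.inj h.rpos h.cpos hb (b := s z0 z - α * s z z)
      intro w
      have h3 := hα (w - s z z)
      rw [add_sub_cancel] at h3
      rw [h3]
      congr 1
      ring
    have h4 : s z0 =ᶠ[𝓝 z] fun t => s z t + (s z0 z - s z z) := by
      filter_upwards [hαe] with t ht
      rw [ht, hα1]
      ring
    rw [h4.deriv_eq, deriv_add_const]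
  have hud : Differentiable ℂ u := by
    intro z0
    exact (hsA z0).deriv.differentiableAt.congr_of_eventuallyEq (hloc z0)
  obtain ⟨S0, hS0⟩ := hud.isExactOn_univ
  have hS0' : ∀ z, HasDerivAt S0 (u z) z := fun z => hS0 z (mem_univ z)
  have hdS : Differentiable ℂ fun z => S0 z - S0 0 + s 0 0 := fun z =>
    ((hS0' z).differentiableAt.sub_const _).add_const _
  refine ⟨b, hb, fun z => S0 z - S0 0 + s 0 0, hdS, ?_⟩
  refine holP_ext (z0 := 0) hf (holP_comp (h.cls.hol b hb) hdS) ?_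
  have h1 : ∀ᶠ z in 𝓝 (0 : ℂ), S0 z - s 0 z = S0 0 - s 0 0 := by
    apply ev_const_of_deriv (f := fun z => S0 z - s 0 z)
    filter_upwards [hloc 0, (hsA 0).eventually_analyticAt] with z h2 h3
    have := (hS0' z).sub h3.differentiableAt.hasDerivAt
    rwa [h2, sub_self] at this
  filter_upwards [h1, hsE 0] with z h2 h3
  rw [h3]
  congr 1
  linear_combination -h2

end Pool.Agent.H918.SD
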