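import Pool.Agent.H918.A.Lift
import Pool.Agent.H918.A.Fam
import Pool.Graph.R_pool_sql_team_seeded_63374d34.N155.B.Rat

/-! Entire curves in projective manifolds with positive 2-forms, and symmetric differentials. -/

set_option autoImplicit false

open Filter Topology Metric Set MvPolynomial LinearAlgebra.Projectivization

namespace Pool.Agent.H918.SD

open Pool.Agent.Y190.OP Pool.Agent.W602.GT Pool.Agent.N155 Pool.Agent.N155.BB

variable {N : ℕ} {T : Set (Mat N)} {c0 : ℝ}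

/-- **The main theorem for compact sets of projection matrices, with lifts** -/
theorem factor_curves {Z : Set (Mat N)} {κ : Type}
    {ω : κ → (Fin N → ℂ) → (Fin N → ℂ) → (Fin N → ℂ) → ℂ} (hG : GW T Z ω)
    (hZ : ∀ c0, 0 < c0 → ∀ φ, BCw T c0 φ → ∃ z, φ z ∉ Z) {m k : ℕ}
    {S : (ℂ → Mat N) → ℂ → Fin m → ℂ} (hS : SDat T k S) (hNT : NT T S) :
    ∃ c0 : ℝ, 0 < c0 ∧ ∃ A : Finset (ℂ → Mat N), (∀ g ∈ A, BCw T c0 g) ∧
      ∀ f : ℂ → Mat N, HolP univ f → (∀ z, f z ∈ T) → (∃ z, f z ≠ f 0) →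
        ∃ g ∈ A, ∃ s : ℂ → ℂ, Differentiable ℂ s ∧ ∀ z, f z = g (s z) := by
  obtain ⟨c0, hc0, h⟩ := all_curves hG hZ hS hNT
  have hcls := BCw.cls hS.comp hS.sub hc0
  obtain ⟨A, hA, hA2⟩ := finite_class hG (hZ c0 hc0) hcls
  obtain ⟨r, c1, hcd⟩ := CD.of hG (hZ c0 hc0) hcls
  refine ⟨c0, hc0, A, hA, fun f hf hfT hnc => ?_⟩
  obtain ⟨b, hb, s, hs, hfs⟩ := hcd.lift hf hnc (h f hf hfT hnc)
  obtain ⟨g, hg, α, β, hgb⟩ := hA2 b hb
  exact ⟨g, hg, fun z => α * s z + β, (hs.const_mul α).add_const β, fun z => by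
    rw [hfs z, hgb]⟩

theorem gw_mono {T' Z : Set (Mat N)} {κ : Type}
    {ω : κ → (Fin N → ℂ) → (Fin N → ℂ) → (Fin N → ℂ) → ℂ} (h : GW T Z ω) (hT : T' ⊆ T) :
    GW T' Z ω where
  closed := h.closed
  homog := fun M hM => h.homog M (hT hM)
  loc := fun M0 hM0 => by
    obtain ⟨i, d, J, O, U, Ψ, h1, h2, h3, h4, h5, h6, h7⟩ := h.loc M0 (hT hM0)
    exact ⟨i, d, J, O, U, Ψ, h1, h2, h3, h4, h5, h6, fun M hM =>
      ⟨(h7 M hM).1, (h7 M hM).2.1, fun hMT => (h7 M hM).2.2 (hT hMT)⟩⟩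

theorem bcw_mono {T' : Set (Mat N)} (hT : T' ⊆ T) {φ : ℂ → Mat N} (h : BCw T' c0 φ) :
    BCw T c0 φ := ⟨h.hol, fun z => hT (h.mem z), h.bd, h.low⟩

variable {n d : ℕ} {ι ι' : Type} {F : ι → MvPolynomial (Fin (n + 1)) ℂ}
  {G : ι' → MvPolynomial (Fin (n + 1)) ℂ} {κ : Type}
  {η : κ → (Fin (n + 1) → ℂ) → (Fin (n + 1) → ℂ) → (Fin (n + 1) → ℂ) → ℂ}
  {V : Set (ℙ ℂ (Fin (n + 1) → ℂ))}

/-- The subset `V` of projective space is closed: the cone over it, with its vertex, is closed. -/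
def ClosedSet (V : Set (ℙ ℂ (Fin (n + 1) → ℂ))) : Prop :=
  IsClosed {v : Fin (n + 1) → ℂ | ∀ h : v ≠ 0, Projectivization.mk ℂ v h ∈ V}

/-- the matrices of the points -/
def TV (F : ι → MvPolynomial (Fin (n + 1)) ℂ) (V : Set (ℙ ℂ (Fin (n + 1) → ℂ))) :
    Set (Mat (n + 1)) := {M | M ∈ TF F ∧ toProj M ∈ V}

theorem isClosed_TV (hF : ∀ i, IsForm (F i)) (hV : ClosedSet V) : IsClosed (TV F V) := by
  set S : Set (Fin (n + 1) → ℂ) := sphere 0 1 ∩
    {v | ∀ h : v ≠ 0, Projectivization.mk ℂ v h ∈ V} with hS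
  have hSc : IsCompact S := (isCompact_sphere 0 1).inter_right hV
  have hne : ∀ u ∈ S, u ≠ 0 := by
    rintro u ⟨hu, -⟩ rfl
    rw [mem_sphere, dist_self] at hu
    exact zero_ne_one hu
  have hcl : IsClosed (Phi '' S) := (hSc.image_of_continuousOn fun u hu =>
    (continuousAt_Phi (hne u hu)).continuousWithinAt).isClosed
  have himg : TV F V = TF F ∩ Phi '' S := by
    ext M
    constructor
    · rintro ⟨hM, hMV⟩
      refine ⟨hM, ?_⟩
      obtain ⟨u, hu, rfl⟩ := hM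
      have hn : (‖u‖ : ℂ) ≠ 0 := by
        have := norm_pos_iff.2 hu.1
        exact_mod_cast this.ne'
      rw [toProj_Phi hu.1] at hMV
      refine ⟨(‖u‖ : ℂ)⁻¹ • u, ⟨?_, fun h => ?_⟩, Phi_smul (inv_ne_zero hn) u⟩
      · rw [mem_sphere, dist_zero_right, norm_smul, norm_inv, Complex.norm_real, norm_norm]
        exact inv_mul_cancel₀ (by exact_mod_cast hn)
      · have h1 : Projectivization.mk ℂ ((‖u‖ : ℂ)⁻¹ • u) h = Projectivization.mk ℂ u hu.1 :=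
          (Projectivization.mk_eq_mk_iff' ℂ _ _ _ _).2 ⟨(‖u‖ : ℂ)⁻¹, rfl⟩
        rw [h1]
        exact hMV
    · rintro ⟨hM, u, hu, rfl⟩
      refine ⟨hM, ?_⟩
      rw [toProj_Phi (hne u hu)]
      exact hu.2 (hne u hu)
  rw [himg]
  exact (isCompact_TF hF).isClosed.inter hcl

/-- **Entire curves in closed subsets of projective manifolds with positive 2-forms: either there is
a nonconstant curve of bounded derivative which is tangent to all symmetric differentials, or a curve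
in the exceptional set whose derivative is bounded above and below, or all nonconstant curves factor
through finitely many doubly periodic curves.** -/
theorem factor_or_tangent (hX : ProjManifold F d) (hG : ∀ i, IsForm (G i))
    (hη : PositiveTwoForms (Cone F) (Cone G) d η) (hV : ClosedSet V) :
    (∃ f : ℂ → ℙ ℂ (Fin (n + 1) → ℂ), HolIn F f ∧ (∀ z, f z ∈ V) ∧ (∃ z, f z ≠ f 0) ∧
      (∃ C, DerBetween 0 C f) ∧ ∀ k, 0 < k → ∀ σ, SymDiff (Cone F) d k σ → TangentTo σ f) ∨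
    (∃ f : ℂ → ℙ ℂ (Fin (n + 1) → ℂ), HolIn F f ∧ (∀ z, f z ∈ V) ∧ (∀ z, (f z).rep ∈ Cone G) ∧
      ∃ c C : ℝ, 0 < c ∧ DerBetween c C f) ∨
    ∃ S : Finset (ℂ → ℙ ℂ (Fin (n + 1) → ℂ)), (∀ g ∈ S, HolIn F g ∧ (∀ z, g z ∈ V) ∧
      (∃ c C : ℝ, 0 < c ∧ DerBetween c C g) ∧ DoublyPeriodic g) ∧
      ∀ f, HolIn F f → (∀ z, f z ∈ V) → (∃ z, f z ≠ f 0) →
        ∃ g ∈ S, ∃ s : ℂ → ℂ, Differentiable ℂ s ∧ ∀ z, f z = g (s z) := by
  classical
  rw [or_iff_not_imp_left]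
  intro hno
  rw [or_iff_not_imp_left]
  intro hno2
  obtain ⟨A, hA, hw⟩ := wedge_fderiv n
  have hcl := isClosed_TV hX.form hV
  have hsub : TV F V ⊆ TF F := fun M hM => hM.1
  have hgw := gw_mono (gw_of hX hG hη) hsub
  have hback : ∀ {φ : ℂ → Mat (n + 1)}, HolP univ φ → (∀ z, φ z ∈ TV F V) →
      HolIn F (fun z => toProj (φ z)) ∧ (∀ z, toProj (φ z) ∈ V) := fun hφ hφT =>
    ⟨⟨holMap_of hφ, fun z => rep_toProj hX.form (hφT z).1⟩, fun z => (hφT z).2⟩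
  have hphi : ∀ {φ : ℂ → Mat (n + 1)}, (∀ z, φ z ∈ TV F V) →
      (fun z => Phi (toProj (φ z)).rep) = φ := fun hφ =>
    funext fun z => Phi_rep_toProj (TF_PM (hφ z).1)
  have hder : ∀ {φ : ℂ → Mat (n + 1)}, HolP univ φ → (∀ z, φ z ∈ TV F V) → ∀ c C : ℝ,
      (∀ z, c ≤ ‖fderiv ℝ φ z‖) → (∀ z, ‖fderiv ℝ φ z‖ ≤ C) →
      DerBetween (c / A) (A * C) (fun z => toProj (φ z)) := by
    intro φ hφ hφT c C hc hC W g hW hg hfg z hz
    obtain ⟨h1, h2⟩ := hw _ (hback hφ hφT).1.1 W g hW hg hfg z hz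
    rw [hphi hφT] at h1 h2
    have hS := (sum_pos (hfg z hz).1).le
    constructor
    · rw [div_mul_eq_mul_div, div_le_iff₀ hA, mul_comm (wedge _ _)]
      exact (mul_le_mul_of_nonneg_right (hc z) hS).trans h1
    · exact h2.trans (mul_le_mul_of_nonneg_right (mul_le_mul_of_nonneg_left (hC z) hA.le) hS)
  have hout : ∀ c0, 0 < c0 → ∀ φ, BCw (TV F V) c0 φ → ∃ z, φ z ∉ TF G := by
    intro c0 hc0 φ hφ
    by_contra hcon
    push Not at hcon
    obtain ⟨h1, h2⟩ := hback hφ.hol hφ.mem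
    exact hno2 ⟨_, h1, h2, fun z => rep_toProj hG (hcon z), c0 / A, A * 2, by positivity,
      hder hφ.hol hφ.mem c0 2 hφ.low hφ.bd⟩
  -- the symmetric differentials
  set I : Type := {p : ℕ × ((Fin (n + 1) → ℂ) → (Fin (n + 1) → ℂ) → ℂ) //
    0 < p.1 ∧ SymDiff (Cone F) d p.1 p.2} with hI
  have hfam : SFam F d (fun i : I => i.1.1) (fun i : I => i.1.2) :=
    ⟨fun i => i.2.1, fun i => i.2.2⟩
  obtain ⟨K, m, τ, hK, hτ, hNT⟩ := hfam.reduce hX hcl hsub (by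
    intro P hP hPT hPb hPS z
    by_contra hne
    apply hno
    obtain ⟨h1, h2⟩ := hback hP hPT
    refine ⟨_, h1, h2, ⟨z, fun heq => hne ?_⟩, ⟨A * 2, ?_⟩, ?_⟩
    · have h3 : Phi (toProj (P z)).rep = Phi (toProj (P 0)).rep := by rw [heq]
      rwa [Phi_rep_toProj (TF_PM (hPT z).1), Phi_rep_toProj (TF_PM (hPT 0).1)] at h3
    · have h3 := hder hP hPT 0 2 (fun z => norm_nonneg _) hPb
      rwa [zero_div] at h3
    · intro k hk σ hσ W g hW hg hfg w hwW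
      obtain ⟨i, hi, h3⟩ := sv_lift hX hσ h1 hW hg hfg hwW
      rw [hphi hPT] at h3
      have hi' : P w i i ≠ 0 := by
        have h4 : Phi (toProj (P w)).rep = P w := congrFun (hphi hPT) w
        rwa [h4] at hi
      rw [h3, sv_indep hX hσ hP (fun z => (hPT z).1) (idx_ne (TF_PM (hPT w).1)) hi']
      exact hPS ⟨(k, σ), hk, hσ⟩ w)
  have hS := sdat_of hX hK hτ hcl hsub
  obtain ⟨c0, hc0, B, hB, hB2⟩ := factor_curves hgw hout hS hNT
  have hcls := BCw.cls hS.comp hS.sub hc0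
  refine ⟨B.image fun φ z => toProj (φ z), fun g hg => ?_, fun f hf hfV hfn => ?_⟩
  · obtain ⟨φ, hφ, rfl⟩ := Finset.mem_image.1 hg
    have h1 := hB φ hφ
    obtain ⟨k1, k2⟩ := hback h1.hol h1.mem
    obtain ⟨p, q, hind, hp, hq⟩ := two_periods hgw (hout c0 hc0) hcls h1
    obtain ⟨L, hL⟩ := pair_periods hind hp hq
    exact ⟨k1, k2, ⟨c0 / A, A * 2, by positivity, hder h1.hol h1.mem c0 2 h1.low h1.bd⟩,
      L, fun l hl z => by
        change toProj (φ (z + l)) = toProj (φ z)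
        rw [hL l hl z]⟩
  · obtain ⟨φ, hφ, s, hs, hfs⟩ := hB2 (fun z => Phi (f z).rep) (holP_of_map hf.1)
      (fun z => ⟨mem_TF (hf.2 z), by
        rw [toProj_Phi_rep]
        exact hfV z⟩) (by
        obtain ⟨z, hz⟩ := hfn
        exact ⟨z, fun h => hz (proj_ext h)⟩)
    exact ⟨_, Finset.mem_image_of_mem _ hφ, s, hs, fun z => by
      rw [← hfs z, toProj_Phi_rep]⟩

end Pool.Agent.H918.SD
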