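import Pool.Agent.H918.A.Sp

/-! Symmetric differentials which are products of exact rational differentials and a rational
function. -/

set_option autoImplicit false

open Filter Topology Metric Set MvPolynomial LinearAlgebra.Projectivization

namespace Pool.Agent.H918.SD

open Pool.Agent.Y190.OP Pool.Agent.W602.GT Pool.Agent.N155 Pool.Agent.N155.BB

variable {n d k : ℕ} {ι ι' : Type}

/-- On the manifold with the cone `X`, the symmetric differential `σ` of degree `k` is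
`(R / S) d(P₁ / Q₁) ⋯ d(P_k / Q_k)`, where `P_l` and `Q_l` are forms of the same degree and `R` is a
form: for every holomorphic curve `g` in `X`,
`S (g) ∏ Q_l (g) ^ 2 σ (g, g') = R (g) ∏ (Q_l (g) (P_l (g))' - P_l (g) (Q_l (g))')`. -/
structure IsProduct (X : Set (Fin (n + 1) → ℂ)) (k : ℕ)
    (σ : (Fin (n + 1) → ℂ) → (Fin (n + 1) → ℂ) → ℂ) (R S : MvPolynomial (Fin (n + 1)) ℂ)
    (P Q : Fin k → MvPolynomial (Fin (n + 1)) ℂ) : Prop where
  form : IsForm R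
  forms : ∀ l, ∃ e, (P l).IsHomogeneous e ∧ (Q l).IsHomogeneous e
  eq : ∀ (U : Set ℂ) (g : ℂ → Fin (n + 1) → ℂ), IsOpen U → DifferentiableOn ℂ g U →
    (∀ z ∈ U, g z ∈ X) → ∀ z ∈ U,
    val (g z) S * (∏ l, val (g z) (Q l) ^ 2) * σ (g z) (deriv g z) =
      val (g z) R * ∏ l, (val (g z) (Q l) * deriv (fun w => val (g w) (P l)) z -
        val (g z) (P l) * deriv (fun w => val (g w) (Q l)) z)

/-- The curve `f` lies in the zero set of `R` or in a member `{a P_l + b Q_l = 0}` (where `a` and `b`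
are numbers, not both zero) of one of the pencils given by the forms `P_l`, `Q_l`. -/
def Vertical (R : MvPolynomial (Fin (n + 1)) ℂ) (P Q : Fin k → MvPolynomial (Fin (n + 1)) ℂ)
    (f : ℂ → ℙ ℂ (Fin (n + 1) → ℂ)) : Prop :=
  (∀ z, val (f z).rep R = 0) ∨ ∃ (l : Fin k) (a b : ℂ), (a ≠ 0 ∨ b ≠ 0) ∧
    ∀ z, a * val (f z).rep (P l) + b * val (f z).rep (Q l) = 0

variable {F : ι → MvPolynomial (Fin (n + 1)) ℂ} {G : ι' → MvPolynomial (Fin (n + 1)) ℂ}
  {σ : (Fin (n + 1) → ℂ) → (Fin (n + 1) → ℂ) → ℂ} {f : ℂ → ℙ ℂ (Fin (n + 1) → ℂ)}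

/-- a form which vanishes on a piece of a curve vanishes on the curve -/
theorem vanish_ev (hf : HolMap f) {P : MvPolynomial (Fin (n + 1)) ℂ} {e : ℕ}
    (hP : P.IsHomogeneous e) {z0 : ℂ} {g : ℂ → Fin (n + 1) → ℂ}
    (hg : ∀ᶠ z in 𝓝 z0, ∃ h : g z ≠ 0, f z = Projectivization.mk ℂ (g z) h)
    (h : ∀ᶠ z in 𝓝 z0, eval (g z) P = 0) (z : ℂ) : eval (f z).rep P = 0 := by
  have hhol := holP_of_map hf
  rcases nz_dich hhol hP with h1 | h1
  · have := h1 z
    rwa [Pool.Agent.N155.QD.nz_rep hP, not_not] at this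
  · exfalso
    have h2 : ∀ᶠ z in 𝓝[≠] z0, N155.nz P (Phi (f z).rep) := codis_ev h1 z0
    obtain ⟨w, hw1, ⟨hw2, hw3⟩, hw4⟩ := (h2.and ((hg.and h).filter_mono nhdsWithin_le_nhds)).exists
    rw [hw3, Phi_rep_mk, nz_Phi hP hw2] at hw1
    exact hw1 hw4

/-- **The curves tangent to a product are vertical.** -/
theorem tangent_prod {R S : MvPolynomial (Fin (n + 1)) ℂ}
    {P Q : Fin k → MvPolynomial (Fin (n + 1)) ℂ} (hσ : IsProduct (Cone F) k σ R S P Q)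
    (hF : ∀ i, IsForm (F i)) (hf : HolIn F f) (ht : TangentTo σ f) : Vertical R P Q f := by
  obtain ⟨V, g, hV, h0V, hg, hfg⟩ := hf.1 0
  have hgX : ∀ z ∈ V, g z ∈ Cone F := by
    intro z hz
    have h1 := mem_TF (hf.2 z)
    obtain ⟨h2, h3⟩ := hfg z hz
    rw [h3, Phi_rep_mk] at h1
    exact (Phi_mem hF h2).1 h1
  have hfg' : ∀ z0 ∈ V, ∀ᶠ z in 𝓝 z0, ∃ h : g z ≠ 0, f z = Projectivization.mk ℂ (g z) h :=
    fun z0 hz0 => by
      filter_upwards [hV.mem_nhds hz0] with z hz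
      exact hfg z hz
  have han : ∀ (A : MvPolynomial (Fin (n + 1)) ℂ), ∀ z ∈ V, AnalyticAt ℂ (fun w => eval (g w) A) z :=
    fun A z hz => an_eval hV hg A hz
  set W : Fin k → ℂ → ℂ := fun l z => eval (g z) (Q l) * deriv (fun w => eval (g w) (P l)) z -
    eval (g z) (P l) * deriv (fun w => eval (g w) (Q l)) z with hW
  have hWan : ∀ l, AnalyticAt ℂ (W l) 0 := fun l =>
    ((han (Q l) 0 h0V).mul (han (P l) 0 h0V).deriv).sub
      ((han (P l) 0 h0V).mul (han (Q l) 0 h0V).deriv)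
  have hprod : ∀ z ∈ V, eval (g z) R * ∏ l, W l z = 0 := by
    intro z hz
    have h1 := hσ.eq V g hV hg hgX z hz
    rw [ht V g hV hg hfg z hz, mul_zero] at h1
    simp only [val, aeval_eq_eval] at h1
    exact h1.symm
  by_cases hR : ∀ᶠ z in 𝓝 (0 : ℂ), eval (g z) R = 0
  · left
    obtain ⟨e, he⟩ := hσ.form
    intro z
    rw [val, aeval_eq_eval]
    exact vanish_ev hf.1 he (hfg' 0 h0V) hR z
  right
  have hex : ∃ l, ∀ᶠ z in 𝓝 (0 : ℂ), W l z = 0 := by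
    by_contra hcon
    push Not at hcon
    have h1 : ∀ᶠ z in 𝓝[≠] (0 : ℂ), ∀ l, W l z ≠ 0 := by
      rw [eventually_all]
      intro l
      refine (hWan l).eventually_eq_zero_or_eventually_ne_zero.resolve_left fun h => ?_
      obtain ⟨z, hz1, hz2⟩ := ((hcon l).and_eventually h).exists
      exact hz1 hz2
    have h2 : ∀ᶠ z in 𝓝[≠] (0 : ℂ), eval (g z) R ≠ 0 :=
      (han R 0 h0V).eventually_eq_zero_or_eventually_ne_zero.resolve_left hR
    obtain ⟨z, ⟨hz1, hz2⟩, hz3⟩ := ((h1.and h2).and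
      ((show ∀ᶠ z in 𝓝 (0 : ℂ), z ∈ V from hV.mem_nhds h0V).filter_mono nhdsWithin_le_nhds)).exists
    exact (mul_ne_zero hz2 (Finset.prod_ne_zero_iff.2 fun l _ => hz1 l)) (hprod z hz3)
  obtain ⟨l, hl⟩ := hex
  obtain ⟨e, heP, heQ⟩ := hσ.forms l
  refine ⟨l, ?_⟩
  by_cases hQ : ∀ᶠ z in 𝓝 (0 : ℂ), eval (g z) (Q l) = 0
  · refine ⟨0, 1, Or.inr one_ne_zero, fun z => ?_⟩
    rw [zero_mul, zero_add, one_mul, val, aeval_eq_eval]
    exact vanish_ev hf.1 heQ (hfg' 0 h0V) hQ z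
  have h2 : ∀ᶠ z in 𝓝[≠] (0 : ℂ), eval (g z) (Q l) ≠ 0 :=
    (han (Q l) 0 h0V).eventually_eq_zero_or_eventually_ne_zero.resolve_left hQ
  obtain ⟨z1, hz1, hz2, hz3⟩ := (h2.and (((eventually_eventually_nhds.2 hl).and
    (show ∀ᶠ z in 𝓝 (0 : ℂ), z ∈ V from hV.mem_nhds h0V)).filter_mono nhdsWithin_le_nhds)).exists
  set c : ℂ := eval (g z1) (P l) / eval (g z1) (Q l) with hc
  have hcon : ∀ᶠ z in 𝓝 z1, eval (g z) (P l) / eval (g z) (Q l) = c := by
    apply Pool.Agent.N154.GG.ev_const_of_deriv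
      (f := fun z => eval (g z) (P l) / eval (g z) (Q l))
    filter_upwards [hz2, hV.mem_nhds hz3, (han (Q l) z1 hz3).continuousAt.eventually_ne hz1]
      with z k1 k2 k3
    have k4 := ((han (P l) z k2).differentiableAt.hasDerivAt).div
      ((han (Q l) z k2).differentiableAt.hasDerivAt) k3
    refine k4.congr_deriv ?_
    have k5 : W l z = 0 := k1
    simp only [hW] at k5
    rw [div_eq_zero_iff]
    left
    linear_combination k5
  have hvan : ∀ᶠ z in 𝓝 z1, eval (g z) (P l - C c * Q l) = 0 := by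
    filter_upwards [hcon, (han (Q l) z1 hz3).continuousAt.eventually_ne hz1] with z k1 k2
    rw [div_eq_iff k2] at k1
    rw [map_sub, map_mul, eval_C, k1, sub_self]
  have hhom : (P l - C c * Q l).IsHomogeneous e := by
    have h3 : (C c * Q l).IsHomogeneous e := by
      have := (isHomogeneous_C (Fin (n + 1)) c).mul heQ
      rwa [zero_add] at this
    exact heP.sub h3
  refine ⟨1, -c, Or.inl one_ne_zero, fun z => ?_⟩
  have h3 := vanish_ev hf.1 hhom (hfg' z1 hz3) hvan z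
  rw [map_sub, map_mul, eval_C] at h3
  rw [val, val, aeval_eq_eval]
  linear_combination h3

theorem closedSet_univ : ClosedSet (univ : Set (ℙ ℂ (Fin (n + 1) → ℂ))) := by
  unfold ClosedSet
  simp

variable {κ : Type} {η : κ → (Fin (n + 1) → ℂ) → (Fin (n + 1) → ℂ) → (Fin (n + 1) → ℂ) → ℂ}

/-- **Green-Griffiths-Lang for manifolds with positive 2-forms and products** -/
theorem product_ggl (hX : ProjManifold F d) (hG : ∀ i, IsForm (G i))
    (hη : PositiveTwoForms (Cone F) (Cone G) d η)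
    (hZ : ∀ f, HolIn F f → (∀ z, (f z).rep ∈ Cone G) → ∀ z, f z = f 0) {J : Type} {k : J → ℕ}
    (hk : ∀ j, 0 < k j) {σ : J → (Fin (n + 1) → ℂ) → (Fin (n + 1) → ℂ) → ℂ}
    (hσ : ∀ j, SymDiff (Cone F) d (k j) (σ j)) {R S : J → MvPolynomial (Fin (n + 1)) ℂ}
    {P Q : ∀ j, Fin (k j) → MvPolynomial (Fin (n + 1)) ℂ}
    (hp : ∀ j, IsProduct (Cone F) (k j) (σ j) (R j) (S j) (P j) (Q j))
    (hv : ∀ f, HolIn F f → (∀ j, Vertical (R j) (P j) (Q j) f) → ∀ z, f z = f 0) :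
    ∃ A : Finset (ℂ → ℙ ℂ (Fin (n + 1) → ℂ)), (∀ g ∈ A, HolIn F g ∧ (∃ z, g z ≠ g 0) ∧
      DoublyPeriodic g) ∧
      (∀ f, HolIn F f → (∀ z, f z = f 0) ∨ ∃ g ∈ A, ∃ s : ℂ → ℂ, Differentiable ℂ s ∧
        ∀ z, f z = g (s z)) ∧
      (2 ≤ d → ∀ x ∈ Cone F, ∃ E : MvPolynomial (Fin (n + 1)) ℂ, IsForm E ∧
        (∀ f, HolIn F f → (∀ z, f z = f 0) ∨ ∀ z, val (f z).rep E = 0) ∧
        ∃ᶠ u in 𝓝 x, u ∈ Cone F ∧ val u E ≠ 0) := by
  rcases special_sets hX hG hη closedSet_univ with h | h | h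
  · obtain ⟨f, h1, -, h2⟩ := h
    exfalso
    obtain ⟨z, hz⟩ := h1.2.2
    exact hz (hv f h1.1 (fun j => tangent_prod (hp j) hX.form h1.1 (h2 _ (hk j) _ (hσ j))) z)
  · obtain ⟨f, h1, h2, -⟩ := h
    exfalso
    obtain ⟨z, hz⟩ := h1.2.2
    exact hz (hZ f h1.1 h2 z)
  · obtain ⟨⟨A, hA, hA2⟩, -, -⟩ := h
    have hfac : ∀ f, HolIn F f → (∀ z, f z = f 0) ∨ ∃ g ∈ A, ∃ s : ℂ → ℂ, Differentiable ℂ s ∧
        ∀ z, f z = g (s z) := by
      intro f hf
      by_cases hc : ∀ z, f z = f 0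
      · exact Or.inl hc
      · push Not at hc
        exact Or.inr (hA2 f ⟨hf, fun z => mem_univ _, hc⟩)
    refine ⟨A, fun g hg => ⟨(hA g hg).1.1, (hA g hg).1.2.2, (hA g hg).2⟩, hfac,
      fun hd x hx => ?_⟩
    obtain ⟨E, e, hE, hEg, hEu⟩ := Pool.Agent.N155.QD.exists_form hX hd A
      (fun g hg => ⟨(hA g hg).1.1, (hA g hg).2⟩) hx
    refine ⟨E, ⟨e, hE⟩, fun f hf => ?_, ?_⟩
    · rcases hfac f hf with h | ⟨g, hg, s, -, hfs⟩
      · exact Or.inl h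
      · right
        intro z
        rw [hfs z, val, MvPolynomial.aeval_eq_eval]
        exact hEg g hg _
    · refine hEu.mono fun u hu => ⟨hu.1, ?_⟩
      rw [val, MvPolynomial.aeval_eq_eval]
      exact hu.2

end Pool.Agent.H918.SD
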