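import Pool.Agent.H918.A.LB
import Pool.Agent.H918.A.Dat
import Pool.Graph.R_pool_sql_team_seeded_63374d34.N154.GG.Seq
import Pool.Graph.R_pool_sql_team_seeded_63374d34.N154.GG.Aff
import Pool.Graph.R_pool_sql_team_seeded_63374d34.N154.GG.Main

/-! Rescaled sequences of entire curves. (After the file `N154/GG/Seq.lean` of an earlier team.) -/

set_option autoImplicit false

open Filter Topology Metric Set

namespace Pool.Agent.H918.SD

open Pool.Agent.Y190.OP Pool.Agent.N155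
open Pool.Agent.N154.TT (cv cv_nonneg)
open Pool.Agent.N154.GG (UU uu_ge qk qk_ge pigeon exists_limit_loc zero_free_const norm_attained
  hp_cont)

variable {N : ℕ} {T : Set (Mat N)} {k m' : ℕ} {S : (ℂ → Mat N) → ℂ → Fin m' → ℂ}
  {D : Mat N → ℝ} {C s0 : ℝ} {h : ℕ → ℂ → Mat N}

/-- a rescaled sequence -/
structure SQs (T : Set (Mat N)) (k : ℕ) (S : (ℂ → Mat N) → ℂ → Fin m' → ℂ)
    (D : Mat N → ℝ) (s0 : ℝ) (h : ℕ → ℂ → Mat N) : Prop where
  hol : ∀ n, HolP univ (h n)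
  mem : ∀ n z, h n z ∈ T
  sc : ∀ n, sk k (S (h n)) 0 = s0
  d0 : ∀ n, 0 < D (h n 0)
  bd : ∀ (n : ℕ) (t : ℂ), ‖t‖ ≤ n → (sk k (S (h n)) t / s0) ^ (qk n) * D (h n t) ≤ 2 * D (h n 0)

/-- the local distance functions -/
structure DF (T : Set (Mat N)) (D : Mat N → ℝ) : Prop where
  pd : ∀ M ∈ T, PDl D M
  nn : ∀ M, 0 ≤ D M
  le : ∀ M, D M ≤ 1

/-- **The local bound** -/
theorem SQs.LB (hS : SDat T k S) (hD : DF T D) (hs : SQs T k S D s0 h) (hC0 : 0 < C)
    (hC : GEs T k S C) (h0 : 0 < s0) (h1 : s0 ≤ 1) (r0 : ℝ) :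
    ∃ K : ℝ, ∀ᶠ n in (UU : Filter ℕ), ∀ t : ℂ, ‖t‖ ≤ r0 → sk k (S (h n)) t ≤ K := by
  by_contra hcon
  push Not at hcon
  have hk := hS.kpos
  obtain ⟨Sm, R, n0, hSm, hR, hmain⟩ := LB_core (N := N) (C := C * s0) (m0 := max r0 0 + 3)
    hS.comp hS.sub hD.pd hD.nn hD.le (by positivity) (by linarith [le_max_right r0 0])
  have e1 := hcon (Sm * s0)
  obtain ⟨n, ⟨t, ht, hst⟩, hkR, hkn⟩ := (e1.and ((uu_ge R).and (uu_ge (n0 : ℝ)))).exists
  have hm0 : 0 ≤ max r0 0 := le_max_right _ _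
  have hmr : r0 ≤ max r0 0 := le_max_left _ _
  have hdif := hS.hol _ (hs.hol n) (hs.mem n)
  obtain ⟨t1, ht1, hs1⟩ := sk_max hk hdif (by positivity) hst
    (show ‖t‖ < max r0 0 + 3 - 2 by linarith)
  obtain ⟨t2, ht2, hs2⟩ := sk_max hk hdif (by positivity) hst
    (show ‖t‖ < max r0 0 + 3 by linarith)
  refine hmain (n + 1).factorial ?_ (h n) (fun t => sk k (S (h n)) t / s0) t1 t2 (hs.hol n)
    (hs.mem n) (fun z => div_nonneg (sk_nn _ _ _) h0.le) (fun z w hzw => ?_) (fun z => ?_) ?_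
    (hs.d0 n) ?_ ht1 ht2 ?_ ?_
  · have h2 : n0 ≤ n := by exact_mod_cast hkn
    exact h2.trans ((Nat.le_succ n).trans (Nat.self_le_factorial _))
  · have e2 : 4 * ‖w - z‖ * sk k (S (h n)) z ≤ 1 := by
      have e3 : 4 * ‖w - z‖ * sk k (S (h n)) z = 4 * ‖w - z‖ * (sk k (S (h n)) z / s0) * s0 := by
        field_simp
      rw [e3]
      calc _ ≤ 1 * s0 := mul_le_mul_of_nonneg_right hzw h0.le
        _ ≤ 1 := by rw [one_mul]; exact h1
    have e4 := sk_harnack hk hdif e2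
    rw [← mul_div_assoc]
    exact div_le_div_of_nonneg_right e4 h0.le
  · have e2 := hC _ (hs.hol n) (hs.mem n) z
    have e3 : C * s0 * (sk k (S (h n)) z / s0) = C * sk k (S (h n)) z := by
      field_simp
    rw [e3]
    exact e2
  · rw [hs.sc, div_self h0.ne']
  · intro t ht
    exact hs.bd n t (ht.trans hkR)
  · rwa [lt_div_iff₀ h0]
  · rwa [lt_div_iff₀ h0]

/-- **The limit** -/
theorem SQs.lim (hS : SDat T k S) (hD : DF T D) (hs : SQs T k S D s0 h) (hC0 : 0 < C)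
    (hC : GEs T k S C) (h0 : 0 < s0) (h1 : s0 ≤ 1) :
    ∃ H : ℂ → Mat N, HolP univ H ∧ (∀ z, H z ∈ T) ∧ CConv (UU : Filter ℕ) univ h H ∧
      CConv (UU : Filter ℕ) univ (fun n => S (h n)) (S H) := by
  have hk := hS.kpos
  obtain ⟨H, hH, hHT, hHc, -⟩ := exists_limit_loc hS.comp hS.sub (𝓤 := UU) hs.hol hs.mem (by
      intro L
      obtain ⟨K, hK⟩ := hs.LB hS hD hC0 hC h0 h1 L
      refine ⟨C * K, ?_⟩
      filter_upwards [hK] with n hn z hz
      exact (hC _ (hs.hol n) (hs.mem n) z).trans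
        (mul_le_mul_of_nonneg_left (hn z (mem_ball_zero_iff.1 hz).le) hC0.le))
  refine ⟨H, hH, hHT, hHc, ?_⟩
  have hpt := hS.lim UU h H hs.hol hs.mem hH hHT hHc
  have hcomp : ∀ j : Fin m', CConv (UU : Filter ℕ) univ (fun n z => S (h n) z j)
      (fun z => S H z j) := by
    intro j
    obtain ⟨G, hG⟩ := ultra_montel (𝓤 := UU) (U := univ) (h := fun n z => S (h n) z j) (by
      intro z _
      obtain ⟨K, hK⟩ := hs.LB hS hD hC0 hC h0 h1 (‖z‖ + 1)
      refine ⟨ball z 1, ball_mem_nhds z one_pos, K ^ k, ?_⟩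
      filter_upwards [hK] with n hn
      have hdif := hS.hol _ (hs.hol n) (hs.mem n)
      refine ⟨fun w _ => ((differentiableAt_pi.1 (hdif w)) j).differentiableWithinAt,
        fun w hw => ?_⟩
      have e1 : ‖w‖ ≤ ‖z‖ + 1 := by
        rw [mem_ball, dist_eq_norm] at hw
        have := norm_add_le (w - z) z
        rw [sub_add_cancel] at this
        linarith
      exact (norm_le_pi_norm (S (h n) w) j).trans ((val_le_sk hk hdif).trans
        (pow_le_pow_left₀ (sk_nn _ _ _) (hn w e1) k)))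
    have e1 : G = fun z => S H z j := by
      funext z
      exact tendsto_nhds_unique (hG.pointwise (mem_univ z)) ((tendsto_pi_nhds.1 (hpt z)) j)
    rwa [e1] at hG
  intro z hz
  rw [tendsto_pi_nhds]
  intro j
  exact hcomp j z hz

/-- the limits of the derivatives -/
theorem it_limv {E : Type*} [NormedAddCommGroup E] [NormedSpace ℂ E] [CompleteSpace E]
    {φ : ℕ → ℂ → E} {Φ : ℂ → E} (hd : ∀ k, Differentiable ℂ (φ k))
    (hc : CConv (UU : Filter ℕ) univ φ Φ) (m : ℕ) (z : ℂ) :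
    Tendsto (fun k => iteratedDeriv m (φ k) z) UU (𝓝 (iteratedDeriv m Φ z)) := by
  have h1 : ∀ m, TendstoLocallyUniformlyOn (fun k => iteratedDeriv m (φ k)) (iteratedDeriv m Φ)
      (UU : Filter ℕ) univ := by
    intro m
    induction m with
    | zero =>
      simp only [iteratedDeriv_zero]
      exact hc.locUnif isOpen_univ
    | succ m ih =>
      simp only [iteratedDeriv_succ]
      exact ih.deriv (Eventually.of_forall fun k => (diff_itv (hd k) m).differentiableOn)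
        isOpen_univ
  exact (h1 m).tendsto_at (mem_univ z)

/-- the absolute value of a coefficient -/
noncomputable def cj (φ : ℂ → Fin m' → ℂ) (m : ℕ) (j : Fin m') (z : ℂ) : ℝ :=
  ‖iteratedDeriv m φ z j‖ / m.factorial

theorem cj_nn (φ : ℂ → Fin m' → ℂ) (m : ℕ) (j : Fin m') (z : ℂ) : 0 ≤ cj φ m j z := by
  unfold cj
  positivity

theorem cj_le (φ : ℂ → Fin m' → ℂ) (m : ℕ) (j : Fin m') (z : ℂ) : cj φ m j z ≤ cv φ m z := by
  unfold cj cv
  exact div_le_div_of_nonneg_right (norm_le_pi_norm _ j) (by positivity)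

theorem qk_ne (n : ℕ) : qk n ≠ 0 := by
  unfold qk
  positivity

theorem qk_dvd' {n l : ℕ} (hl : 0 < l) (h : l ≤ n + 1) : qk n / l * l = qk n := by
  apply Nat.div_mul_cancel
  unfold qk
  exact Dvd.dvd.mul_left (Nat.dvd_factorial hl h) 4

/-- the dominating coefficient -/
theorem SQs.coef (hS : SDat T k S) (hD : DF T D) (hs : SQs T k S D s0 h) (hC0 : 0 < C)
    (hC : GEs T k S C) (h0 : 0 < s0) (h1 : s0 ≤ 1) :
    ∃ (m : ℕ) (j : Fin m'), ∀ᶠ n in (UU : Filter ℕ), ∀ p : ℕ, p * (m + k) = qk n →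
      s0 ^ (qk n) / 2 ≤ cj (S (h n)) m j 0 ^ p := by
  have hk := hS.kpos
  have hdif : ∀ n, Differentiable ℂ (S (h n)) := fun n => hS.hol _ (hs.hol n) (hs.mem n)
  set s : ℕ → ℝ := fun n => s0 * (1 / 2 : ℝ) ^ (((qk n : ℕ) : ℝ)⁻¹) with hsdef
  have hq1 : ∀ n, (1 : ℝ) ≤ (qk n : ℝ) := fun n => by
    exact_mod_cast Nat.one_le_iff_ne_zero.2 (qk_ne n)
  have hs0 : ∀ n, 0 ≤ s n := fun n => by positivity
  have hspow : ∀ n, s n ^ (qk n) = s0 ^ (qk n) / 2 := fun n => by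
    rw [hsdef]
    simp only
    rw [mul_pow, Real.rpow_inv_natCast_pow (by norm_num) (qk_ne n)]
    ring
  have hs1 : ∀ n, s n < s0 := fun n => by
    have := Real.rpow_lt_one (x := 1 / 2) (z := ((qk n : ℕ) : ℝ)⁻¹) (by norm_num) (by norm_num)
      (inv_pos.2 (by linarith [hq1 n]))
    exact mul_lt_of_lt_one_right h0 this
  have hs2 : ∀ n, s0 / 2 ≤ s n := by
    intro n
    have h1 := Real.rpow_le_rpow_of_exponent_ge (x := 1 / 2) (y := 1) (z := ((qk n : ℕ) : ℝ)⁻¹)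
      (by norm_num) (by norm_num) (inv_le_one_of_one_le₀ (hq1 n))
    rw [Real.rpow_one] at h1
    rw [hsdef]
    simp only
    nlinarith
  choose m hm using fun n => exists_cv (φ := S (h n)) (z := 0) hk (hs0 n) (by
    rw [hs.sc n]
    exact hs1 n)
  -- the component
  have hne : ∀ n, ∃ j : Fin m', s n ^ (m n + k) < cj (S (h n)) (m n) j 0 := by
    intro n
    have hn := hm n
    rcases isEmpty_or_nonempty (Fin m') with hE | hE
    · exfalso
      unfold cv at hn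
      rw [Subsingleton.elim (iteratedDeriv (m n) (S (h n)) 0) 0, norm_zero, zero_div] at hn
      have := pow_nonneg (hs0 n) (m n + k)
      linarith
    · obtain ⟨j, hj⟩ := norm_attained (iteratedDeriv (m n) (S (h n)) 0)
      refine ⟨j, ?_⟩
      unfold cv at hn
      unfold cj
      rwa [hj] at hn
  choose j hj using hne
  obtain ⟨K, hK⟩ := hs.LB hS hD hC0 hC h0 h1 (4 / s0)
  have hbound : ∀ᶠ n in (UU : Filter ℕ), ∃ l < ⌈K ^ k * (2 / s0) ^ k⌉₊, m n = l := by
    filter_upwards [hK] with n hn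
    refine ⟨m n, ?_, rfl⟩
    have hR : 0 < 4 / s0 := by positivity
    have h2 := cv_le (z := 0) (hdif n) hR (C := K ^ k) (by
      intro w hw
      rw [mem_sphere_zero_iff_norm] at hw
      exact (val_le_sk hk (hdif n)).trans (pow_le_pow_left₀ (sk_nn _ _ _) (hn w hw.le) k)) (m n)
    have h3 : (s0 / 2) ^ (m n + k) ≤ s n ^ (m n + k) :=
      pow_le_pow_left₀ (by positivity) (hs2 n) _
    have h4 : (s0 / 2) ^ (m n + k) < K ^ k / (4 / s0) ^ (m n) := (h3.trans_lt (hm n)).trans_le h2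
    rw [lt_div_iff₀ (by positivity)] at h4
    have h5 : (s0 / 2) ^ (m n + k) * (4 / s0) ^ m n = 2 ^ m n * (s0 / 2) ^ k := by
      rw [pow_add, mul_right_comm, ← mul_pow]
      congr 2
      field_simp
      norm_num
    rw [h5] at h4
    have h6 : (2 : ℝ) ^ m n < K ^ k * (2 / s0) ^ k := by
      have h7 : (2 : ℝ) ^ m n = 2 ^ m n * (s0 / 2) ^ k * (2 / s0) ^ k := by
        rw [mul_assoc, ← mul_pow]
        have : s0 / 2 * (2 / s0) = 1 := by field_simp
        rw [this, one_pow, mul_one]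
      rw [h7]
      exact mul_lt_mul_of_pos_right h4 (by positivity)
    have h8 : (m n : ℝ) < 2 ^ m n := by exact_mod_cast Nat.lt_two_pow_self (n := m n)
    have h9 := (h8.trans h6).trans_le (Nat.le_ceil _)
    exact_mod_cast h9
  obtain ⟨l, hl⟩ := pigeon hbound
  have hbound2 : ∀ᶠ n in (UU : Filter ℕ), ∃ i < m', (j n : ℕ) = i :=
    Eventually.of_forall fun n => ⟨j n, (j n).2, rfl⟩
  obtain ⟨i, hi⟩ := pigeon hbound2
  have him : i < m' := by
    obtain ⟨n, hn⟩ := hi.exists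
    rw [← hn]
    exact (j n).2
  refine ⟨l, ⟨i, him⟩, ?_⟩
  filter_upwards [hl, hi] with n e1 e2 p hp
  have e3 : j n = ⟨i, him⟩ := Fin.ext e2
  have h1 := hj n
  rw [e1, e3] at h1
  calc s0 ^ (qk n) / 2 = s n ^ (qk n) := (hspow n).symm
    _ = (s n ^ (l + k)) ^ p := by rw [← pow_mul, ← hp, mul_comm]
    _ ≤ _ := pow_le_pow_left₀ (pow_nonneg (hs0 n) _) h1.le p

end Pool.Agent.H918.SD
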