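import Pool.Graph.R_pool_sql_team_seeded_63374d34.N154.TT.Sig

/-! The scale of a vector valued entire function, of weight `k`. -/

set_option autoImplicit false

open Filter Topology Metric Set

namespace Pool.Agent.H918.SD

open Pool.Agent.N154.TT (cv cv_nonneg iteratedDeriv_aff)
open Pool.Agent.N154.GG (root_le)

variable {E : Type*} [NormedAddCommGroup E] [NormedSpace ℂ E] [CompleteSpace E]

/-- the scale -/
noncomputable def sk (k : ℕ) (φ : ℂ → E) (z : ℂ) : ℝ :=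
  ⨆ m : ℕ, (cv φ m z) ^ (((m + k : ℕ) : ℝ)⁻¹)

variable {φ : ℂ → E} {z : ℂ} {k : ℕ}

theorem root_le' {a s : ℝ} {m : ℕ} (hk : 0 < k) (ha : 0 ≤ a) (hs : 0 ≤ s) (h : a ≤ s ^ (m + k)) :
    a ^ (((m + k : ℕ) : ℝ)⁻¹) ≤ s := by
  have h1 : m + k ≠ 0 := by omega
  calc a ^ (((m + k : ℕ) : ℝ)⁻¹) ≤ (s ^ (m + k)) ^ (((m + k : ℕ) : ℝ)⁻¹) :=
        Real.rpow_le_rpow ha h (by positivity)
    _ = s := Real.pow_rpow_inv_natCast hs h1

omit [CompleteSpace E] in
theorem sk_le {s : ℝ} (hk : 0 < k) (hs : 0 ≤ s) (h : ∀ m : ℕ, cv φ m z ≤ s ^ (m + k)) :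
    sk k φ z ≤ s := ciSup_le fun m => root_le' hk (cv_nonneg _ _ _) hs (h m)

theorem cv_le (hφ : Differentiable ℂ φ) {ρ C : ℝ} (hρ : 0 < ρ)
    (h : ∀ w ∈ sphere z ρ, ‖φ w‖ ≤ C) (m : ℕ) : cv φ m z ≤ C / ρ ^ m := by
  have hd : DiffContOnCl ℂ φ (ball z ρ) := hφ.diffContOnCl
  have h2 := Complex.norm_iteratedDeriv_le_of_forall_mem_sphere_norm_le m hρ hd h
  unfold cv
  rw [div_le_iff₀ (by positivity)]
  refine h2.trans (le_of_eq ?_)
  ring

theorem bddAbove_sk (hk : 0 < k) (hφ : Differentiable ℂ φ) :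
    BddAbove (range fun m : ℕ => (cv φ m z) ^ (((m + k : ℕ) : ℝ)⁻¹)) := by
  obtain ⟨C, hC⟩ := (isCompact_sphere z 1).bddAbove_image hφ.continuous.norm.continuousOn
  refine ⟨max C 1, ?_⟩
  rintro _ ⟨m, rfl⟩
  refine root_le' hk (cv_nonneg _ _ _) (by positivity) ?_
  have h1 := cv_le (z := z) hφ one_pos (C := max C 1)
    (fun w hw => (hC ⟨w, hw, rfl⟩).trans (le_max_left _ _)) m
  rw [one_pow, div_one] at h1
  exact h1.trans (le_self_pow₀ (le_max_right _ _) (by omega))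

omit [CompleteSpace E] in
theorem sk_nn (k : ℕ) (φ : ℂ → E) (z : ℂ) : 0 ≤ sk k φ z :=
  Real.iSup_nonneg fun _ => Real.rpow_nonneg (cv_nonneg _ _ _) _

theorem cv_le_sk (hk : 0 < k) (hφ : Differentiable ℂ φ) (m : ℕ) :
    cv φ m z ≤ sk k φ z ^ (m + k) := by
  have h1 : (cv φ m z) ^ (((m + k : ℕ) : ℝ)⁻¹) ≤ sk k φ z := le_ciSup (bddAbove_sk hk hφ) m
  have h2 := pow_le_pow_left₀ (Real.rpow_nonneg (cv_nonneg φ m z) _) h1 (m + k)
  rwa [Real.rpow_inv_natCast_pow (cv_nonneg _ _ _) (by omega)] at h2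

theorem val_le_sk (hk : 0 < k) (hφ : Differentiable ℂ φ) : ‖φ z‖ ≤ sk k φ z ^ k := by
  have := cv_le_sk (z := z) hk hφ 0
  unfold cv at this
  rw [zero_add, iteratedDeriv_zero, Nat.factorial_zero, Nat.cast_one, div_one] at this
  exact this

theorem sk_le_of_bound (hk : 0 < k) (hφ : Differentiable ℂ φ) {s : ℝ} (hs : 0 < s)
    (h : ∀ w ∈ sphere z (1 / s), ‖φ w‖ ≤ s ^ k) : sk k φ z ≤ s := by
  apply sk_le hk hs.le
  intro m
  refine (cv_le hφ (by positivity) h m).trans (le_of_eq ?_)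
  rw [pow_add, div_pow, one_pow]
  field_simp

/-- Taylor's formula -/
theorem taylor_bound (hk : 0 < k) (hφ : Differentiable ℂ φ) {w : ℂ}
    (h : ‖w - z‖ * sk k φ z ≤ 1 / 2) : ‖φ w‖ ≤ 2 * sk k φ z ^ k := by
  have h1 := Complex.hasSum_taylorSeries_on_ball (hφ.differentiableOn (s := ball z (‖w - z‖ + 1)))
    (mem_ball_iff_norm.2 (lt_add_one _) : w ∈ ball z (‖w - z‖ + 1))
  have hs := sk_nn k φ z
  have hg : HasSum (fun m : ℕ => sk k φ z ^ k * (1 / 2) ^ m) (sk k φ z ^ k * 2) :=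
    (hasSum_geometric_two).mul_left _
  rw [mul_comm 2]
  refine HasSum.norm_le_of_bounded h1 hg fun m => ?_
  rw [norm_smul, norm_smul, norm_inv, norm_pow, Complex.norm_natCast]
  have h4 : (m.factorial : ℝ)⁻¹ * (‖w - z‖ ^ m * ‖iteratedDeriv m φ z‖) =
      ‖w - z‖ ^ m * cv φ m z := by
    unfold cv
    field_simp
  rw [h4]
  calc ‖w - z‖ ^ m * cv φ m z ≤ ‖w - z‖ ^ m * sk k φ z ^ (m + k) :=
        mul_le_mul_of_nonneg_left (cv_le_sk hk hφ m) (by positivity)
    _ = sk k φ z ^ k * (‖w - z‖ * sk k φ z) ^ m := by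
        rw [mul_pow, pow_add]
        ring
    _ ≤ sk k φ z ^ k * (1 / 2) ^ m := by
        gcongr

/-- a Harnack inequality for the scale -/
theorem sk_harnack (hk : 0 < k) (hφ : Differentiable ℂ φ) {w : ℂ}
    (h : 4 * ‖w - z‖ * sk k φ z ≤ 1) : sk k φ w ≤ 4 * sk k φ z := by
  rcases (sk_nn k φ z).eq_or_lt with h0 | h0
  · rw [← h0, mul_zero]
    apply sk_le hk le_rfl
    intro m
    have hz : ∀ x, φ x = 0 := by
      intro x
      have h1 := taylor_bound (z := z) (w := x) hk hφ (by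
        rw [← h0, mul_zero]
        norm_num)
      rw [← h0, zero_pow hk.ne', mul_zero] at h1
      exact norm_le_zero_iff.1 h1
    have h2 : φ = fun _ => 0 := funext hz
    have h3 : iteratedDeriv m φ w = 0 := by
      rw [h2, iteratedDeriv_const]
      split_ifs <;> rfl
    unfold cv
    rw [h3, norm_zero, zero_div]
    positivity
  · have h4 : 0 < 4 * sk k φ z := by positivity
    apply sk_le_of_bound hk hφ h4
    intro x hx
    rw [mem_sphere, dist_eq_norm] at hx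
    have e1 : ‖w - z‖ ≤ 1 / (4 * sk k φ z) := by
      rw [le_div_iff₀ h4]
      linarith
    have h2 : ‖x - z‖ ≤ ‖x - w‖ + ‖w - z‖ := by
      have := norm_add_le (x - w) (w - z)
      rwa [sub_add_sub_cancel] at this
    have h5 := taylor_bound (z := z) (w := x) hk hφ (by
      calc ‖x - z‖ * sk k φ z ≤ (1 / (4 * sk k φ z) + 1 / (4 * sk k φ z)) * sk k φ z := by
            gcongr
            linarith
        _ = 1 / 2 := by
            field_simp
            norm_num)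
    refine h5.trans ?_
    rw [mul_pow]
    have h6 : (2 : ℝ) ≤ 4 ^ k := by
      calc (2 : ℝ) ≤ 4 ^ 1 := by norm_num
        _ ≤ 4 ^ k := pow_le_pow_right₀ (by norm_num) hk
    gcongr

theorem zero_of_sk_zero (hk : 0 < k) (hφ : Differentiable ℂ φ) (h : sk k φ z = 0) (x : ℂ) :
    φ x = 0 := by
  have h1 := taylor_bound (z := z) (w := x) hk hφ (by
    rw [h, mul_zero]
    norm_num)
  rw [h, zero_pow hk.ne', mul_zero] at h1
  exact norm_le_zero_iff.1 h1

theorem sk_locbdd (hk : 0 < k) (hφ : Differentiable ℂ φ) (z : ℂ) :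
    ∀ᶠ w in 𝓝 z, sk k φ w ≤ 4 * sk k φ z := by
  have h1 : Tendsto (fun w : ℂ => 4 * ‖w - z‖ * sk k φ z) (𝓝 z) (𝓝 0) := by
    have : Continuous fun w : ℂ => 4 * ‖w - z‖ * sk k φ z := by fun_prop
    have h2 := this.tendsto z
    simpa using h2
  filter_upwards [h1.eventually_le_const (u := 1) one_pos] with w hw
  exact sk_harnack hk hφ hw

omit [CompleteSpace E] in
/-- affine changes of variables -/
theorem cv_comp (φ : ℂ → E) (z0 c : ℂ) (m : ℕ) (t : ℂ) :
    cv (fun t => c ^ k • φ (z0 + c * t)) m t = ‖c‖ ^ (m + k) * cv φ m (z0 + c * t) := by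
  have h1 : iteratedDeriv m (fun t => c ^ k • φ (z0 + c * t)) t =
      c ^ k • iteratedDeriv m (fun t => φ (z0 + c * t)) t :=
    iteratedDeriv_fun_const_smul_field (c ^ k) (fun t => φ (z0 + c * t))
  unfold cv
  rw [h1, iteratedDeriv_aff, norm_smul, norm_smul, norm_pow, norm_pow, pow_add]
  ring

omit [CompleteSpace E] in
theorem sk_comp (hk : 0 < k) (φ : ℂ → E) (z0 c : ℂ) (t : ℂ) :
    sk k (fun t => c ^ k • φ (z0 + c * t)) t = ‖c‖ * sk k φ (z0 + c * t) := by
  unfold sk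
  rw [Real.mul_iSup_of_nonneg (norm_nonneg c)]
  congr 1
  funext m
  rw [cv_comp φ, Real.mul_rpow (by positivity) (cv_nonneg _ _ _),
    Real.pow_rpow_inv_natCast (norm_nonneg c) (by omega)]

omit [CompleteSpace E] in
/-- the supremum is almost attained -/
theorem exists_cv (hk : 0 < k) {s : ℝ} (hs : 0 ≤ s) (h : s < sk k φ z) :
    ∃ m : ℕ, s ^ (m + k) < cv φ m z := by
  by_contra hcon
  push Not at hcon
  exact absurd (sk_le hk hs hcon) (not_le.2 h)

theorem diff_itv (hφ : Differentiable ℂ φ) (m : ℕ) : Differentiable ℂ (iteratedDeriv m φ) := by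
  have h1 : AnalyticOnNhd ℂ φ univ := hφ.differentiableOn.analyticOnNhd isOpen_univ
  rw [iteratedDeriv_eq_iterate]
  intro z
  exact (h1.iterated_deriv m z (mem_univ z)).differentiableAt

/-- the maximum principle -/
theorem sk_max (hk : 0 < k) (hφ : Differentiable ℂ φ) {s r : ℝ} (hs : 0 ≤ s)
    (h : s < sk k φ z) (hz : ‖z‖ < r) : ∃ w : ℂ, ‖w‖ = r ∧ s < sk k φ w := by
  obtain ⟨m, hm⟩ := exists_cv hk hs h
  by_contra hcon
  push Not at hcon
  have hdiff := diff_itv hφ m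
  have hr0 : 0 < r := (norm_nonneg z).trans_lt hz
  have h1 := Complex.norm_le_of_forall_mem_frontier_norm_le (f := iteratedDeriv m φ)
    (U := ball 0 r) (C := s ^ (m + k) * m.factorial) isBounded_ball
    hdiff.diffContOnCl (by
      intro w hw
      rw [frontier_ball (0 : ℂ) hr0.ne', mem_sphere_zero_iff_norm] at hw
      have h2 := (cv_le_sk (z := w) hk hφ m).trans
        (pow_le_pow_left₀ (sk_nn k φ w) (hcon w hw) (m + k))
      unfold cv at h2
      rwa [div_le_iff₀ (by positivity)] at h2)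
    (subset_closure (mem_ball_zero_iff.2 hz))
  apply absurd hm
  push Not
  unfold cv
  rwa [div_le_iff₀ (by positivity)]

omit [CompleteSpace E] in
/-- the scale of a constant -/
theorem sk_const (hk : 0 < k) (c : E) (z : ℂ) : sk k (fun _ : ℂ => c) z ^ k ≤ ‖c‖ := by
  have h1 : sk k (fun _ : ℂ => c) z ≤ ‖c‖ ^ ((k : ℝ)⁻¹) := by
    apply sk_le hk (by positivity)
    intro m
    unfold cv
    rw [iteratedDeriv_const]
    split_ifs with h0
    · rw [h0, Nat.factorial_zero, Nat.cast_one, div_one, zero_add,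
        Real.rpow_inv_natCast_pow (norm_nonneg _) hk.ne']
    · rw [norm_zero, zero_div]
      positivity
  calc _ ≤ (‖c‖ ^ ((k : ℝ)⁻¹)) ^ k := pow_le_pow_left₀ (sk_nn _ _ _) h1 k
    _ = ‖c‖ := Real.rpow_inv_natCast_pow (norm_nonneg _) hk.ne'

end Pool.Agent.H918.SD
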