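import Pool.Agent.H918.A.Main
import Pool.Graph.R_pool_sql_team_seeded_63374d34.N155.Q.Frm

/-! Special sets of closed subsets of projective manifolds. -/

set_option autoImplicit false

open Filter Topology LinearAlgebra.Projectivization

namespace Pool.Agent.H918.SD

open Pool.Agent.W602.GT Pool.Agent.N155.BB

variable {n d : ℕ} {ι ι' : Type}

/-- `f` is a nonconstant holomorphic map from the complex plane to the projective set `X = {F = 0}`
with values in the subset `V`. -/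
def EntireIn (F : ι → MvPolynomial (Fin (n + 1)) ℂ) (V : Set (ℙ ℂ (Fin (n + 1) → ℂ)))
    (f : ℂ → ℙ ℂ (Fin (n + 1) → ℂ)) : Prop :=
  HolIn F f ∧ (∀ z, f z ∈ V) ∧ ∃ z, f z ≠ f 0

/-- The special set `Sp_h(V)` (as a cone): the Zariski closure, in the projective set
`X = {F = 0}`, of the union of the images of the nonconstant holomorphic maps from the complex plane
to `X` with values in `V`. -/
def SpEntire (F : ι → MvPolynomial (Fin (n + 1)) ℂ) (V : Set (ℙ ℂ (Fin (n + 1) → ℂ))) :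
    Set (Fin (n + 1) → ℂ) :=
  {x | x ∈ Cone F ∧ ∀ P : MvPolynomial (Fin (n + 1)) ℂ, IsForm P →
    (∀ f, EntireIn F V f → ∀ z, val (f z).rep P = 0) → val x P = 0}

/-- The Zariski closure (as a cone), in the projective set `X = {F = 0}`, of the union of the images
of the nonconstant holomorphic maps from elliptic curves `ℂ / L` to `X` with values in `V`. -/
def SpElliptic (F : ι → MvPolynomial (Fin (n + 1)) ℂ) (V : Set (ℙ ℂ (Fin (n + 1) → ℂ))) :
    Set (Fin (n + 1) → ℂ) :=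
  {x | x ∈ Cone F ∧ ∀ P : MvPolynomial (Fin (n + 1)) ℂ, IsForm P →
    (∀ f, EntireIn F V f → DoublyPeriodic f → ∀ z, val (f z).rep P = 0) → val x P = 0}

variable {F : ι → MvPolynomial (Fin (n + 1)) ℂ} {G : ι' → MvPolynomial (Fin (n + 1)) ℂ}
  {κ : Type} {η : κ → (Fin (n + 1) → ℂ) → (Fin (n + 1) → ℂ) → (Fin (n + 1) → ℂ) → ℂ}
  {V : Set (ℙ ℂ (Fin (n + 1) → ℂ))}

theorem nonconst_of_below {f : ℂ → ℙ ℂ (Fin (n + 1) → ℂ)} {c C : ℝ} (hc : 0 < c)
    (hb : DerBetween c C f) : ∃ z, f z ≠ f 0 := by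
  by_contra hcon
  push Not at hcon
  exact const_not_below (fun z w => (hcon z).trans (hcon w).symm) hc hb

/-- the special sets -/
theorem special_sets (hX : ProjManifold F d) (hG : ∀ i, IsForm (G i))
    (hη : PositiveTwoForms (Cone F) (Cone G) d η) (hV : ClosedSet V) :
    (∃ f : ℂ → ℙ ℂ (Fin (n + 1) → ℂ), EntireIn F V f ∧ (∃ C, DerBetween 0 C f) ∧
      ∀ k, 0 < k → ∀ σ, SymDiff (Cone F) d k σ → TangentTo σ f) ∨
    (∃ f : ℂ → ℙ ℂ (Fin (n + 1) → ℂ), EntireIn F V f ∧ (∀ z, (f z).rep ∈ Cone G) ∧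
      ∃ c C, 0 < c ∧ DerBetween c C f) ∨
    ((∃ S : Finset (ℂ → ℙ ℂ (Fin (n + 1) → ℂ)), (∀ g ∈ S, EntireIn F V g ∧ DoublyPeriodic g) ∧
      ∀ f, EntireIn F V f → ∃ g ∈ S, ∃ s : ℂ → ℂ, Differentiable ℂ s ∧ ∀ z, f z = g (s z)) ∧
      SpElliptic F V = SpEntire F V ∧
      (2 ≤ d → ∀ x ∈ Cone F, ∃ᶠ u in 𝓝 x, u ∈ Cone F ∧ u ∉ SpEntire F V)) := by
  rcases factor_or_tangent hX hG hη hV with h | h | h
  · obtain ⟨f, h1, h2, h3, h4, h5⟩ := h
    exact Or.inl ⟨f, ⟨h1, h2, h3⟩, h4, h5⟩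
  · obtain ⟨f, h1, h2, h3, c, C, h4, h5⟩ := h
    exact Or.inr (Or.inl ⟨f, ⟨h1, h2, nonconst_of_below h4 h5⟩, h3, c, C, h4, h5⟩)
  · right
    right
    obtain ⟨S, hS, hS2⟩ := h
    have hSE : ∀ g ∈ S, EntireIn F V g ∧ DoublyPeriodic g := fun g hg => by
      obtain ⟨h1, h2, ⟨c, C, hc, hb⟩, h4⟩ := hS g hg
      exact ⟨⟨h1, h2, nonconst_of_below hc hb⟩, h4⟩
    have hfac : ∀ f, EntireIn F V f → ∃ g ∈ S, ∃ s : ℂ → ℂ, Differentiable ℂ s ∧
        ∀ z, f z = g (s z) := fun f hf => hS2 f hf.1 hf.2.1 hf.2.2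
    refine ⟨⟨S, hSE, hfac⟩, ?_, fun hd x hx => ?_⟩
    · ext x
      constructor
      · rintro ⟨hx, h⟩
        exact ⟨hx, fun P hP hv => h P hP fun f hf _ => hv f hf⟩
      · rintro ⟨hx, h⟩
        refine ⟨hx, fun P hP hv => h P hP fun f hf z => ?_⟩
        obtain ⟨g, hg, s, -, hfs⟩ := hfac f hf
        rw [hfs z]
        exact hv g (hSE g hg).1 (hSE g hg).2 _
    · obtain ⟨P, e, hP, hPg, hPu⟩ := Pool.Agent.N155.QD.exists_form hX hd S
        (fun g hg => ⟨(hSE g hg).1.1, (hSE g hg).2⟩) hx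
      refine hPu.mono fun u hu => ⟨hu.1, fun hcon => hu.2 ?_⟩
      have h1 := hcon.2 P ⟨e, hP⟩ fun f hf z => by
        obtain ⟨g, hg, s, -, hfs⟩ := hfac f hf
        rw [hfs z, val, MvPolynomial.aeval_eq_eval]
        exact hPg g hg _
      rwa [val, MvPolynomial.aeval_eq_eval] at h1

end Pool.Agent.H918.SD
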