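import Pool.Agent.H918.A.Dat
import Pool.Graph.R_pool_sql_team_seeded_63374d34.N155.B.Sym

/-! The symmetric differentials of projective manifolds. -/

set_option autoImplicit false

open Filter Topology Metric Set MvPolynomial LinearAlgebra.Projectivization

namespace Pool.Agent.H918.SD

open Pool.Agent.Y190.OP Pool.Agent.W602.GT Pool.Agent.N155 Pool.Agent.N155.BB
open Pool.Agent.N154.GG (holP_comp exists_limit_loc hp_cont)

variable {n : ℕ} {ι : Type} {F : ι → MvPolynomial (Fin (n + 1)) ℂ} {d k m : ℕ}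
  {σ : (Fin (n + 1) → ℂ) → (Fin (n + 1) → ℂ) → ℂ}

/-- the index of a chart -/
noncomputable def idx (M : Mat (n + 1)) : Fin (n + 1) := by
  classical
  exact if h : ∃ i, M i i ≠ 0 then h.choose else 0

theorem idx_ne {M : Mat (n + 1)} (hM : M ∈ PM) : M (idx M) (idx M) ≠ 0 := by
  classical
  have h : ∃ i, M i i ≠ 0 := PM.exists_diag hM
  unfold idx
  rw [dif_pos h]
  exact h.choose_spec

/-- the values along curves -/
noncomputable def SV (σ : Fin m → (Fin (n + 1) → ℂ) → (Fin (n + 1) → ℂ) → ℂ)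
    (P : ℂ → Mat (n + 1)) (t : ℂ) : Fin m → ℂ := fun j => sv (σ j) P (idx (P t)) t

/-- the local form of the values -/
theorem sv_loc' (hX : ProjManifold F d) (hσ : SymDiff (Cone F) d k σ) {M0 : Mat (n + 1)}
    (hM0 : M0 ∈ TF F) : ∃ (O : Set (Mat (n + 1))) (i : Fin (n + 1)) (J : Fin d → Fin (n + 1))
    (U : Set (Fin d → ℂ)) (f : (Fin d → ℂ) × (Fin d → ℂ) → ℂ), IsOpen O ∧ M0 ∈ O ∧ IsOpen U ∧
      AnalyticOnNhd ℂ f (U ×ˢ univ) ∧ (∀ M ∈ O, M i i ≠ 0 ∧ (fun l => chart i M (J l)) ∈ U) ∧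
      ∀ φ : ℂ → Mat (n + 1), HolP univ φ → (∀ z, φ z ∈ TF F) → ∀ t, φ t ∈ O →
        sv σ φ i t = f (fun l => chart i (φ t) (J l),
          fun l => deriv (fun s => chart i (φ s)) t (J l)) := by
  obtain ⟨i, J, O, U, Ψ, hO, hMO, hU, hΨ, hΨX, hloc⟩ := graph_of hX hM0
  refine ⟨O, i, J, U, fun p => σ (Ψ p.1) (fderiv ℂ Ψ p.1 p.2), hO, hMO, hU, hσ.hol U Ψ hU hΨ hΨX,
    fun M hM => ⟨(hloc M hM).1, (hloc M hM).2.1⟩, fun φ hφ hφT t ht => ?_⟩
  have hcφ : Continuous φ := hp_cont hφ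
  obtain ⟨hit, hUt, ht3⟩ := hloc _ ht
  have hΨt := ht3 (hφT _)
  have hev : ∀ᶠ s in 𝓝 t, φ s ∈ O := hcφ.continuousAt.eventually (hO.mem_nhds ht)
  have hd := (an_chart hφ i hit).differentiableAt.hasDerivAt
  have hdξ : HasDerivAt (fun s l => chart i (φ s) (J l))
      (fun l => deriv (fun s => chart i (φ s)) t (J l)) t :=
    hasDerivAt_pi.2 fun k => (hasDerivAt_pi.1 hd) (J k)
  have f1 : deriv (fun s => chart i (φ s)) t = fderiv ℂ Ψ (fun l => chart i (φ t) (J l))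
      (fun l => deriv (fun s => chart i (φ s)) t (J l)) := by
    have h1 := (hΨ _ hUt).differentiableAt.hasFDerivAt.comp_hasDerivAt t hdξ
    have h2 : (fun s => chart i (φ s)) =ᶠ[𝓝 t] Ψ ∘ fun s l => chart i (φ s) (J l) := by
      filter_upwards [hev] with s hs
      exact (hloc _ hs).2.2 (hφT s)
    rw [← h1.deriv, ← h2.deriv_eq]
  unfold sv
  simp only
  rw [← f1, ← hΨt]

/-- limits of the values -/
theorem sv_lim (hX : ProjManifold F d) (hσ : SymDiff (Cone F) d k σ) {𝓤 : Ultrafilter ℕ}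
    {P : ℕ → ℂ → Mat (n + 1)} {H : ℂ → Mat (n + 1)} (hP : ∀ m, HolP univ (P m))
    (hPT : ∀ m z, P m z ∈ TF F) (hH : HolP univ H) (hHT : ∀ z, H z ∈ TF F)
    (hc : CConv (𝓤 : Filter ℕ) univ P H) (t : ℂ) :
    Tendsto (fun m => sv σ (P m) (idx (P m t)) t) 𝓤 (𝓝 (sv σ H (idx (H t)) t)) := by
  obtain ⟨O, i, J, U, f, hO, hMO, hU, hf, hOU, hloc⟩ := sv_loc' hX hσ (hHT t)
  obtain ⟨hi, hUt⟩ := hOU _ hMO
  have e1 : sv σ H (idx (H t)) t = sv σ H i t :=
    sv_indep hX hσ hH hHT hi (idx_ne (TF_PM (hHT t)))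
  rw [e1, hloc H hH hHT t hMO]
  have hev := (hc.pointwise (mem_univ t)).eventually (hO.mem_nhds hMO)
  have h1 : Tendsto (fun m => (fun l => chart i (P m t) (J l) : Fin d → ℂ)) 𝓤
      (𝓝 (fun l => chart i (H t) (J l))) := by
    rw [tendsto_pi_nhds]
    intro l
    exact (((continuous_apply (J l)).continuousAt.comp (continuousAt_chart hi)).tendsto).comp
      (hc.pointwise (mem_univ t))
  have hUo : IsOpen {w | H w i i ≠ 0} :=
    isOpen_ne_fun ((continuous_apply_apply i i).comp (hp_cont hH)) continuous_const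
  have hdr : ∀ (Q : ℂ → Mat (n + 1)), HolP univ Q → Q t i i ≠ 0 → ∀ r,
      deriv (fun s => chart i (Q s)) t r = deriv (fun s => chart i (Q s) r) t := by
    intro Q hQ hQi r
    exact (((hasDerivAt_pi.1 (an_chart hQ i hQi).differentiableAt.hasDerivAt) r).deriv).symm
  have h2 : Tendsto (fun m => (fun l => deriv (fun s => chart i (P m s)) t (J l) : Fin d → ℂ)) 𝓤
      (𝓝 (fun l => deriv (fun s => chart i (H s)) t (J l))) := by
    rw [tendsto_pi_nhds]
    intro l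
    rw [hdr H hH hi]
    have h3 := (CConv.an (cc_chart hc i (J l)) hUo hi (cc_chart_diff hc hP i (J l) hi)).2
    refine h3.congr' ?_
    filter_upwards [hev] with m hm
    exact (hdr (P m) (hP m) (hOU _ hm).1 (J l)).symm
  have h3 : ContinuousAt f (fun l => chart i (H t) (J l),
      fun l => deriv (fun s => chart i (H s)) t (J l)) := (hf _ ⟨hUt, mem_univ _⟩).continuousAt
  refine (h3.tendsto.comp (h1.prodMk_nhds h2)).congr' ?_
  filter_upwards [hev] with m hm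
  rw [sv_indep hX hσ (hP m) (hPT m) (hOU _ hm).1 (idx_ne (TF_PM (hPT m t)))]
  exact (hloc (P m) (hP m) (hPT m) t hm).symm

theorem sv_bound (hX : ProjManifold F d) (hσ : SymDiff (Cone F) d k σ) (hk : 0 < k) :
    ∃ C : ℝ, 0 ≤ C ∧ ∀ φ : ℂ → Mat (n + 1), HolP univ φ → (∀ z, φ z ∈ TF F) →
      ∀ t, ‖sv σ φ (idx (φ t)) t‖ ≤ C * ‖fderiv ℝ φ t‖ ^ k := by
  have hbd : ∃ C : ℝ, ∀ M ∈ TF F, ∀ φ : ℂ → Mat (n + 1), HolP univ φ → (∀ z, φ z ∈ TF F) →
      ∀ t, φ t = M → ∀ i, φ t i i ≠ 0 → ‖sv σ φ i t‖ ≤ C * ‖fderiv ℝ φ t‖ ^ k := by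
    refine (isCompact_TF hX.form).induction_on (p := fun s => ∃ C : ℝ, ∀ M ∈ s,
      ∀ φ : ℂ → Mat (n + 1), HolP univ φ → (∀ z, φ z ∈ TF F) →
      ∀ t, φ t = M → ∀ i, φ t i i ≠ 0 → ‖sv σ φ i t‖ ≤ C * ‖fderiv ℝ φ t‖ ^ k) ?_ ?_ ?_ ?_
    · exact ⟨0, fun M hM => absurd hM (notMem_empty _)⟩
    · rintro s s' hss ⟨C, hC⟩
      exact ⟨C, fun M hM => hC M (hss hM)⟩
    · rintro s s' ⟨C, hC⟩ ⟨C', hC'⟩
      refine ⟨max C C', fun M hM φ hφ hφT t ht i hi => ?_⟩
      rcases hM with hM | hM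
      · exact (hC M hM φ hφ hφT t ht i hi).trans
          (mul_le_mul_of_nonneg_right (le_max_left _ _) (by positivity))
      · exact (hC' M hM φ hφ hφT t ht i hi).trans
          (mul_le_mul_of_nonneg_right (le_max_right _ _) (by positivity))
    · intro M hM
      obtain ⟨O, i, C, hO, hMO, hOi, h1⟩ := sv_loc hX hσ hk hM
      refine ⟨O, mem_nhdsWithin_of_mem_nhds (hO.mem_nhds hMO), C,
        fun M' hM' φ hφ hφT t ht j hj => ?_⟩
      have ht' : φ t ∈ O := by rwa [ht]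
      rw [sv_indep hX hσ hφ hφT (hOi _ ht') hj]
      exact (h1 φ hφ hφT t ht').2
  obtain ⟨C, hC⟩ := hbd
  refine ⟨max C 0, le_max_right _ _, fun φ hφ hφT t =>
    (hC _ (hφT t) φ hφ hφT t rfl _ (idx_ne (TF_PM (hφT t)))).trans
      (mul_le_mul_of_nonneg_right (le_max_left _ _) (by positivity))⟩

theorem sv_hol (hX : ProjManifold F d) (hσ : SymDiff (Cone F) d k σ) (hk : 0 < k)
    {φ : ℂ → Mat (n + 1)} (hφ : HolP univ φ) (hφT : ∀ z, φ z ∈ TF F) :
    Differentiable ℂ (fun t => sv σ φ (idx (φ t)) t) := by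
  intro t
  obtain ⟨O, i, C, hO, hMO, hOi, h1⟩ := sv_loc hX hσ hk (hφT t)
  refine ((h1 φ hφ hφT t hMO).1.congr ?_).differentiableAt
  filter_upwards [(hp_cont hφ).continuousAt.eventually (hO.mem_nhds hMO)] with t' ht'
  exact (sv_indep hX hσ hφ hφT (hOi _ ht') (idx_ne (TF_PM (hφT t')))).symm

theorem sv_aff (hX : ProjManifold F d) (hσ : SymDiff (Cone F) d k σ) {φ : ℂ → Mat (n + 1)}
    (hφT : ∀ z, φ z ∈ TF F) (z0 c t : ℂ) :
    sv σ (fun t => φ (z0 + c * t)) (idx (φ (z0 + c * t))) t =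
      c ^ k * sv σ φ (idx (φ (z0 + c * t))) (z0 + c * t) := by
  unfold sv
  set i := idx (φ (z0 + c * t)) with hi
  have h1 : deriv (fun s => chart i (φ (z0 + c * s))) t =
      c • deriv (fun s => chart i (φ s)) (z0 + c * t) := by
    have h2 := congrFun (Pool.Agent.N154.TT.iteratedDeriv_aff (fun s => chart i (φ s)) z0 c 1) t
    rwa [iteratedDeriv_one, iteratedDeriv_one, pow_one] at h2
  rw [h1]
  exact hσ.deg _ (chart_cone hX.form (hφT _) (idx_ne (TF_PM (hφT _)))) _ _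

/-- the data -/
theorem sdat_of (hX : ProjManifold F d) (hk : 0 < k)
    {σ : Fin m → (Fin (n + 1) → ℂ) → (Fin (n + 1) → ℂ) → ℂ}
    (hσ : ∀ j, SymDiff (Cone F) d k (σ j)) {T : Set (Mat (n + 1))} (hT : IsClosed T)
    (hTF : T ⊆ TF F) : SDat T k (SV σ) where
  comp := (isCompact_TF hX.form).of_isClosed_subset hT hTF
  sub := hTF.trans TF_PM
  kpos := hk
  hol := fun P hP hPT => differentiable_pi.2 fun j =>
    sv_hol hX (hσ j) hk hP fun z => hTF (hPT z)
  aff := fun P hP hPT z0 c t => by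
    funext j
    exact sv_aff hX (hσ j) (fun z => hTF (hPT z)) z0 c t
  bd := by
    choose C hC0 hC using fun j => sv_bound hX (hσ j) hk
    refine ⟨∑ j, C j, Finset.sum_nonneg fun j _ => hC0 j, fun P hP hPT z => ?_⟩
    have h0 : 0 ≤ ∑ j, C j := Finset.sum_nonneg fun j _ => hC0 j
    rw [pi_norm_le_iff_of_nonneg (by positivity)]
    intro j
    refine (hC j P hP (fun z => hTF (hPT z)) z).trans ?_
    exact mul_le_mul_of_nonneg_right (Finset.single_le_sum (f := C) (fun j _ => hC0 j)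
      (Finset.mem_univ j)) (by positivity)
  lim := fun 𝓤 P H hP hPT hH hHT hc z => tendsto_pi_nhds.2 fun j =>
    sv_lim hX (hσ j) hP (fun m z => hTF (hPT m z)) hH (fun z => hTF (hHT z)) hc z

/-- powers -/
theorem symDiff_pow (hσ : SymDiff (Cone F) d k σ) (p : ℕ) :
    SymDiff (Cone F) d (k * p) (fun x v => σ x v ^ p) where
  twist := fun x hx v c a hc => by rw [hσ.twist x hx v c a hc]
  deg := fun x hx v c => by rw [hσ.deg x hx v c, mul_pow, pow_mul]
  hol := fun U Ψ hU hΨ hΨX => (hσ.hol U Ψ hU hΨ hΨX).fun_pow p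

end Pool.Agent.H918.SD
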